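import Pool.Agent.Q230.IP.Loj

/-!
# Project IP: lower bounds at infinity, conclusion
-/

namespace Pool.Agent.Q230.IP

open Pool.Agent.H612 Filter Topology Finset

/-- A nonzero real polynomial is bounded away from zero for large arguments. -/
theorem poly_away (f : Polynomial ℝ) (hf : f ≠ 0) :
    ∃ m > 0, ∀ᶠ B : ℝ in atTop, m ≤ |f.eval B| := by
  by_cases hd : f.natDegree = 0
  · obtain ⟨c, hc⟩ := Polynomial.natDegree_eq_zero.1 hd
    subst hc
    have hc0 : c ≠ 0 := by
      rintro rfl
      simp at hf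
    exact ⟨|c|, abs_pos.2 hc0, Filter.Eventually.of_forall fun B => by simp⟩
  · have h1 : 0 < f.degree := by
      rw [← Polynomial.natDegree_pos_iff_degree_pos]
      omega
    have h2 : Tendsto (fun B : ℝ => |f.eval B|) atTop atTop := f.abs_tendsto_atTop h1
    exact ⟨1, one_pos, h2.eventually_ge_atTop 1⟩

/-- Growth of a real polynomial. -/
theorem poly_growth (f : Polynomial ℝ) (d : ℕ) (hd : f.natDegree ≤ d) :
    ∃ M ≥ 0, ∀ B : ℝ, 1 ≤ B → |f.eval B| ≤ M * B ^ d := by
  refine ⟨∑ i ∈ range (d + 1), |f.coeff i|, Finset.sum_nonneg fun _ _ => abs_nonneg _,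
    fun B hB => ?_⟩
  rw [Polynomial.eval_eq_sum_range' (Nat.lt_succ_of_le hd), Finset.sum_mul]
  refine (Finset.abs_sum_le_sum_abs _ _).trans (Finset.sum_le_sum fun i hi => ?_)
  rw [abs_mul, abs_of_pos (by positivity : (0:ℝ) < B ^ i)]
  rw [Finset.mem_range] at hi
  exact mul_le_mul_of_nonneg_left (pow_le_pow_right₀ hB (by omega)) (abs_nonneg _)

/-- A positive root of a polynomial with polynomial coefficients is not too small. -/
theorem root_lower_bound (χ : Polynomial (Polynomial ℝ)) (hχ : χ ≠ 0) (d : ℕ)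
    (hd : ∀ j, (χ.coeff j).natDegree ≤ d) :
    ∃ κ > 0, ∃ B0 : ℝ, 1 ≤ B0 ∧ ∀ B ≥ B0, ∀ x > 0,
      χ.eval₂ (Polynomial.evalRingHom B) x = 0 → κ ≤ B ^ d * x := by
  classical
  set k := χ.natTrailingDegree with hk
  have hck : χ.coeff k ≠ 0 := by
    have := Polynomial.trailingCoeff_nonzero_iff_nonzero.2 hχ
    exact this
  obtain ⟨m, hm, hev⟩ := poly_away (χ.coeff k) hck
  obtain ⟨B1, hB1⟩ := eventually_atTop.1 hev
  have hgr : ∀ j, ∃ M : ℝ, 0 ≤ M ∧ ∀ B : ℝ, 1 ≤ B → |(χ.coeff j).eval B| ≤ M * B ^ d := by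
    intro j
    obtain ⟨M, hM, h⟩ := poly_growth (χ.coeff j) d (hd j)
    exact ⟨M, hM, h⟩
  choose M hM0 hM using hgr
  set MM : ℝ := ∑ j ∈ range (χ.natDegree + 1), M j with hMM
  have hMM0 : 0 ≤ MM := Finset.sum_nonneg fun _ _ => hM0 _
  refine ⟨min 1 (m / (MM + 1)), lt_min one_pos (by positivity), max 1 B1, le_max_left _ _,
    fun B hB x hx hroot => ?_⟩
  have hB1' : 1 ≤ B := (le_max_left _ _).trans hB
  have hBd : 1 ≤ B ^ d := one_le_pow₀ hB1'
  by_cases hx1 : 1 ≤ x
  · refine (min_le_left _ _).trans ?_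
    nlinarith
  · have hx1 : x < 1 := not_le.1 hx1
    refine (min_le_right _ _).trans ?_
    rw [Polynomial.eval₂_eq_sum_range] at hroot
    have hsplit : ∑ j ∈ range (χ.natDegree + 1),
        (Polynomial.evalRingHom B) (χ.coeff j) * x ^ j =
        x ^ k * ((χ.coeff k).eval B + ∑ j ∈ (range (χ.natDegree + 1)).filter (fun j => k < j),
          (χ.coeff j).eval B * x ^ (j - k)) := by
      have hkmem : k ∈ range (χ.natDegree + 1) := by
        rw [Finset.mem_range]
        exact Nat.lt_succ_of_le (Polynomial.le_natDegree_of_ne_zero hck)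
      rw [mul_add, Finset.mul_sum]
      rw [← Finset.sum_filter_add_sum_filter_not (range (χ.natDegree + 1)) (fun j => k < j),
        add_comm]
      congr 1
      · have : (range (χ.natDegree + 1)).filter (fun j => ¬ k < j) =
            insert k ((range (χ.natDegree + 1)).filter (fun j => j < k)) := by
          ext j
          simp only [Finset.mem_filter, Finset.mem_insert, Finset.mem_range, not_lt]
          have := Finset.mem_range.1 hkmem
          omega
        rw [this, Finset.sum_insert (by simp)]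
        rw [Finset.sum_eq_zero, add_zero]
        · simp [mul_comm]
        · intro j hj
          rw [Finset.mem_filter] at hj
          have : χ.coeff j = 0 := Polynomial.coeff_eq_zero_of_lt_natTrailingDegree hj.2
          simp [this]
      · refine Finset.sum_congr rfl fun j hj => ?_
        rw [Finset.mem_filter] at hj
        rw [Polynomial.coe_evalRingHom]
        have : x ^ j = x ^ k * x ^ (j - k) := by
          rw [← pow_add]
          congr 1
          omega
        rw [this]
        ring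
    rw [hsplit] at hroot
    have h0 : (χ.coeff k).eval B + ∑ j ∈ (range (χ.natDegree + 1)).filter (fun j => k < j),
          (χ.coeff j).eval B * x ^ (j - k) = 0 := by
      rcases mul_eq_zero.1 hroot with h | h
      · exact absurd h (pow_pos hx k).ne'
      · exact h
    have h1 : m ≤ |(χ.coeff k).eval B| := hB1 B ((le_max_right _ _).trans hB)
    have h2 : |(χ.coeff k).eval B| ≤ MM * B ^ d * x := by
      have : (χ.coeff k).eval B = - ∑ j ∈ (range (χ.natDegree + 1)).filter (fun j => k < j),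
          (χ.coeff j).eval B * x ^ (j - k) := by linarith
      rw [this, abs_neg]
      refine (Finset.abs_sum_le_sum_abs _ _).trans ?_
      calc ∑ j ∈ (range (χ.natDegree + 1)).filter (fun j => k < j),
            |(χ.coeff j).eval B * x ^ (j - k)|
          ≤ ∑ j ∈ (range (χ.natDegree + 1)).filter (fun j => k < j), M j * B ^ d * x := by
            refine Finset.sum_le_sum fun j hj => ?_
            rw [Finset.mem_filter] at hj
            rw [abs_mul, abs_of_pos (pow_pos hx (j - k))]
            have e1 : x ^ (j - k) ≤ x := by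
              calc x ^ (j - k) ≤ x ^ 1 := pow_le_pow_of_le_one hx.le hx1.le (by omega)
                _ = x := pow_one x
            exact mul_le_mul (hM j B hB1') e1 (pow_pos hx _).le
              (mul_nonneg (hM0 j) (by positivity))
        _ ≤ ∑ j ∈ range (χ.natDegree + 1), M j * B ^ d * x :=
            Finset.sum_le_sum_of_subset_of_nonneg (Finset.filter_subset _ _)
              fun j _ _ => mul_nonneg (mul_nonneg (hM0 j) (by positivity)) hx.le
        _ = MM * B ^ d * x := by rw [hMM, Finset.sum_mul, Finset.sum_mul]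
    rw [div_le_iff₀ (by positivity)]
    have h3 : 0 ≤ B ^ d * x := by positivity
    nlinarith

theorem loj : S_loj := by
  classical
  intro N p hp hpos
  have hpc : Continuous (fun z : Fin N → ℝ => MvPolynomial.eval z p) :=
    eval₂_cont (RingHom.id ℝ) p
  obtain ⟨χ, hχ, hdeg, hrel⟩ := sphere_relation p hp
  obtain ⟨κ1, hκ1, B0, hB0, hlow⟩ := root_lower_bound χ hχ (NE N) hdeg
  -- the ball
  have hcomp : IsCompact {z : Fin N → ℝ | 1 + ∑ i, z i ^ 2 ≤ B0} := by
    have hcl : IsClosed {z : Fin N → ℝ | 1 + ∑ i, z i ^ 2 ≤ B0} :=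
      isClosed_le (by fun_prop) continuous_const
    refine (isCompact_closedBall (0 : Fin N → ℝ) B0).of_isClosed_subset hcl fun z hz => ?_
    rw [mem_closedBall_zero_iff, pi_norm_le_iff_of_nonneg (by linarith)]
    intro i
    have h1 : z i ^ 2 ≤ ∑ i, z i ^ 2 :=
      Finset.single_le_sum (f := fun i => z i ^ 2) (fun _ _ => sq_nonneg _) (mem_univ i)
    have h2 : 1 + ∑ i, z i ^ 2 ≤ B0 := hz
    rw [Real.norm_eq_abs]
    have h3 : |z i| ^ 2 ≤ B0 := by rw [sq_abs]; linarith
    nlinarith [abs_nonneg (z i)]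
  have hne : {z : Fin N → ℝ | 1 + ∑ i, z i ^ 2 ≤ B0}.Nonempty := ⟨0, by simpa using hB0⟩
  obtain ⟨z0, hz0, hmin0⟩ := hcomp.exists_isMinOn hne hpc.continuousOn
  refine ⟨min (κ1 / 6) (MvPolynomial.eval z0 p), lt_min (by positivity) (hpos z0), fun v => ?_⟩
  have hw1 : 1 ≤ 1 + ∑ i, v i ^ 2 := by
    have : 0 ≤ ∑ i, v i ^ 2 := Finset.sum_nonneg fun _ _ => sq_nonneg _
    linarith
  have hwN : 1 ≤ (1 + ∑ i, v i ^ 2) ^ NE N := one_le_pow₀ hw1
  by_cases hv : 1 + ∑ i, v i ^ 2 ≤ B0
  · refine (min_le_right _ _).trans ?_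
    have h1 : MvPolynomial.eval z0 p ≤ MvPolynomial.eval v p := hmin0 hv
    have h2 := hpos v
    nlinarith
  · refine (min_le_left _ _).trans ?_
    have hv : B0 ≤ 1 + ∑ i, v i ^ 2 := (not_le.1 hv).le
    set B := 1 + ∑ i, v i ^ 2 with hB
    have hne' : {z : Fin N → ℝ | 1 + ∑ i, z i ^ 2 = B}.Nonempty := ⟨v, rfl⟩
    have hcomp' : IsCompact {z : Fin N → ℝ | 1 + ∑ i, z i ^ 2 = B} := by
      have hcl : IsClosed {z : Fin N → ℝ | 1 + ∑ i, z i ^ 2 = B} :=
        isClosed_eq (by fun_prop) continuous_const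
      refine (isCompact_closedBall (0 : Fin N → ℝ) B).of_isClosed_subset hcl fun z hz => ?_
      rw [mem_closedBall_zero_iff, pi_norm_le_iff_of_nonneg (by linarith)]
      intro i
      have h1 : z i ^ 2 ≤ ∑ i, z i ^ 2 :=
        Finset.single_le_sum (f := fun i => z i ^ 2) (fun _ _ => sq_nonneg _) (mem_univ i)
      have h2 : 1 + ∑ i, z i ^ 2 = B := hz
      rw [Real.norm_eq_abs]
      have h3 : |z i| ^ 2 ≤ B := by rw [sq_abs]; linarith
      nlinarith [abs_nonneg (z i)]
    obtain ⟨zB, hzB, hminB⟩ := hcomp'.exists_isMinOn hne' hpc.continuousOn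
    have hglb : IsGLB ((fun z => MvPolynomial.eval z p) ''
        {z : Fin N → ℝ | 1 + ∑ i, z i ^ 2 = B}) (MvPolynomial.eval zB p) := by
      refine ⟨?_, fun b hb => hb ⟨zB, hzB, rfl⟩⟩
      rintro _ ⟨z, hz, rfl⟩
      exact hminB hz
    have hroot := hrel B _ hne' hglb
    have hlb := hlow B hv (6 * MvPolynomial.eval zB p) (by have := hpos zB; positivity) hroot
    have hvm : v ∈ {z : Fin N → ℝ | 1 + ∑ i, z i ^ 2 = B} := hB.symm
    have hv2 : MvPolynomial.eval zB p ≤ MvPolynomial.eval v p := hminB hvm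
    have : B ^ NE N * MvPolynomial.eval zB p ≤ B ^ NE N * MvPolynomial.eval v p :=
      mul_le_mul_of_nonneg_left hv2 (by linarith)
    nlinarith

end Pool.Agent.Q230.IP
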