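import Pool.Agent.Q102.IP.Pll
import Pool.Agent.H687R2.IntPoly

/-!
# Project IP, jobs PPW, PNM, PQF: the formula is computable in polynomial time
-/

namespace Pool.Agent.NPC.Q230IP

open Pool.Agent.NPC Pool.Agent.NPC.ER Pool.Agent.NPC.H612 Pool.Agent.Q230.IP
open Pool.Agent.NPC.Q102IP

/-- **Job PPW.** -/
theorem ppw : S_ppw := fun _ _ _ _ ht hk => Poly.npow ht hk

variable {α β γ : Type} [TEnc α] [TEnc β] [TEnc γ]

theorem u_LL {n T : α → ℕ} (hn : UPoly n) (hT : UPoly T) : UPoly fun a => LL (n a) (T a) := by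
  unfold LL
  exact UPoly.add (UPoly.const 3) (UPoly.add hn (UPoly.add
    (UPoly.mul hT (UPoly.add (UPoly.mul (UPoly.const 2) hn) (UPoly.const 2)))
    (UPoly.mul hT (UPoly.mul hn (UPoly.add hn (UPoly.const 1))))))

theorem u_bd {n T : α → ℕ} (hn : UPoly n) (hT : UPoly T) :
    UPoly fun a => 1 + n a + T a * (2 * n a + 7) :=
  UPoly.add (UPoly.add (UPoly.const 1) hn)
    (UPoly.mul hT (UPoly.add (UPoly.mul (UPoly.const 2) hn) (UPoly.const 7)))

/-- A piece of the list of the names. -/
theorem piece {m : α → ℕ} (hm : UPoly m) (c : ℕ) :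
    Poly fun a => (List.range (m a)).map fun j => 8 * j + c :=
  Poly.map (F := fun (_ : α) (j : ℕ) => 8 * j + c) hm.range (e8 last c)

theorem p_names {n T La : α → ℕ} (hn : UPoly n) (hT : UPoly T) (hLa : UPoly La) :
    Poly fun a => names (n a) (T a) (La a) := by
  unfold names
  refine Poly.append ?_ (Poly.append ?_ (Poly.append ?_ (Poly.append ?_ (Poly.append ?_
    (Poly.append ?_ (Poly.append ?_ ?_))))))
  · exact piece hLa 0
  · exact piece (u_LL hn hT) 1
  · exact piece hn 2
  · exact piece (UPoly.mul (UPoly.add hn (UPoly.const 1)) hn) 3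
  · exact piece (UPoly.mul (UPoly.mul (UPoly.add hn (UPoly.const 1)) hT)
      (UPoly.add (UPoly.mul (UPoly.const 2) hn) (UPoly.const 7))) 4
  · exact piece (UPoly.add hn (UPoly.const 1)) 5
  · exact piece (u_bd hn hT) 6
  · exact Poly.const _

theorem p_ren {W : α → List ℕ} {p : α → PolyData} (hW : Poly W) (hp : Poly p) :
    Poly fun a => ren (W a) (p a) := by
  unfold ren
  refine Poly.map (F := fun (a : α) (x : ℤ × List ℕ) => (x.1, x.2.map fun i => (W a).idxOf i))
    hp (Poly.pair (Poly.fst last) ?_)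
  exact Poly.map (F := fun (y : α × (ℤ × List ℕ)) (i : ℕ) => (W y.1).idxOf i) (Poly.snd last)
    (poly_idxOf (lift (lift hW)) last)

theorem p_eqW {W : α → List ℕ} {p : α → PolyData} (hW : Poly W) (hp : Poly p) :
    Poly fun a => eqW (W a) (p a) := poly_eqZ (p_ren hW hp)

/-- **Job PNM.** -/
theorem pnm : S_pnm := fun _ _ _ _ _ _ _ hn hT hLa hW hp =>
  ⟨p_names hn hT hLa, p_ren hW hp, p_eqW hW hp⟩

theorem poly_qand {a b : α → QF} (ha : Poly a) (hb : Poly b) :
    Poly (fun x => QF.and (a x) (b x)) :=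
  poly_qf_of_toks (Poly.append (Poly.append (poly_qtoks ha) (poly_qtoks hb)) (Poly.const _))

theorem p_qor {l : α → List QF} (hl : Poly l) : Poly fun a => qor (l a) := by
  unfold qor
  exact poly_qnot (poly_qall (Poly.map (F := fun (_ : α) (φ : QF) => QF.not φ) hl
    (poly_qnot last)))

theorem p_chainQ {W : α → List ℕ} {n T La p g : α → ℕ} (hW : Poly W) (hn : UPoly n)
    (hT : UPoly T) (hLa : UPoly La) (hp : Poly p) (hg : Poly g) :
    Poly fun a => chainQ (W a) (n a) (T a) (La a) (p a) (g a) := by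
  unfold chainQ
  refine Poly.cons (p_eqW hW (Poly.const _)) (Poly.append ?_ ?_)
  · refine Poly.map (F := fun (a : α) (j : ℕ) =>
      eqW (W a) [(1, [8 * (j + 1)]), (-1, [8 * j, 8 * j])])
      (UPoly.of_le (Poly.sub hLa.toPoly (Poly.const 1)) hLa (fun _ => Nat.sub_le _ _)).range ?_
    have h1 : Poly (fun q : α × ℕ => 8 * (q.2 + 1)) :=
      Poly.mul (Poly.const 8) (Poly.add last (Poly.const 1))
    have h2 : Poly (fun q : α × ℕ => 8 * q.2) := Poly.mul (Poly.const 8) last
    exact p_eqW (lift hW) (p_two (Poly.const _) (l1 h1) (Poly.const _) (l2 h2 h2))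
  · refine Poly.map (F := fun (a : α) (j : ℕ) =>
      if j = 1 then eqW (W a) [(1, [8 * j + 1]), (-1, [8 * (p a + g a * j)])]
      else eqW (W a) [(1, [8 * j + 1, 8 * (p a + g a * j)]), (-1, [])]) (u_LL hn hT).range ?_
    have h1 : Poly (fun q : α × ℕ => 8 * q.2 + 1) := e8 last 1
    have h2 : Poly (fun q : α × ℕ => 8 * (p q.1 + g q.1 * q.2)) :=
      Poly.mul (Poly.const 8) (Poly.add (lift hp) (Poly.mul (lift hg) last))
    exact Poly.ite (Poly.decide_eq last (Poly.const 1))
      (p_eqW (lift hW) (p_two (Poly.const _) (l1 h1) (Poly.const _) (l1 h2)))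
      (p_eqW (lift hW) (p_two (Poly.const _) (l2 h1 h2) (Poly.const _) (Poly.const _)))

theorem p_powQ (h : Bool) {W : α → List ℕ} {n T cv cu : α → ℕ} (hW : Poly W) (hn : UPoly n)
    (hT : UPoly T) (hcv : Poly cv) (hcu : Poly cu) :
    Poly fun a => powQ (W a) (n a) (T a) h (cv a) (cu a) := by
  unfold powQ
  refine Poly.flatMap (F := fun (a : α) (t : ℕ) =>
    (eqW (W a) [((1 : ℤ), [nu (n a) (cu a) t 0]), (-1, sL h 1)]) ::
    ((List.range (2 * n a + 6)).map fun j =>
      eqW (W a) (((1 : ℤ), nu (n a) (cu a) t (j + 1) :: sL h 1) ::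
        (List.range (n a)).map fun l => (-((t ^ min l (n a) : ℕ) : ℤ), [nu (n a) (cu a) t j,
          cv a + 8 * l])))) hT.range ?_
  refine Poly.cons ?_ ?_
  · exact p_eqW (lift hW) (p_two (Poly.const _) (l1 (p_nu (lift hn.toPoly) (lift hcu) last
      (Poly.const 0))) (Poly.const _) (Poly.const _))
  · have hr : UPoly (fun p : α × ℕ => 2 * n p.1 + 6) :=
      UPoly.add (UPoly.mul (UPoly.const 2) (ulift hn)) (UPoly.const 6)
    refine Poly.map (F := fun (y : α × ℕ) (j : ℕ) =>
      eqW (W y.1) (((1 : ℤ), nu (n y.1) (cu y.1) y.2 (j + 1) :: sL h 1) ::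
        (List.range (n y.1)).map fun l => (-((y.2 ^ min l (n y.1) : ℕ) : ℤ),
          [nu (n y.1) (cu y.1) y.2 j, cv y.1 + 8 * l]))) hr.range ?_
    have a1 : Poly (fun p : (α × ℕ) × ℕ => n p.1.1) := lift (lift hn.toPoly)
    have a2 : Poly (fun p : (α × ℕ) × ℕ => cu p.1.1) := lift (lift hcu)
    have a3 : Poly (fun p : (α × ℕ) × ℕ => p.1.2) := lift last
    refine p_eqW (lift (lift hW)) (Poly.cons (Poly.pair (Poly.const _) (Poly.cons
      (p_nu a1 a2 a3 (Poly.add last (Poly.const 1))) (Poly.const _))) ?_)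
    refine Poly.map (F := fun (z : (α × ℕ) × ℕ) (l : ℕ) =>
      (-((z.1.2 ^ min l (n z.1.1) : ℕ) : ℤ), [nu (n z.1.1) (cu z.1.1) z.1.2 z.2,
        cv z.1.1 + 8 * l])) (ulift (ulift hn)).range ?_
    refine Poly.pair (int_neg (int_cast (p_pow ppw (ulift (ulift (ulift hn))) last (lift a3))))
      (l2 (p_nu (lift a1) (lift a2) (lift a3) (lift last)) (c8 (lift (lift (lift hcv))) last))

theorem p_bV {n i : α → ℕ} (hn : Poly n) (hi : Poly i) : Poly fun a => bV (n a) (i a) := by
  unfold bV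
  exact e8 (Poly.mul hi hn) 3

theorem p_bU {n T i : α → ℕ} (hn : Poly n) (hT : Poly T) (hi : Poly i) :
    Poly fun a => bU (n a) (T a) (i a) := by
  unfold bU
  exact e8 (Poly.mul (Poly.mul hi hT) (Poly.add (Poly.mul (Poly.const 2) hn) (Poly.const 7))) 4

theorem p_kktQ {W : α → List ℕ} {n T o r t : α → ℕ} {el : α → List ℕ} {gs : α → List PolyData}
    (hW : Poly W) (hn : UPoly n) (hT : UPoly T) (hel : Poly el) (hgs : Poly gs) (ho : Poly o)
    (hr : UPoly r) (ht : Poly t) :
    Poly fun a => kktQ (W a) (n a) (T a) (el a) (gs a) (o a) (r a) (t a) := by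
  unfold kktQ
  have hn' := hn.toPoly
  have hT' := hT.toPoly
  have hr1 : UPoly (fun a => r a + 1) := UPoly.add hr (UPoly.const 1)
  have b1 : Poly (fun p : α × ℕ => bV (n p.1) p.2) := p_bV (lift hn') last
  have b2 : Poly (fun p : α × ℕ => bU (n p.1) (T p.1) p.2) := p_bU (lift hn') (lift hT') last
  refine Poly.append ?_ (Poly.append ?_ (Poly.cons ?_ (Poly.append ?_ (Poly.append ?_ ?_))))
  · refine Poly.map (F := fun (a : α) (i : ℕ) =>
      eqW (W a) (FL (n a) (T a) (el a) (gs a) (o a) false (bV (n a) i) (bU (n a) (T a) i) ++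
        [(-1, [7])])) hr1.range ?_
    exact p_eqW (lift hW) (Poly.append (p_FL false (ulift hn) (ulift hT) (lift hel) (lift hgs)
      (lift ho) b1 b2) (Poly.const _))
  · refine Poly.flatMap (F := fun (a : α) (i : ℕ) => (List.range (n a)).map fun l =>
      eqW (W a) (dvL (n a) (T a) (el a) (gs a) (o a) (bV (n a) i) (bU (n a) (T a) i) l))
      hr1.range ?_
    refine Poly.map (F := fun (y : α × ℕ) (l : ℕ) =>
      eqW (W y.1) (dvL (n y.1) (T y.1) (el y.1) (gs y.1) (o y.1) (bV (n y.1) y.2)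
        (bU (n y.1) (T y.1) y.2) l)) (ulift hn).range ?_
    exact p_eqW (lift (lift hW)) (p_dvL ppw (ulift (ulift hn)) (ulift (ulift hT))
      (lift (lift hel)) (lift (lift hgs)) (lift (lift ho)) (lift b1) (lift b2) last)
  · refine p_eqW hW (Poly.append (Poly.map (F := fun (_ : α) (i : ℕ) => ((1 : ℤ), [8 * i + 5]))
      hr1.range ?_) (Poly.const _))
    exact Poly.pair (Poly.const _) (l1 (e8 last 5))
  · refine Poly.map (F := fun (a : α) (l : ℕ) => eqW (W a) ((List.range (r a + 1)).flatMap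
      fun i => mulL [(1, [8 * i + 5])] (dxL (el a) (o a) (bV (n a) i) l))) hn.range ?_
    refine p_eqW (lift hW) (Poly.flatMap (F := fun (y : α × ℕ) (i : ℕ) =>
      mulL [(1, [8 * i + 5])] (dxL (el y.1) (o y.1) (bV (n y.1) i) y.2)) (ulift hr1).range ?_)
    exact p_mulL (p_one (Poly.const _) (l1 (e8 last 5))) (p_dxL (lift (lift hel))
      (lift (lift ho)) (p_bV (lift (lift hn')) last) (lift last))
  · refine Poly.congr (f := fun a => (List.range (r a + 1)).flatMap fun i =>
      (List.range (min i (r a + 1))).map fun i' =>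
      QF.not (eqW (W a) [(1, [nu (n a) (bU (n a) (T a) i) (t a) 1]),
        (-1, [nu (n a) (bU (n a) (T a) i') (t a) 1])])) ?_ fun a => ?_
    · refine Poly.flatMap (F := fun (a : α) (i : ℕ) =>
        (List.range (min i (r a + 1))).map fun i' =>
        QF.not (eqW (W a) [(1, [nu (n a) (bU (n a) (T a) i) (t a) 1]),
          (-1, [nu (n a) (bU (n a) (T a) i') (t a) 1])])) hr1.range ?_
      have hm : UPoly (fun p : α × ℕ => min p.2 (r p.1 + 1)) :=
        UPoly.of_le (Poly.min last (ulift hr1).toPoly) (ulift hr1) (fun _ => min_le_right _ _)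
      refine Poly.map (F := fun (y : α × ℕ) (i' : ℕ) =>
        QF.not (eqW (W y.1) [(1, [nu (n y.1) (bU (n y.1) (T y.1) y.2) (t y.1) 1]),
          (-1, [nu (n y.1) (bU (n y.1) (T y.1) i') (t y.1) 1])])) hm.range ?_
      refine poly_qnot (p_eqW (lift (lift hW)) (p_two (Poly.const _) (l1 ?_) (Poly.const _)
        (l1 ?_)))
      · exact p_nu (lift (lift hn')) (lift b2) (lift (lift ht)) (Poly.const 1)
      · exact p_nu (lift (lift hn')) (p_bU (lift (lift hn')) (lift (lift hT')) last)
          (lift (lift ht)) (Poly.const 1)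
    · refine List.flatMap_congr fun i hi => ?_
      rw [List.mem_range] at hi
      rw [min_eq_left hi.le]
  · have hm : UPoly (fun a => n a - r a) :=
      UPoly.of_le (Poly.sub hn' hr.toPoly) hn (fun _ => Nat.sub_le _ _)
    refine Poly.flatMap (F := fun (a : α) (k : ℕ) =>
      (eqW (W a) [(1, [8 * (r a + 1 + k) + 5])]) ::
      (List.range (n a)).map fun l => eqW (W a) [(1, [bV (n a) (r a + 1 + k) + 8 * l])])
      hm.range ?_
    have h1 : Poly (fun p : α × ℕ => r p.1 + 1 + p.2) :=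
      Poly.add (lift hr1.toPoly) last
    refine Poly.cons (p_eqW (lift hW) (p_one (Poly.const _) (l1 (e8 h1 5)))) ?_
    refine Poly.map (F := fun (y : α × ℕ) (l : ℕ) =>
      eqW (W y.1) [(1, [bV (n y.1) (r y.1 + 1 + y.2) + 8 * l])]) (ulift hn).range ?_
    exact p_eqW (lift (lift hW)) (p_one (Poly.const _) (l1 (c8
      (p_bV (lift (lift hn')) (lift h1)) last)))

theorem p_mainQ {W : α → List ℕ} {n T La p g o : α → ℕ} {el : α → List ℕ}
    {gs : α → List PolyData} (hW : Poly W) (hn : UPoly n) (hT : UPoly T) (hLa : UPoly La)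
    (hp : Poly p) (hg : Poly g) (hel : Poly el) (hgs : Poly gs) (ho : Poly o) :
    Poly fun a => mainQ (W a) (n a) (T a) (La a) (p a) (g a) (el a) (gs a) (o a) := by
  unfold mainQ
  have hn' := hn.toPoly
  have hT' := hT.toPoly
  have hn1 : UPoly (fun a => n a + 1) := UPoly.add hn (UPoly.const 1)
  refine poly_qand (poly_qall (Poly.append (p_chainQ hW hn hT hLa hp hg) ?_)) (p_qor ?_)
  · refine Poly.flatMap (F := fun (a : α) (i : ℕ) =>
      powQ (W a) (n a) (T a) false (bV (n a) i) (bU (n a) (T a) i)) hn1.range ?_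
    exact p_powQ false (lift hW) (ulift hn) (ulift hT) (p_bV (lift hn') last)
      (p_bU (lift hn') (lift hT') last)
  · refine Poly.congr (f := fun a => (List.range (n a + 1)).flatMap fun r =>
      (List.range (T a)).map fun t =>
        qall (kktQ (W a) (n a) (T a) (el a) (gs a) (o a) (min r (n a)) t)) ?_ fun a => ?_
    · refine Poly.flatMap (F := fun (a : α) (r : ℕ) => (List.range (T a)).map fun t =>
        qall (kktQ (W a) (n a) (T a) (el a) (gs a) (o a) (min r (n a)) t)) hn1.range ?_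
      refine Poly.map (F := fun (y : α × ℕ) (t : ℕ) =>
        qall (kktQ (W y.1) (n y.1) (T y.1) (el y.1) (gs y.1) (o y.1) (min y.2 (n y.1)) t))
        (ulift hT).range ?_
      have hm : UPoly (fun p : α × ℕ => min p.2 (n p.1)) :=
        UPoly.of_le (Poly.min last (lift hn')) (ulift hn) (fun _ => min_le_right _ _)
      exact poly_qall (p_kktQ (lift (lift hW)) (ulift (ulift hn)) (ulift (ulift hT))
        (lift (lift hel)) (lift (lift hgs)) (lift (lift ho)) (ulift hm) last)
    · refine List.flatMap_congr fun i hi => ?_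
      rw [List.mem_range] at hi
      rw [min_eq_left (by omega)]

theorem p_zeroQ {W : α → List ℕ} {n T : α → ℕ} (hW : Poly W) (hn : UPoly n) (hT : UPoly T) :
    Poly fun a => zeroQ (W a) (n a) (T a) := by
  unfold zeroQ
  refine poly_qall (Poly.map (F := fun (a : α) (j : ℕ) => eqW (W a) [(1, [8 * j + 6])])
    (u_bd hn hT).range ?_)
  exact p_eqW (lift hW) (p_one (Poly.const _) (l1 (e8 last 6)))

theorem p_violQ {W : α → List ℕ} {n T k o : α → ℕ} {el : α → List ℕ}
    {gs : α → List PolyData} (hW : Poly W) (hn : UPoly n) (hT : UPoly T) (hk : Poly k)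
    (hel : Poly el) (hgs : Poly gs) (ho : Poly o) :
    Poly fun a => violQ (W a) (n a) (T a) (k a) (el a) (gs a) (o a) := by
  unfold violQ
  have hb : Poly (fun a => bUt (n a)) := by
    unfold bUt
    exact e8 (Poly.add (Poly.const 1) hn.toPoly) 6
  refine poly_qall (Poly.cons (poly_gtZ (p_ren hW (Poly.const _))) (Poly.cons
    (poly_gtZ (p_ren hW (Poly.cons (Poly.pair (Poly.const _) (Poly.cons
      (Poly.mul (Poly.const 8) hk) (Poly.const _))) (p_negL ?_)))) ?_))
  · exact p_FL true hn hT hel hgs ho (Poly.const _) hb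
  · exact p_powQ true hW hn hT (Poly.const _) hb

/-- **Job PQF.** -/
theorem pqf : S_pqf := by
  intro α _ n T La p g k o W el gs hn hT hLa hp hg hk ho hW hel hgs
  unfold isoQ
  exact poly_qand (p_mainQ hW hn hT hLa hp hg hel hgs ho)
    (poly_qor (p_zeroQ hW hn hT) (p_violQ hW hn hT hk hel hgs ho))

end Pool.Agent.NPC.Q230IP
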