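import Pool.Agent.Q230.IP.St2

/-!
# Project IP: correctness of the reduction
-/

namespace Pool.Agent.Q230.IP

open Pool.Agent.NPC Pool.Agent.NPC.ER Pool.Agent.NPC.H612

theorem good_inst (E : List ℕ) (S : List Con) :
    Good (nn (varsOf S).length) (EL E (varsOf S))
      (gsys (varsOf S) S (varsOf S).length (QQ (varsOf S).length)) := by
  set V := varsOf S with hV
  set m := V.length with hm
  have hmn : m < nn m := by unfold nn; omega
  refine ⟨(List.nodup_range).filter _, fun l hl => ?_, fun g hg a ha => ?_⟩
  · unfold EL at hl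
    rw [List.mem_filter, List.mem_range] at hl
    exact hl.1.trans hmn
  · unfold gsys at hg
    rw [List.mem_append, List.mem_map, List.mem_cons, List.mem_map] at hg
    have hidx : ∀ c ∈ S, ∀ i ∈ c.vars, V.idxOf i < nn m := by
      intro c hc i hi
      have : i ∈ V := List.mem_flatMap.2 ⟨c, hc, hi⟩
      exact (List.idxOf_lt_length_iff.2 this).trans hmn
    rcases hg with ⟨c, hc, rfl⟩ | rfl | ⟨j, hj, rfl⟩
    · have h := hidx c hc
      cases c with
      | one i =>
        simp only [Con.vars, List.mem_cons, List.not_mem_nil, or_false, forall_eq] at h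
        simp only [cw0, List.mem_cons, List.not_mem_nil, or_false] at ha
        rcases ha with rfl | rfl
        · simpa using h
        · simp
      | add i j k =>
        simp only [Con.vars, List.mem_cons, List.not_mem_nil, or_false, forall_eq_or_imp,
          forall_eq] at h
        simp only [cw0, List.mem_cons, List.not_mem_nil, or_false] at ha
        rcases ha with rfl | rfl | rfl
        · simpa using h.1
        · simpa using h.2.1
        · simpa using h.2.2
      | mul i j k =>
        simp only [Con.vars, List.mem_cons, List.not_mem_nil, or_false, forall_eq_or_imp,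
          forall_eq] at h
        simp only [cw0, List.mem_cons, List.not_mem_nil, or_false] at ha
        rcases ha with rfl | rfl
        · simpa using ⟨h.1, h.2.1⟩
        · simpa using h.2.2
    · rw [List.mem_append, List.mem_map] at ha
      rcases ha with ha | ⟨l, hl, rfl⟩
      · simp only [List.mem_cons, List.not_mem_nil, or_false] at ha
        rcases ha with rfl | rfl
        · simpa using hmn
        · simp
      · rw [List.mem_range] at hl
        simp only [List.length_cons, List.length_nil, Nat.reduceAdd, le_refl, List.mem_cons,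
          List.not_mem_nil, or_false, or_self, forall_eq, true_and]
        omega
    · rw [List.mem_range] at hj
      simp only [List.mem_cons, List.not_mem_nil, or_false] at ha
      have h1 : m + j + 1 < nn m := by unfold nn; omega
      rcases ha with rfl | rfl
      · simpa using h1
      · simp only [List.length_cons, List.length_nil, Nat.reduceAdd, le_refl, List.mem_cons,
          List.not_mem_nil, or_false, or_self, forall_eq, true_and]
        omega

theorem ss_eq (n w : ℕ) : (fun k => zz (p0 n w + gg n * k)) = ss n w := rfl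

theorem zz_k0 (n : ℕ) : zz (k0 n) = ((2 ^ 2 ^ k0 n : ℕ) : ℝ) := by
  unfold zz
  push_cast
  rfl

theorem red (h1 : S_sem) (h2 : S_fin) (h3 : S_inst) (h4 : S_num) (h5 : S_iso) : S_red := by
  rintro ⟨E, φ⟩
  set S := sysOf (Fm.not φ) with hS
  set V := varsOf S with hV
  set m := V.length with hm
  set n := nn m with hn
  set w := ww S with hw
  obtain ⟨i1, i2, i3, i4, i5⟩ := h3 E φ
  simp only [← hS] at i1 i2 i3 i4 i5
  have hn1 : 1 ≤ n := by rw [hn]; unfold nn; omega
  have hC1 : 1 ≤ 2 ^ w := Nat.one_le_two_pow
  obtain ⟨n1, n2, n3, n4⟩ := h4 n w (2 ^ w) hn1 hC1 (le_refl _)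
  have hfin := fun (r : ℕ) (hr : r ≤ n) t => h2 n (datS E S) (2 ^ w) (2 ^ dl n) (2 ^ 2 ^ k0 n) (2 ^ gg n) hn1 hC1
    i4 i5 n1 n3 (ss n w) n4 r hr t
  have hsem := h1 n (datS E S) (2 ^ w) (2 ^ dl n) (2 ^ 2 ^ k0 n) (2 ^ gg n) hn1 hC1 i4 i5 i3
    n1 n2 n3 (ss n w) n4
  have hiso := h5 n (TT n) (La n w) (p0 n w) (gg n) (k0 n) (EL E V)
    (gsys V S m (QQ m)) ⟨m + QQ m, by rw [hn]; unfold nn; omega⟩
    (by unfold La; omega) (fun j hj => by
      have : gg n * j ≤ gg n * LL n (TT n) := Nat.mul_le_mul_left _ hj.le
      unfold La; omega) (by unfold La; omega) (good_inst E S) (by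
        intro r hr t
        exact hfin r hr t)
  have hinst : IsoPoint (instI (E, φ)) ↔
      HasIso (gallery (names n (TT n) (La n w)).length
        (isoQ (names n (TT n) (La n w)) n (TT n) (La n w) (p0 n w) (gg n) (k0 n) (EL E V)
          (gsys V S m (QQ m)) (m + QQ m))) := by
    unfold IsoPoint instI instQ
    simp only [← hS, ← hV, ← hm, ← hn, ← hw]
    have : ∀ (d d' : ℕ) (ψ : QF), d = d' → (HasIso (gallery d ψ) ↔ HasIso (gallery d' ψ)) := by
      rintro d d' ψ rfl; rfl
    exact this _ _ _ List.length_replicate
  rw [hinst, hiso]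
  have hdat : mkDat n (EL E V) ⟨m + QQ m, by rw [hn]; unfold nn; omega⟩ (gsys V S m (QQ m)) =
      datS E S := rfl
  rw [hdat, ss_eq, zz_k0]
  constructor
  · intro he
    exact hsem.1 (i1 he)
  · intro hx
    by_contra he
    obtain ⟨r, _, t, x, v, lam, Vv, _, hall⟩ := hx
    obtain ⟨w', hw'⟩ := hsem.2 (i2 he) x
    exact absurd (hall w') (not_le.2 hw')

end Pool.Agent.Q230.IP
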