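import Pool.Agent.Q230.IP.Kkt

/-!
# Project IP: the sentence and the systems
-/

namespace Pool.Agent.Q230.IP

/-- Existence of hierarchical sequences with lower bounds chosen step by step. -/
theorem exists_hier (H : ℝ) (e : ℕ) (s0 : ℝ) (f1 : ℝ → ℝ) (f2 : ℝ → ℝ → ℝ)
    (f3 : ℝ → ℝ → ℝ → ℝ) :
    ∃ s : ℕ → ℝ, Hier H e s ∧ s0 ≤ s 0 ∧ f1 (s 0) ≤ s 1 ∧ f2 (s 0) (s 1) ≤ s 2 ∧
      ∀ i, 3 ≤ i → f3 (s 0) (s 1) (s 2) ≤ s i := by
  let a0 : ℝ := max 1 (max (H + 1) s0)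
  let a1 : ℝ := max (a0 ^ e) (f1 a0)
  let a2 : ℝ := max (a1 ^ e) (f2 a0 a1)
  let b : ℕ → ℝ := fun k => Nat.rec (max (a2 ^ e) (f3 a0 a1 a2))
    (fun _ y => max (y ^ e) (f3 a0 a1 a2)) k
  let s : ℕ → ℝ := fun i => match i with
    | 0 => a0
    | 1 => a1
    | 2 => a2
    | k + 3 => b k
  refine ⟨s, ⟨le_max_left _ _, ?_, ?_⟩, ?_, le_max_right _ _, le_max_right _ _, ?_⟩
  · exact lt_of_lt_of_le (by linarith : H < H + 1) ((le_max_left _ _).trans (le_max_right _ _))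
  · intro i
    match i with
    | 0 => exact le_max_left _ _
    | 1 => exact le_max_left _ _
    | 2 => exact le_max_left _ _
    | k + 3 => exact le_max_left _ _
  · exact (le_max_right _ _).trans (le_max_right _ _)
  · intro i hi
    match i, hi with
    | 0, h => omega
    | 1, h => omega
    | 2, h => omega
    | 3, _ => exact le_max_right _ _
    | k + 4, _ => exact le_max_right _ _

theorem Hier.one_le {H : ℝ} {e : ℕ} {s : ℕ → ℝ} (h : Hier H e s) (i : ℕ) : 1 ≤ s i := by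
  induction i with
  | zero => exact h.1
  | succ i ih => exact (one_le_pow₀ ih).trans (h.2.2 i)

theorem adm_pv {n T : ℕ} {H : ℝ} {e : ℕ} {s : ℕ → ℝ} (h : Hier H e s) :
    Adm (pv s : Par n T → ℝ) := by
  have h0 := h.one_le 0
  have h1 := h.one_le 1
  have h2 := h.one_le 2
  refine ⟨?_, ?_, ?_⟩
  · simp only [pv, pos]
    rw [if_neg (by simp)]
    simp only [Fin.val_zero]
    positivity
  · simp only [pv, pos, if_true]
    simp only [Fin.val_one]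
    linarith
  · simp only [pv, pos]
    rw [if_neg (by simp)]
    have : ((2 : Fin 3) : ℕ) = 2 := rfl
    rw [this]
    positivity

theorem three_le_pos {n T : ℕ} (i : PI n T) : 3 ≤ pos n T (Sum.inr i) := by
  rcases i with l | ⟨t, j⟩ | ⟨t, l, j⟩ <;> simp only [pos] <;> omega

theorem sem (h1 : S_VV) (h2 : S_kkt) (h3 : S_limT) (h4 : S_limF) (h5 : S_conn) (h6 : S_thr) :
    S_sem := by
  intro n A C D K e hn hC hdeg hnrm hP hD hK he s hs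
  have hT := n_le_TT n
  obtain ⟨W, hWc, hWm, hWu⟩ := h1 n (TT n) A hn hT hP
  obtain ⟨θ0, θ1, t1, t2, t3, t4, hθ⟩ := h6 n A C D K e hn hC hdeg hnrm hD hK he
  have hne : ∀ s', Hier (AB n C D K) e s' → W (pv s') ≠ θ0 ∧ W (pv s') ≠ θ1 := by
    intro s' hs'
    obtain ⟨x, hx⟩ := hWm (pv s') (adm_pv hs')
    obtain ⟨r, hr, t, v, lam, hk⟩ := h2 n A hn hP (pv s') (adm_pv hs') x _ hx
    exact hθ s' hs' r hr t x v lam _ hk
  have c0 := h5 n (TT n) e (AB n C D K) θ0 W hWc fun s' hs' => (hne s' hs').1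
  have c1 := h5 n (TT n) e (AB n C D K) θ1 W hWc fun s' hs' => (hne s' hs').2
  refine ⟨?_, ?_⟩
  · rintro ⟨x0, κ, hκ, hx0⟩
    have hlim := h3 n (TT n) A hn hT hP x0 κ hκ hx0 (θ1 : ℝ)
    obtain ⟨ρ0, hρ0, hlim⟩ := hlim
    have hA : ∀ ρ, ∃ α0 : ℝ, (0 < ρ → ρ ≤ ρ0 → 0 ≤ α0 ∧ ∀ α ≥ α0, ∀ γ > 0, ∃ ε > 0,
        ∀ p : Par n (TT n) → ℝ, p (Sum.inl 0) = ρ →
        p (Sum.inl 1) = α → p (Sum.inl 2) = γ → (∀ i, |p (Sum.inr i)| ≤ ε) →
        ∀ x V, IsMM (A.FF p) x V → (θ1 : ℝ) < V) := by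
      intro ρ
      by_cases hρ : 0 < ρ ∧ ρ ≤ ρ0
      · obtain ⟨α0, h0, h⟩ := hlim ρ hρ.1 hρ.2
        exact ⟨α0, fun _ _ => ⟨h0, h⟩⟩
      · exact ⟨0, fun a b => absurd ⟨a, b⟩ hρ⟩
    choose fα hfα using hA
    have hE : ∀ ρ α γ, ∃ ε : ℝ, (0 < ρ → ρ ≤ ρ0 → fα ρ ≤ α → 0 < γ → 0 < ε ∧
        ∀ p : Par n (TT n) → ℝ, p (Sum.inl 0) = ρ →
        p (Sum.inl 1) = α → p (Sum.inl 2) = γ → (∀ i, |p (Sum.inr i)| ≤ ε) →
        ∀ x V, IsMM (A.FF p) x V → (θ1 : ℝ) < V) := by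
      intro ρ α γ
      by_cases hh : 0 < ρ ∧ ρ ≤ ρ0 ∧ fα ρ ≤ α ∧ 0 < γ
      · obtain ⟨ε, h0, h⟩ := (hfα ρ hh.1 hh.2.1).2 α hh.2.2.1 γ hh.2.2.2
        exact ⟨ε, fun _ _ _ _ => ⟨h0, h⟩⟩
      · exact ⟨0, fun a b c d => absurd ⟨a, b, c, d⟩ hh⟩
    choose fε hfε using hE
    obtain ⟨s', hs', g0, g1, _, g3⟩ := exists_hier (AB n C D K) e ρ0⁻¹ (fun a => fα a⁻¹)
      (fun _ _ => 0) (fun a b c => (fε a⁻¹ b c⁻¹)⁻¹)
    have p0 := hs'.one_le 0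
    have p1 := hs'.one_le 1
    have p2 := hs'.one_le 2
    have q0 : 0 < (s' 0)⁻¹ := by positivity
    have q1 : (s' 0)⁻¹ ≤ ρ0 := by
      have := inv_anti₀ (by positivity : 0 < ρ0⁻¹) g0
      rwa [inv_inv] at this
    have q2 : 0 < (s' 2)⁻¹ := by positivity
    obtain ⟨e1, e2⟩ := hfε (s' 0)⁻¹ (s' 1) (s' 2)⁻¹ q0 q1 g1 q2
    obtain ⟨x, hx⟩ := hWm (pv s') (adm_pv hs')
    have hbig : (θ1 : ℝ) < W (pv s') := by
      refine e2 (pv s') ?_ ?_ ?_ ?_ x _ hx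
      · simp only [pv, pos]
        rw [if_neg (by simp)]
        rfl
      · simp only [pv, pos, if_true]
        rfl
      · simp only [pv, pos]
        rw [if_neg (by simp)]
        rfl
      · intro i
        have h3i := three_le_pos i
        have hpv : pv s' (Sum.inr i) = (s' (pos n (TT n) (Sum.inr i)))⁻¹ := by
          unfold pv
          rw [if_neg (by simp)]
        rw [hpv]
        have hp := hs'.one_le (pos n (TT n) (Sum.inr i))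
        rw [abs_of_pos (by positivity)]
        have := inv_anti₀ (by positivity) (g3 _ h3i)
        rwa [inv_inv] at this
    have hnot : ¬ W (pv s) < θ1 := fun hlt => by
      have := (c1 s s' hs hs').1 hlt
      linarith
    have hW : (θ1 : ℝ) ≤ W (pv s) := not_lt.1 hnot
    obtain ⟨x, hx⟩ := hWm (pv s) (adm_pv hs)
    obtain ⟨r, hr, t, v, lam, hk⟩ := h2 n A hn hP (pv s) (adm_pv hs) x _ hx
    refine ⟨r, hr, t, x, v, lam, _, hk, fun w => ?_⟩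
    have hKθ : (K : ℝ) ≤ θ1 := by
      exact_mod_cast (by omega : K ≤ θ1)
    exact hKθ.trans (hW.trans (hx.1 w))
  · intro hfalse
    have hlim := h4 n (TT n) A hn hT hP hfalse
    have hA : ∀ ρ α, ∃ γ0 : ℝ, (0 < ρ → 0 ≤ α → 0 < γ0 ∧ ∀ γ, 0 < γ → γ ≤ γ0 → ∃ ε > 0,
        ∀ p : Par n (TT n) → ℝ, p (Sum.inl 0) = ρ →
        p (Sum.inl 1) = α → p (Sum.inl 2) = γ → (∀ i, |p (Sum.inr i)| ≤ ε) →
        ∀ x V, IsMM (A.FF p) x V → V < 1) := by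
      intro ρ α
      by_cases hρ : 0 < ρ ∧ 0 ≤ α
      · obtain ⟨γ0, h0, h⟩ := hlim ρ hρ.1 α hρ.2
        exact ⟨γ0, fun _ _ => ⟨h0, h⟩⟩
      · exact ⟨0, fun a b => absurd ⟨a, b⟩ hρ⟩
    choose fγ hfγ using hA
    have hE : ∀ ρ α γ, ∃ ε : ℝ, (0 < ρ → 0 ≤ α → 0 < γ → γ ≤ fγ ρ α → 0 < ε ∧
        ∀ p : Par n (TT n) → ℝ, p (Sum.inl 0) = ρ →
        p (Sum.inl 1) = α → p (Sum.inl 2) = γ → (∀ i, |p (Sum.inr i)| ≤ ε) →
        ∀ x V, IsMM (A.FF p) x V → V < 1) := by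
      intro ρ α γ
      by_cases hh : 0 < ρ ∧ 0 ≤ α ∧ 0 < γ ∧ γ ≤ fγ ρ α
      · obtain ⟨ε, h0, h⟩ := (hfγ ρ α hh.1 hh.2.1).2 γ hh.2.2.1 hh.2.2.2
        exact ⟨ε, fun _ _ _ _ => ⟨h0, h⟩⟩
      · exact ⟨0, fun a b c d => absurd ⟨a, b, c, d⟩ hh⟩
    choose fε hfε using hE
    obtain ⟨s', hs', g0, g1, g2, g3⟩ := exists_hier (AB n C D K) e 1 (fun _ => 0)
      (fun a b => (fγ a⁻¹ b)⁻¹) (fun a b c => (fε a⁻¹ b c⁻¹)⁻¹)
    have p0 := hs'.one_le 0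
    have p1 := hs'.one_le 1
    have p2 := hs'.one_le 2
    have q0 : 0 < (s' 0)⁻¹ := by positivity
    have q1 : 0 ≤ s' 1 := by linarith
    have q2 : 0 < (s' 2)⁻¹ := by positivity
    have q3 : 0 < fγ (s' 0)⁻¹ (s' 1) := (hfγ _ _ q0 q1).1
    have q4 : (s' 2)⁻¹ ≤ fγ (s' 0)⁻¹ (s' 1) := by
      have := inv_anti₀ (by positivity) g2
      rwa [inv_inv] at this
    obtain ⟨e1, e2⟩ := hfε (s' 0)⁻¹ (s' 1) (s' 2)⁻¹ q0 q1 q2 q4
    obtain ⟨x, hx⟩ := hWm (pv s') (adm_pv hs')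
    have hsmall : W (pv s') < 1 := by
      refine e2 (pv s') ?_ ?_ ?_ ?_ x _ hx
      · simp only [pv, pos]
        rw [if_neg (by simp)]
        rfl
      · simp only [pv, pos, if_true]
        rfl
      · simp only [pv, pos]
        rw [if_neg (by simp)]
        rfl
      · intro i
        have h3i := three_le_pos i
        have hpv : pv s' (Sum.inr i) = (s' (pos n (TT n) (Sum.inr i)))⁻¹ := by
          unfold pv
          rw [if_neg (by simp)]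
        rw [hpv]
        have hp := hs'.one_le (pos n (TT n) (Sum.inr i))
        rw [abs_of_pos (by positivity)]
        have := inv_anti₀ (by positivity) (g3 _ h3i)
        rwa [inv_inv] at this
    have h1θ : (1 : ℝ) ≤ θ0 := by exact_mod_cast t1
    have hW : W (pv s) < θ0 := (c0 s s' hs hs').2 (by linarith)
    intro x
    obtain ⟨x', hx'⟩ := hWm (pv s) (adm_pv hs)
    obtain ⟨w, hw⟩ := hx'.2 x
    have hKθ : (θ0 : ℝ) ≤ K := by exact_mod_cast t2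
    exact ⟨w, by linarith⟩

end Pool.Agent.Q230.IP
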