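import Pool.Agent.Q230.IP.Sem

/-!
# Project IP: interpolation, separation, connectedness, the positive limit
-/

namespace Pool.Agent.Q230.IP

open Polynomial in
/-- A polynomial of degree less than `2r+2` with `r+1` double roots is zero. -/
theorem double_roots {r : ℕ} (f : ℝ[X]) (hd : f.degree < ((2 * r + 2 : ℕ) : WithBot ℕ))
    (u : Fin (r + 1) → ℝ) (hu : Function.Injective u) (h0 : ∀ i, f.eval (u i) = 0)
    (h1 : ∀ i, f.derivative.eval (u i) = 0) : f = 0 := by
  classical
  by_contra hf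
  have h2 : ∀ i, (X - C (u i)) ^ 2 ∣ f := by
    intro i
    have h3 : 1 < f.rootMultiplicity (u i) :=
      (one_lt_rootMultiplicity_iff_isRoot hf).2 ⟨h0 i, h1 i⟩
    exact (le_rootMultiplicity_iff hf).1 h3
  have h3 : ∏ i, (X - C (u i)) ^ 2 ∣ f := by
    refine Finset.prod_dvd_of_coprime ?_ fun i _ => h2 i
    intro i _ j _ hij
    refine IsCoprime.pow ?_
    exact isCoprime_X_sub_C_of_isUnit_sub (sub_ne_zero.2 fun h => hij (hu h)).isUnit
  have h4 := degree_le_of_dvd h3 hf
  have h5 : (∏ i, (X - C (u i)) ^ 2).degree = ((2 * r + 2 : ℕ) : WithBot ℕ) := by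
    rw [degree_prod]
    have : ∀ i : Fin (r + 1), ((X - C (u i)) ^ 2).degree = 2 := by
      intro i
      rw [degree_pow, degree_X_sub_C]
      rfl
    simp only [this, Finset.sum_const, Finset.card_univ, Fintype.card_fin]
    rw [show 2 * r + 2 = (r + 1) * 2 by ring]
    push_cast
    rw [nsmul_eq_mul]
    push_cast
    rfl
  rw [h5] at h4
  exact absurd hd (not_lt.2 h4)

open Polynomial in
theorem sum_poly_eval {d : ℕ} (a : Fin d → ℝ) (u : ℝ) :
    (∑ j : Fin d, C (a j) * X ^ (j : ℕ)).eval u = ∑ j, a j * u ^ (j : ℕ) := by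
  simp [eval_finsetSum]

open Polynomial in
theorem sum_poly_deriv {d : ℕ} (a : Fin d → ℝ) (u : ℝ) :
    (∑ j : Fin d, C (a j) * X ^ (j : ℕ)).derivative.eval u =
      ∑ j, a j * ((j : ℕ) * u ^ ((j : ℕ) - 1)) := by
  rw [derivative_sum, eval_finsetSum]
  refine Finset.sum_congr rfl fun j _ => ?_
  rw [derivative_C_mul, derivative_X_pow]
  simp

open Polynomial in
theorem sum_poly_degree {d : ℕ} (a : Fin d → ℝ) :
    (∑ j : Fin d, C (a j) * X ^ (j : ℕ)).degree < (d : WithBot ℕ) := by
  refine lt_of_le_of_lt (degree_sum_le _ _) ?_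
  rw [Finset.sup_lt_iff (by exact WithBot.bot_lt_coe d)]
  intro j _
  refine lt_of_le_of_lt (degree_C_mul_X_pow_le _ _) ?_
  exact_mod_cast j.2

open Polynomial in
theorem sum_poly_coeff {d : ℕ} (a : Fin d → ℝ) (i : Fin d) :
    (∑ j : Fin d, C (a j) * X ^ (j : ℕ)).coeff i = a i := by
  rw [finsetSum_coeff, Finset.sum_eq_single i]
  · simp
  · intro j _ hj
    rw [coeff_C_mul, coeff_X_pow, if_neg, mul_zero]
    intro h
    exact hj (Fin.ext h.symm)
  · simp

open Polynomial in
theorem interp : S_interp := by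
  classical
  intro n r t hn v hsep a b hb0 hval hder
  set u : Fin (r + 1) → ℝ := fun i => uu t (v i) with hu
  have hinj : Function.Injective u := by
    intro i j hij
    by_contra h
    exact hsep i j h hij
  set Kc : Fin (r + 1) → ℝ := fun i => ∑ j, a j * ((j : ℕ) * u i ^ ((j : ℕ) - 1)) +
    ∑ l', ∑ j : Fin (r + 1), b l' j * ((j : ℕ) * u i ^ ((j : ℕ) - 1) * v i l') with hK
  have hder' : ∀ i (l : Fin n), (t : ℝ) ^ (l : ℕ) * Kc i + ∑ j : Fin (r + 1), b l j * u i ^ (j : ℕ) = 0 := by
    intro i l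
    have h := hder i l
    have e1 : ∑ j, a j * ((j : ℕ) * (t : ℝ) ^ (l : ℕ) * uu t (v i) ^ ((j : ℕ) - 1)) =
        (t : ℝ) ^ (l : ℕ) * ∑ j, a j * ((j : ℕ) * u i ^ ((j : ℕ) - 1)) := by
      rw [Finset.mul_sum]
      refine Finset.sum_congr rfl fun j _ => ?_
      simp only [hu]
      ring
    have e2 : ∑ l', ∑ j, b l' j * ((j : ℕ) * (t : ℝ) ^ (l : ℕ) * uu t (v i) ^ ((j : ℕ) - 1) *
          v i l' + if l' = l then uu t (v i) ^ (j : ℕ) else 0) =
        (t : ℝ) ^ (l : ℕ) * ∑ l', ∑ j : Fin (r + 1), b l' j * ((j : ℕ) * u i ^ ((j : ℕ) - 1) * v i l') +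
          ∑ j : Fin (r + 1), b l j * u i ^ (j : ℕ) := by
      have : ∀ l', ∑ j : Fin (r + 1), b l' j * ((j : ℕ) * (t : ℝ) ^ (l : ℕ) * uu t (v i) ^ ((j : ℕ) - 1) *
          v i l' + if l' = l then uu t (v i) ^ (j : ℕ) else 0) =
          (t : ℝ) ^ (l : ℕ) * ∑ j : Fin (r + 1), b l' j * ((j : ℕ) * u i ^ ((j : ℕ) - 1) * v i l') +
          if l' = l then ∑ j : Fin (r + 1), b l' j * u i ^ (j : ℕ) else 0 := by
        intro l'
        rw [Finset.mul_sum]
        split_ifs with hl
        · rw [← Finset.sum_add_distrib]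
          refine Finset.sum_congr rfl fun j _ => ?_
          simp only [hu]
          ring
        · rw [add_zero]
          refine Finset.sum_congr rfl fun j _ => ?_
          simp only [hu]
          ring
      simp only [this]
      rw [Finset.sum_add_distrib, ← Finset.mul_sum, Finset.sum_ite_eq' Finset.univ l,
        if_pos (Finset.mem_univ l)]
    rw [e1, e2] at h
    simp only [hK]
    rw [mul_add]
    linarith
  have hK0 : ∀ i, Kc i = 0 := by
    intro i
    have h := hder' i ⟨0, hn⟩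
    rw [hb0] at h
    simpa using h
  have hb : ∀ l, b l = 0 := by
    intro l
    have h : ∀ i, ∑ j : Fin (r + 1), b l j * u i ^ (j : ℕ) = 0 := by
      intro i
      have := hder' i l
      rw [hK0, mul_zero, zero_add] at this
      exact this
    have hz : (∑ j : Fin (r + 1), C (b l j) * X ^ (j : ℕ)) = 0 := by
      refine eq_zero_of_degree_lt_of_eval_finset_eq_zero (Finset.univ.image u) ?_ ?_
      · rw [Finset.card_image_of_injective _ hinj, Finset.card_univ, Fintype.card_fin]
        exact sum_poly_degree _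
      · intro x hx
        obtain ⟨i, _, rfl⟩ := Finset.mem_image.1 hx
        rw [sum_poly_eval]
        exact h i
    funext j
    rw [← sum_poly_coeff (b l) j, hz]
    simp
  have hb' : b = 0 := funext hb
  subst hb'
  refine ⟨?_, rfl⟩
  have hz : (∑ j : Fin (2 * r + 2), C (a j) * X ^ (j : ℕ)) = 0 := by
    refine double_roots _ (sum_poly_degree _) u hinj ?_ ?_
    · intro i
      rw [sum_poly_eval]
      have := hval i
      simpa using this
    · intro i
      rw [sum_poly_deriv]
      have := hK0 i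
      simp only [hK] at this
      simpa using this
  funext j
  rw [← sum_poly_coeff a j, hz]
  simp

open Polynomial in
theorem sep : S_sep := by
  classical
  intro n r v hr hv
  -- bad values of a pair
  let f : Fin (r + 1) → Fin (r + 1) → ℝ[X] := fun i j =>
    ∑ l : Fin n, C (v i l - v j l) * X ^ (l : ℕ)
  have hev : ∀ i j (t : ℕ), (f i j).eval (t : ℝ) = uu t (v i) - uu t (v j) := by
    intro i j t
    simp only [f]
    rw [sum_poly_eval]
    unfold uu
    rw [← Finset.sum_sub_distrib]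
    exact Finset.sum_congr rfl fun l _ => by ring
  have hne : ∀ i j, i ≠ j → f i j ≠ 0 := by
    intro i j hij h0
    apply hij
    apply hv
    funext l
    have := sum_poly_coeff (fun l => v i l - v j l) l
    have h1 : (f i j).coeff l = v i l - v j l := this
    rw [h0] at h1
    simp at h1
    linarith
  by_contra hcon
  push Not at hcon
  -- every t < TT n is bad for some pair
  have hbad : ∀ t ∈ Finset.range (TT n), ∃ ij : Fin (r + 1) × Fin (r + 1), ij.1 ≠ ij.2 ∧
      uu t (v ij.1) = uu t (v ij.2) := by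
    intro t ht
    obtain ⟨i, j, hij, h⟩ := hcon ⟨t, Finset.mem_range.1 ht⟩
    exact ⟨(i, j), hij, h⟩
  have hcard : ∀ ij : Fin (r + 1) × Fin (r + 1), ij.1 ≠ ij.2 →
      ((Finset.range (TT n)).filter fun t : ℕ => uu t (v ij.1) = uu t (v ij.2)).card ≤ n := by
    intro ij hij
    have h1 : ((Finset.range (TT n)).filter fun t : ℕ => uu t (v ij.1) = uu t (v ij.2)).card ≤
        (f ij.1 ij.2).roots.toFinset.card := by
      refine Finset.card_le_card_of_injOn (fun t : ℕ => (t : ℝ)) ?_ ?_
      · intro t ht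
        rw [Finset.mem_coe, Finset.mem_filter] at ht
        rw [Finset.mem_coe, Multiset.mem_toFinset, mem_roots (hne _ _ hij)]
        show (f ij.1 ij.2).eval (t : ℝ) = 0
        rw [hev, ht.2, sub_self]
      · intro a _ b _ h
        exact Nat.cast_injective h
    refine h1.trans ((Multiset.toFinset_card_le _).trans ((card_roots' _).trans ?_))
    have h2 := sum_poly_degree (fun l => v ij.1 l - v ij.2 l)
    have h3 : (f ij.1 ij.2).degree < (n : WithBot ℕ) := h2
    exact ((natDegree_lt_iff_degree_lt (hne _ _ hij)).2 h3).le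
  have hcover : (Finset.range (TT n)) ⊆
      ((Finset.univ : Finset (Fin (r + 1) × Fin (r + 1))).filter fun ij => ij.1 ≠ ij.2).biUnion
        fun ij => (Finset.range (TT n)).filter fun t : ℕ => uu t (v ij.1) = uu t (v ij.2) := by
    intro t ht
    obtain ⟨ij, h1, h2⟩ := hbad t ht
    rw [Finset.mem_biUnion]
    exact ⟨ij, Finset.mem_filter.2 ⟨Finset.mem_univ _, h1⟩, Finset.mem_filter.2 ⟨ht, h2⟩⟩
  have h1 := Finset.card_le_card hcover
  rw [Finset.card_range] at h1
  have h2 : (((Finset.univ : Finset (Fin (r + 1) × Fin (r + 1))).filter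
      fun ij => ij.1 ≠ ij.2).biUnion fun ij => (Finset.range (TT n)).filter fun t : ℕ =>
        uu t (v ij.1) = uu t (v ij.2)).card ≤ (r + 1) * (r + 1) * n := by
    refine Finset.card_biUnion_le.trans ?_
    refine (Finset.sum_le_sum fun ij hij => hcard ij (Finset.mem_filter.1 hij).2).trans ?_
    rw [Finset.sum_const, smul_eq_mul]
    refine Nat.mul_le_mul_right _ ((Finset.card_filter_le _ _).trans ?_)
    simp
  have h3 : (r + 1) * (r + 1) * n ≤ (n + 1) * (n + 1) * n := by gcongr
  have h4 : (n + 1) * (n + 1) * n < TT n := by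
    unfold TT
    have : (n + 1) ^ 3 = (n + 1) * (n + 1) * n + (n + 1) * (n + 1) := by ring
    rw [this]
    have : 0 < (n + 1) * (n + 1) := by positivity
    omega
  omega

/-! ### The positive limit -/

/-- Continuity at a parameter vector, in the perturbation parameters. -/
theorem cont_at {n T : ℕ} (W : (Par n T → ℝ) → ℝ) (hW : ContinuousOn W {p | Adm p})
    (p0 : Par n T → ℝ) (hp0 : Adm p0) (hz : ∀ i, p0 (Sum.inr i) = 0) (η : ℝ) (hη : 0 < η) :
    ∃ ε > 0, ∀ p : Par n T → ℝ, (∀ i, p (Sum.inl i) = p0 (Sum.inl i)) →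
      (∀ i, |p (Sum.inr i)| ≤ ε) → |W p - W p0| < η := by
  have h1 := Metric.continuousOn_iff.1 hW p0 hp0 η hη
  obtain ⟨δ, hδ, h⟩ := h1
  refine ⟨δ / 2, by positivity, fun p hl hr => ?_⟩
  have hadm : Adm p := by
    unfold Adm
    rw [hl, hl, hl]
    exact hp0
  have hd : dist p p0 < δ := by
    refine lt_of_le_of_lt ((dist_pi_le_iff (by positivity : 0 ≤ δ / 2)).2 fun i => ?_)
      (by linarith : δ / 2 < δ)
    rcases i with i | i
    · rw [hl, dist_self]
      positivity
    · rw [hz, Real.dist_eq, sub_zero]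
      exact hr i
  have := h p hadm hd
  rwa [Real.dist_eq] at this

theorem limT (h : S_VV) : S_limT := by
  intro n T A hn hT hP x0 κ hκ hx0 θ
  obtain ⟨W, hWc, hWm, hWu⟩ := h n T A hn hT hP
  set Sx : ℝ := ∑ l, x0 l ^ 4 with hS
  have hS0 : 0 ≤ Sx := Finset.sum_nonneg fun l _ => by positivity
  refine ⟨1, one_pos, fun ρ hρ hρ1 => ⟨max 0 ((θ + 2 + Sx) / κ), le_max_left _ _,
    fun α hα γ hγ => ?_⟩⟩
  have hα0 : 0 ≤ α := (le_max_left _ _).trans hα
  have hα1 : θ + 2 + Sx ≤ α * κ := by
    have := (le_max_right _ _).trans hα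
    rwa [div_le_iff₀ hκ] at this
  -- the unperturbed parameter vector
  let p0 : Par n T → ℝ := Sum.elim ![ρ, α, γ] (fun _ => 0)
  have hp0 : Adm p0 := ⟨hρ, hα0, hγ⟩
  have hlow : θ + 2 ≤ W p0 := by
    obtain ⟨x, hx⟩ := hWm p0 hp0
    obtain ⟨v, hv⟩ := hx.2 x0
    refine le_trans ?_ hv
    have e1 : A.FF p0 x0 v = A.F0 T ρ α γ x0 v := by
      unfold Dat.FF
      have : ∑ i : PI n T, p0 (Sum.inr i) * bas x0 v i = 0 := by
        refine Finset.sum_eq_zero fun i _ => ?_
        show (0 : ℝ) * _ = 0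
        rw [zero_mul]
      rw [this, add_zero]
      rfl
    rw [e1]
    unfold Dat.F0
    have h1 := mul_le_mul_of_nonneg_left (hx0 v) hα0
    have h2 : 0 ≤ γ * ∑ t : Fin T, uu t v ^ (2 * n + 6) := by
      refine mul_nonneg hγ.le (Finset.sum_nonneg fun t _ => ?_)
      exact Even.pow_nonneg ⟨n + 3, by ring⟩ _
    have h3 : ρ * ∑ l, x0 l ^ 4 ≤ Sx := by
      rw [← hS]
      nlinarith
    rw [← mul_assoc] at h1
    linarith
  obtain ⟨ε, hε, hcl⟩ := cont_at W hWc p0 hp0 (fun _ => rfl) 1 one_pos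
  refine ⟨ε, hε, fun p h0 h1 h2 hr x V hV => ?_⟩
  have hl : ∀ i, p (Sum.inl i) = p0 (Sum.inl i) := by
    intro i
    fin_cases i
    · exact h0
    · exact h1
    · exact h2
  have hadm : Adm p := by
    unfold Adm
    rw [hl, hl, hl]
    exact hp0
  rw [hWu p hadm x V hV]
  have := hcl p hl hr
  rw [abs_lt] at this
  linarith [this.1]

/-! ### Connectedness -/

theorem conn (hpos : S_pos) : S_conn := by
  intro n T e H θ W hW hne s s' hs hs'
  -- the path
  let P : ℝ → ℕ → ℝ := fun τ i => Real.exp ((1 - τ) * Real.log (s i) + τ * Real.log (s' i))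
  have hP0 : P 0 = s := by
    funext i
    simp only [P, sub_zero, one_mul, zero_mul, add_zero]
    exact Real.exp_log (by have := hs.one_le i; linarith)
  have hP1 : P 1 = s' := by
    funext i
    simp only [P, sub_self, zero_mul, one_mul, zero_add]
    exact Real.exp_log (by have := hs'.one_le i; linarith)
  have hPh : ∀ τ ∈ Set.Icc (0 : ℝ) 1, Hier H e (P τ) := by
    intro τ hτ
    have t0 : 0 ≤ τ := hτ.1
    have t1 : 0 ≤ 1 - τ := by linarith [hτ.2]
    have hl : ∀ i, 0 ≤ Real.log (s i) := fun i => Real.log_nonneg (hs.one_le i)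
    have hl' : ∀ i, 0 ≤ Real.log (s' i) := fun i => Real.log_nonneg (hs'.one_le i)
    refine ⟨?_, ?_, fun i => ?_⟩
    · exact Real.one_le_exp (add_nonneg (mul_nonneg t1 (hl 0)) (mul_nonneg t0 (hl' 0)))
    · -- the minimum of the two endpoints
      rcases le_total (Real.log (s 0)) (Real.log (s' 0)) with hle | hle
      · refine lt_of_lt_of_le hs.2.1 ?_
        have : s 0 = Real.exp (Real.log (s 0)) :=
          (Real.exp_log (by have := hs.one_le 0; linarith)).symm
        rw [this]
        apply Real.exp_le_exp.2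
        show Real.log (s 0) ≤ (1 - τ) * Real.log (s 0) + τ * Real.log (s' 0)
        nlinarith
      · refine lt_of_lt_of_le hs'.2.1 ?_
        have : s' 0 = Real.exp (Real.log (s' 0)) :=
          (Real.exp_log (by have := hs'.one_le 0; linarith)).symm
        rw [this]
        apply Real.exp_le_exp.2
        show Real.log (s' 0) ≤ (1 - τ) * Real.log (s 0) + τ * Real.log (s' 0)
        nlinarith
    · show Real.exp _ ^ e ≤ Real.exp _
      rw [← Real.exp_nat_mul]
      apply Real.exp_le_exp.2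
      have h1 : (e : ℝ) * Real.log (s i) ≤ Real.log (s (i + 1)) := by
        rw [← Real.log_pow]
        exact Real.log_le_log (by have := hs.one_le i; positivity) (hs.2.2 i)
      have h2 : (e : ℝ) * Real.log (s' i) ≤ Real.log (s' (i + 1)) := by
        rw [← Real.log_pow]
        exact Real.log_le_log (by have := hs'.one_le i; positivity) (hs'.2.2 i)
      have h3 := mul_le_mul_of_nonneg_left h1 t1
      have h4 := mul_le_mul_of_nonneg_left h2 t0
      calc (e : ℝ) * ((1 - τ) * Real.log (s i) + τ * Real.log (s' i))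
          = (1 - τ) * (e * Real.log (s i)) + τ * (e * Real.log (s' i)) := by ring
        _ ≤ _ := add_le_add h3 h4
  have hcont : ContinuousOn (fun τ => W (pv (P τ))) (Set.Icc 0 1) := by
    refine hW.comp ?_ fun τ hτ => adm_pv (hPh τ hτ)
    refine Continuous.continuousOn ?_
    refine continuous_pi fun i => ?_
    unfold pv
    have hPc : ∀ k, Continuous fun τ => P τ k := by
      intro k
      simp only [P]
      fun_prop
    split_ifs with hi
    · exact hPc _
    · exact (hPc _).inv₀ fun τ => (Real.exp_pos _).ne'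
  have havoid : ∀ τ ∈ Set.Icc (0 : ℝ) 1, W (pv (P τ)) ≠ θ := fun τ hτ => hne _ (hPh τ hτ)
  have key : ∀ f : ℝ → ℝ, ContinuousOn f (Set.Icc 0 1) → (∀ τ ∈ Set.Icc (0 : ℝ) 1, f τ ≠ θ) →
      f 0 < θ → f 1 < θ := by
    intro f hf hfa h0
    by_contra h1
    have h1' : θ ≤ f 1 := not_lt.1 h1
    obtain ⟨τ, hτ, h⟩ := intermediate_value_Icc (zero_le_one) hf ⟨h0.le, h1'⟩
    exact hfa τ hτ h
  constructor
  · intro h0
    have := key _ hcont havoid (by simpa only [hP0] using h0)
    simpa only [hP1] using this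
  · intro h0
    have hc' : ContinuousOn (fun τ => W (pv (P (1 - τ)))) (Set.Icc 0 1) := by
      refine hcont.comp (f := fun τ : ℝ => 1 - τ) (by fun_prop) fun τ hτ => ?_
      exact ⟨by linarith [hτ.2], by linarith [hτ.1]⟩
    have ha' : ∀ τ ∈ Set.Icc (0 : ℝ) 1, W (pv (P (1 - τ))) ≠ θ := fun τ hτ =>
      havoid _ ⟨by linarith [hτ.2], by linarith [hτ.1]⟩
    have := key _ hc' ha' (by simpa only [sub_zero, hP1] using h0)
    simpa only [sub_self, hP0] using this

end Pool.Agent.Q230.IP
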