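import Pool.Agent.Q230.IP.Kkt
import Pool.Agent.Q230.IP.Sem
import Pool.Agent.Q230.IP.Red
import Pool.Agent.Q230.IP.Loj2
import Pool.Agent.Q230.IP.Small
import Pool.Agent.Q230.IP.Pt
import Pool.Agent.Q182.IP.Siegel
import Pool.Agent.Q182.IP.Rel
import Pool.Agent.Q182.IP.Dan
import Pool.Agent.Q149.IP.Alg2
import Pool.Agent.Q149.IP.Hier
import Pool.Agent.Q149.IP.VV
import Pool.Agent.Q149.IP.MM1
import Pool.Agent.Q149.IP.MM2
import Pool.Agent.Q149.IP.FFD
import Pool.Agent.Q47.IP.POS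
import Pool.Agent.Q47.IP.MNQ
import Pool.Agent.Q47.IP.NMS
import Pool.Agent.Q47.IP.GEO
import Pool.Agent.Q47.IP.INST
import Pool.Agent.Q47.IP.NUM
import Pool.Agent.Q47.IP.PIN
import Pool.Agent.Q47.IP.MEM
import Pool.Agent.Q251.IP.Fin
import Pool.Agent.Q102.IP.Iso
import Pool.Agent.Q24.IP.FFC
import Pool.Agent.Q24.IP.LimF
import Pool.Agent.Q24.IP.Thr

/-!
# Project IP: the assembly
-/

namespace Pool.Agent.Q230.IP

/-- Correctness of the reduction. -/
theorem red_all : S_red := by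
  have hFFC : S_FFC := Pool.Agent.Q24.IP.ffc
  have hVV : S_VV := Pool.Agent.Q149.IP.vv Pool.Agent.Q149.IP.mmex Pool.Agent.Q149.IP.mmcont
    Pool.Agent.Q149.IP.ffd hFFC
  have hrel : S_rel := Pool.Agent.Q182.IP.Rel.rel
    (Pool.Agent.Q149.IP.alg Pool.Agent.Q182.IP.siegel) interp
  have hfin : S_fin := Pool.Agent.Q251.IP.fin hrel Pool.Agent.Q149.IP.hier Pool.Agent.Q47.IP.pos'
  have hthr : S_thr := Pool.Agent.Q24.IP.thr hrel Pool.Agent.Q149.IP.hier Pool.Agent.Q47.IP.pos'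
  have hkkt : S_kkt := kkt Pool.Agent.Q182.IP.dan sep Pool.Agent.Q149.IP.ffd hFFC
  have hsem : S_sem := sem hVV hkkt (limT hVV) (Pool.Agent.Q24.IP.limF hVV)
    (conn Pool.Agent.Q47.IP.pos') hthr
  have hiso : S_iso := Pool.Agent.Q102.IP.iso Pool.Agent.Q47.IP.mnq Pool.Agent.Q47.IP.vlq
    Pool.Agent.Q47.IP.nms Pool.Agent.Q47.IP.geo Pool.Agent.Q47.IP.pos'
  exact red hsem hfin (Pool.Agent.Q47.IP.inst loj) Pool.Agent.Q47.IP.num hiso

/-- The reduction is computable in polynomial time. -/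
theorem pin_all : S_pin :=
  Pool.Agent.NPC.Q47IP.pin Pool.Agent.NPC.Q230IP.pqf Pool.Agent.NPC.Q230IP.pnm

/-- The main theorem. -/
theorem main_all : S_main := main_of Pool.Agent.Q47.IP.mem pin_all red_all

end Pool.Agent.Q230.IP
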