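import Pool.Agent.Q230.IP.PolyFn

/-!
# Project IP: definitions

The max-min problem `max_x min_v F(p; x, v)` with a perturbation family, its
Karush-Kuhn-Tucker systems, and the constants of the effective bounds.
-/

namespace Pool.Agent.Q230.IP

open MvPolynomial

/-- The value at `z` of the polynomial with integer coefficients `q a` and with all exponents
smaller than `D`. -/
noncomputable def bev {P : Type} [Fintype P] {D : ℕ} (q : (P → Fin D) → ℤ) (z : P → ℝ) : ℝ :=
  letI := Classical.decEq P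
  ∑ a, (q a : ℝ) * ∏ i, z i ^ (a i : ℕ)

/-- Names of the perturbation parameters: the linear terms in `x`, the powers of the linear forms
`uu t`, and the products of these powers with the coordinates. -/
abbrev PI (n T : ℕ) := Fin n ⊕ ((Fin T × Fin (2 * n + 2)) ⊕ (Fin T × (Fin n × Fin (n + 1))))

/-- Names of all parameters; the first three are `ρ`, `α`, `γ`. -/
abbrev Par (n T : ℕ) := Fin 3 ⊕ PI n T

/-- The linear form `∑ l, t ^ l * v l`. -/
noncomputable def uu {n : ℕ} (t : ℕ) (v : Fin n → ℝ) : ℝ := ∑ l : Fin n, (t : ℝ) ^ (l : ℕ) * v l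

variable {n T : ℕ}

/-- The functions multiplied by the perturbation parameters. -/
noncomputable def bas (x v : Fin n → ℝ) : PI n T → ℝ
  | Sum.inl l => x l
  | Sum.inr (Sum.inl (t, j)) => uu t v ^ (j : ℕ)
  | Sum.inr (Sum.inr (t, (l, j))) => uu t v ^ (j : ℕ) * v l

/-- The derivative of `bas` with respect to `v l`. -/
noncomputable def basV (l : Fin n) (v : Fin n → ℝ) : PI n T → ℝ
  | Sum.inl _ => 0
  | Sum.inr (Sum.inl (t, j)) => (j : ℕ) * (t : ℝ) ^ (l : ℕ) * uu t v ^ ((j : ℕ) - 1)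
  | Sum.inr (Sum.inr (t, (l', j))) =>
      (j : ℕ) * (t : ℝ) ^ (l : ℕ) * uu t v ^ ((j : ℕ) - 1) * v l' +
        if l' = l then uu t v ^ (j : ℕ) else 0

/-- The derivative of `bas` with respect to `x l`. -/
noncomputable def basX (l : Fin n) : PI n T → ℝ
  | Sum.inl l' => if l' = l then 1 else 0
  | Sum.inr _ => 0

/-- The data of the problem: the set of the existential coordinates, a distinguished coordinate,
and an integer polynomial. -/
structure Dat (n : ℕ) where
  /-- the existential coordinates -/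
  E : Fin n → Bool
  /-- the distinguished coordinate -/
  o : Fin n
  /-- the polynomial -/
  P : MvPolynomial (Fin n) ℤ

namespace Dat

variable (A : Dat n)

/-- `Φ(x,v) = ∑_{l ∈ E} (v_l - x_l)² + P(v)`. -/
noncomputable def Phi (x v : Fin n → ℝ) : ℝ :=
  (∑ l, if A.E l then (v l - x l) ^ 2 else 0) + aeval v A.P

/-- The derivative of `Φ` with respect to `v l`. -/
noncomputable def PhiV (l : Fin n) (x v : Fin n → ℝ) : ℝ :=
  (if A.E l then 2 * (v l - x l) else 0) + aeval v (pderiv l A.P)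

/-- The unperturbed objective. -/
noncomputable def F0 (T : ℕ) (r a c : ℝ) (x v : Fin n → ℝ) : ℝ :=
  a * (1 + v A.o ^ 2) * A.Phi x v + c * (∑ t : Fin T, uu t v ^ (2 * n + 6)) - r * ∑ l, x l ^ 4

/-- The derivative of `F0` with respect to `v l`. -/
noncomputable def F0V (T : ℕ) (_r a c : ℝ) (l : Fin n) (x v : Fin n → ℝ) : ℝ :=
  a * ((if l = A.o then 2 * v A.o * A.Phi x v else 0) + (1 + v A.o ^ 2) * A.PhiV l x v) +
    c * ∑ t : Fin T, (2 * n + 6 : ℕ) * (t : ℝ) ^ (l : ℕ) * uu t v ^ (2 * n + 5)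

/-- The derivative of `F0` with respect to `x l`. -/
noncomputable def F0X (r a _c : ℝ) (l : Fin n) (x v : Fin n → ℝ) : ℝ :=
  a * (1 + v A.o ^ 2) * (if A.E l then -2 * (v l - x l) else 0) - 4 * r * x l ^ 3

/-- The objective, with parameter vector `p`: `ρ = p 0`, `α = p 1`, `γ = p 2`, and the
perturbation parameters. -/
noncomputable def FF (p : Par n T → ℝ) (x v : Fin n → ℝ) : ℝ :=
  A.F0 T (p (Sum.inl 0)) (p (Sum.inl 1)) (p (Sum.inl 2)) x v +
    ∑ i : PI n T, p (Sum.inr i) * bas x v i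

/-- The derivative of `FF` with respect to `v l`. -/
noncomputable def FFV (p : Par n T → ℝ) (l : Fin n) (x v : Fin n → ℝ) : ℝ :=
  A.F0V T (p (Sum.inl 0)) (p (Sum.inl 1)) (p (Sum.inl 2)) l x v +
    ∑ i : PI n T, p (Sum.inr i) * basV l v i

/-- The derivative of `FF` with respect to `x l`. -/
noncomputable def FFX (p : Par n T → ℝ) (l : Fin n) (x v : Fin n → ℝ) : ℝ :=
  A.F0X (p (Sum.inl 0)) (p (Sum.inl 1)) (p (Sum.inl 2)) l x v +
    ∑ i : PI n T, p (Sum.inr i) * basX l i

end Dat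

/-- `V` is the value `max_x min_v f x v` and `x` is a maximizer. -/
def IsMM (f : (Fin n → ℝ) → (Fin n → ℝ) → ℝ) (x : Fin n → ℝ) (V : ℝ) : Prop :=
  (∀ v, V ≤ f x v) ∧ ∀ y, ∃ v, f y v ≤ V

/-- The Karush-Kuhn-Tucker system with `r + 1` active points, separated by the form `uu t`. -/
structure Kkt (A : Dat n) (p : Par n T → ℝ) (r : ℕ) (t : Fin T) (x : Fin n → ℝ)
    (v : Fin (r + 1) → Fin n → ℝ) (lam : Fin (r + 1) → ℝ) (V : ℝ) : Prop where
  val : ∀ i, A.FF p x (v i) = V
  gv : ∀ i l, A.FFV p l x (v i) = 0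
  sum : ∑ i, lam i = 1
  gx : ∀ l, ∑ i, lam i * A.FFX p l x (v i) = 0
  sep : ∀ i j, i ≠ j → uu t (v i) ≠ uu t (v j)

/-- Names of the unknowns of a system. -/
abbrev YI (n r : ℕ) := Fin n ⊕ ((Fin (r + 1) × Fin n) ⊕ (Fin r ⊕ Unit))

/-- The values of the unknowns. -/
def yv {r : ℕ} (x : Fin n → ℝ) (v : Fin (r + 1) → Fin n → ℝ) (lam : Fin (r + 1) → ℝ) (V : ℝ) :
    YI n r → ℝ
  | Sum.inl l => x l
  | Sum.inr (Sum.inl (i, l)) => v i l
  | Sum.inr (Sum.inr (Sum.inl i)) => lam i.succ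
  | Sum.inr (Sum.inr (Sum.inr _)) => V

/-! ### Positions and hierarchical values of the parameters -/

/-- The position of a parameter. -/
def pos (n T : ℕ) : Par n T → ℕ
  | Sum.inl i => i
  | Sum.inr (Sum.inl l) => 3 + l
  | Sum.inr (Sum.inr (Sum.inl (t, j))) => 3 + n + (t * (2 * n + 2) + j)
  | Sum.inr (Sum.inr (Sum.inr (t, (l, j)))) =>
      3 + n + T * (2 * n + 2) + ((t * n + l) * (n + 1) + j)

/-- The parameter vector given by a sequence: `α` is the second term, all other parameters are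
inverses. -/
noncomputable def pv (s : ℕ → ℝ) : Par n T → ℝ := fun i =>
  if i = Sum.inl 1 then s (pos n T i) else (s (pos n T i))⁻¹

/-- The number of parameters. -/
def LL (n T : ℕ) : ℕ := 3 + (n + (T * (2 * n + 2) + T * (n * (n + 1))))

/-- The number of the separating forms. -/
def TT (n : ℕ) : ℕ := (n + 1) ^ 3

/-- Bound of the norms of the entries. -/
def CB (n T C : ℕ) : ℕ := 1000 * (LL n T) ^ 3 * (n * T ^ n) ^ (2 * n + 8) * C

/-- Bound of the exponents of the relations. -/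
def DB (n T : ℕ) : ℕ :=
  2 * ((LL n T + 1) * ((n + 2) ^ 2 * (2 * n + 9) + 1) + 1) ^ LL n T

/-- Bound of the coefficients of the relations. -/
def HB (n T C D : ℕ) : ℕ :=
  D ^ (LL n T + 1) * (((n + 2) ^ 2 * CB n T C) ^ ((n + 2) ^ 2)) ^ ((LL n T + 1) * D)

end Pool.Agent.Q230.IP
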