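import Pool.Agent.Q47.IP.MEM

/-!
# Project IP: the version for formulas with arbitrary terms
-/

namespace Pool.Agent.NPC.Q230IP

open Pool.Agent.NPC Pool.Agent.NPC.ER Pool.Agent.NPC.H612 Pool.Agent.Q230.IP Pool.Agent.Q47.IP

/-- The set of the points of `ℝ^d` satisfying a formula in the variables `0, …, d-1` (variables
with other indices are read as `0`). -/
def solSet (d : ℕ) (φ : Fm) : Set (Fin d → ℝ) := {x | φ.Holds (xt x)}

/-- The problem for formulas with arbitrary terms; the dimension is written in unary. -/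
def IsoPointFm (a : List Unit × Fm) : Prop := HasIso (solSet a.1.length a.2)

/-! ### Renaming of the variables -/

/-- Renaming in a symbol. -/
def rTok (d : ℕ) (s : ℕ → ℕ) : Tok → Tok
  | .var i => if i < d then .var (s i) else .zero
  | t => t

/-- Renaming in a term. -/
def rTm (d : ℕ) (s : ℕ → ℕ) : Tm → Tm
  | .var i => if i < d then .var (s i) else .zero
  | .zero => .zero
  | .one => .one
  | .add a b => .add (rTm d s a) (rTm d s b)
  | .neg a => .neg (rTm d s a)
  | .mul a b => .mul (rTm d s a) (rTm d s b)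

/-- Renaming in a formula. -/
def rFm (d : ℕ) (s : ℕ → ℕ) : Fm → Fm
  | .eq a b => .eq (rTm d s a) (rTm d s b)
  | .lt a b => .lt (rTm d s a) (rTm d s b)
  | .le a b => .le (rTm d s a) (rTm d s b)
  | .not φ => .not (rFm d s φ)
  | .and φ ψ => .and (rFm d s φ) (rFm d s ψ)
  | .or φ ψ => .or (rFm d s φ) (rFm d s ψ)

theorem toks_rTm (d : ℕ) (s : ℕ → ℕ) (t : Tm) : (rTm d s t).toks = t.toks.map (rTok d s) := by
  induction t with
  | var i =>
    simp only [rTm, Tm.toks, List.map_cons, List.map_nil, rTok]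
    split_ifs <;> rfl
  | zero => rfl
  | one => rfl
  | add a b ha hb => simp only [rTm, Tm.toks, ha, hb, List.map_append, List.map_cons,
      List.map_nil, rTok]
  | neg a ha => simp only [rTm, Tm.toks, ha, List.map_append, List.map_cons, List.map_nil, rTok]
  | mul a b ha hb => simp only [rTm, Tm.toks, ha, hb, List.map_append, List.map_cons,
      List.map_nil, rTok]

theorem toks_rFm (d : ℕ) (s : ℕ → ℕ) (φ : Fm) : (rFm d s φ).toks = φ.toks.map (rTok d s) := by
  induction φ with
  | eq a b => simp only [rFm, Fm.toks, toks_rTm, List.map_append, List.map_cons, List.map_nil,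
      rTok]
  | lt a b => simp only [rFm, Fm.toks, toks_rTm, List.map_append, List.map_cons, List.map_nil,
      rTok]
  | le a b => simp only [rFm, Fm.toks, toks_rTm, List.map_append, List.map_cons, List.map_nil,
      rTok]
  | not a ha => simp only [rFm, Fm.toks, ha, List.map_append, List.map_cons, List.map_nil, rTok]
  | and a b ha hb => simp only [rFm, Fm.toks, ha, hb, List.map_append, List.map_cons,
      List.map_nil, rTok]
  | or a b ha hb => simp only [rFm, Fm.toks, ha, hb, List.map_append, List.map_cons,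
      List.map_nil, rTok]

theorem eval_rTm (d : ℕ) (s : ℕ → ℕ) (v : ℕ → ℝ) (t : Tm) :
    (rTm d s t).eval v = t.eval (xt fun c : Fin d => v (s c)) := by
  induction t with
  | var i =>
    simp only [rTm, Tm.eval, xt]
    split_ifs <;> rfl
  | zero => rfl
  | one => rfl
  | add a b ha hb => simp only [rTm, Tm.eval, ha, hb]
  | neg a ha => simp only [rTm, Tm.eval, ha]
  | mul a b ha hb => simp only [rTm, Tm.eval, ha, hb]

theorem holds_rFm (d : ℕ) (s : ℕ → ℕ) (v : ℕ → ℝ) (φ : Fm) :
    (rFm d s φ).Holds v ↔ (fun c : Fin d => v (s c)) ∈ solSet d φ := by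
  change _ ↔ φ.Holds (xt fun c : Fin d => v (s c))
  induction φ with
  | eq a b => simp only [rFm, Fm.Holds, eval_rTm]
  | lt a b => simp only [rFm, Fm.Holds, eval_rTm]
  | le a b => simp only [rFm, Fm.Holds, eval_rTm]
  | not a ha => simp only [rFm, Fm.Holds, ha]
  | and a b ha hb => simp only [rFm, Fm.Holds, ha, hb]
  | or a b ha hb => simp only [rFm, Fm.Holds, ha, hb]

section

variable {α : Type} [TEnc α]

theorem poly_rTok {d : α → ℕ} {s : α → ℕ → ℕ} {t : α → Tok} (hd : Poly d)
    (hs : Poly fun q : α × ℕ => s q.1 q.2) (ht : Poly t) :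
    Poly fun a => rTok (d a) (s a) (t a) := by
  have hc : Poly (fun a => (t a).code) := poly_tok_code ht
  refine poly_tok_of_code' (Poly.congr (f := fun a => if (t a).code.1 = 0 then
    (if (t a).code.2 < d a then (0, s a (t a).code.2) else (1, 0)) else (t a).code) ?_
    fun a => ?_)
  · refine Poly.ite (Poly.decide_eq (Poly.fst hc) (Poly.const 0)) (Poly.ite
      (Poly.decide_lt (Poly.snd hc) hd) (Poly.pair (Poly.const 0) ?_) (Poly.const _)) hc
    exact hs.comp (Poly.pair Poly.id (Poly.snd hc))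
  · cases h : t a with
    | var i =>
      simp only [rTok, Tok.code, if_true]
      split_ifs <;> rfl
    | zero => rfl
    | one => rfl
    | add => rfl
    | neg => rfl
    | mul => rfl
    | eq => rfl
    | lt => rfl
    | le => rfl
    | not => rfl
    | and => rfl
    | or => rfl

theorem poly_rFm {d : α → ℕ} {s : α → ℕ → ℕ} {φ : α → Fm} (hd : Poly d)
    (hs : Poly fun q : α × ℕ => s q.1 q.2) (hφ : Poly φ) :
    Poly fun a => rFm (d a) (s a) (φ a) := by
  refine poly_fm_of_toks ?_
  simp only [toks_rFm]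
  refine Poly.map (F := fun a t => rTok (d a) (s a) t) (poly_toks hφ) ?_
  refine poly_rTok (s := fun q : α × Tok => s q.1) (hd.comp (Poly.fst Poly.id)) ?_
    (Poly.snd Poly.id)
  exact hs.comp (Poly.pair (Poly.fst (Poly.fst Poly.id)) (Poly.snd Poly.id))

end

/-! ### Membership -/

/-- The formula of the problem. -/
def ipFm' (d : ℕ) (φ : Fm) : Fm :=
  conj [rFm d (fun c => 3 * c) φ, Fm.lt Tm.zero (Tm.var 2),
    Fm.or (Fm.not (Fm.and (rFm d (fun c => 3 * c + 1) φ)
      (Fm.lt (sumT ((List.range d).map fun c => Tm.mul (dfT c) (dfT c)))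
        (Tm.mul (Tm.var 2) (Tm.var 2)))))
      (conj ((List.range d).map fun c => Fm.eq (Tm.var (3 * c + 1)) (Tm.var (3 * c))))]

/-- The sentence of the problem. -/
def ipSent' (a : List Unit × Fm) : List ℕ × Fm :=
  (2 :: (List.range a.1.length).map fun n => 3 * n, ipFm' a.1.length a.2)

theorem holds_ipFm' (d : ℕ) (φ : Fm) (v : ℕ → ℝ) : (ipFm' d φ).Holds v ↔
    (fun c : Fin d => v (3 * c)) ∈ solSet d φ ∧ 0 < v 2 ∧
    ((fun c : Fin d => v (3 * c + 1)) ∈ solSet d φ →
      ∑ i : Fin d, (v (3 * i + 1) - v (3 * i)) ^ 2 < v 2 ^ 2 →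
      (fun c : Fin d => v (3 * c + 1)) = fun c : Fin d => v (3 * c)) := by
  unfold ipFm'
  rw [holds_conj]
  simp only [List.mem_cons, List.not_mem_nil, or_false, forall_eq_or_imp, forall_eq]
  refine and_congr ?_ (and_congr ?_ ?_)
  · rw [holds_rFm]
  · simp only [Fm.Holds, Tm.eval]
  · rw [Fm.Holds, Fm.Holds, Fm.Holds, holds_rFm, holds_conj, ← imp_iff_not_or, and_imp]
    refine imp_congr Iff.rfl (imp_congr ?_ ?_)
    · rw [Fm.Holds, eval_sumT, List.map_map]
      have : ((List.range d).map (Tm.eval v ∘ fun c => Tm.mul (dfT c) (dfT c))).sum =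
          ∑ i : Fin d, (v (3 * i + 1) - v (3 * i)) ^ 2 := by
        rw [sum_range_list' d (Tm.eval v ∘ fun c => Tm.mul (dfT c) (dfT c))]
        refine Finset.sum_congr rfl fun i _ => ?_
        simp only [Function.comp, dfT, Tm.eval]
        ring
      rw [this]
      simp only [Tm.eval]
      rw [pow_two (v 2)]
    · constructor
      · intro h
        funext c
        exact h _ (List.mem_map.2 ⟨c, List.mem_range.2 c.2, rfl⟩)
      · rintro h ψ hψ
        obtain ⟨c, hc, rfl⟩ := List.mem_map.1 hψ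
        exact congrFun h ⟨c, List.mem_range.1 hc⟩

theorem isoPointFm_iff (a : List Unit × Fm) : IsoPointFm a ↔ EAR (ipSent' a) := by
  obtain ⟨du, φ⟩ := a
  unfold IsoPointFm ipSent' EAR HasIso
  simp only
  generalize du.length = d
  set E := 2 :: (List.range d).map fun n => 3 * n with hE
  have mE : ∀ n, 3 * n ∈ E ↔ n < d := by
    intro n
    simp only [hE, List.mem_cons, List.mem_map, List.mem_range]
    constructor
    · rintro (h | ⟨m, hm, h⟩)
      · omega
      · omega
    · intro h
      exact Or.inr ⟨n, h, rfl⟩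
  have m1 : ∀ n, 3 * n + 1 ∉ E := by
    intro n
    simp only [hE, List.mem_cons, List.mem_map, List.mem_range, not_or, not_exists, not_and]
    exact ⟨by omega, fun m _ => by omega⟩
  have m2 : 2 ∈ E := by simp [hE]
  have vx : ∀ (x y : ℕ → ℝ) c (_ : c < d), mixv E x y (3 * c) = x (3 * c) := by
    intro x y c hc
    unfold mixv
    rw [if_pos ((mE c).2 hc)]
  have vy : ∀ (x y : ℕ → ℝ) c, mixv E x y (3 * c + 1) = y (3 * c + 1) := by
    intro x y c
    unfold mixv
    rw [if_neg (m1 c)]
  have v2 : ∀ (x y : ℕ → ℝ), mixv E x y 2 = x 2 := by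
    intro x y
    unfold mixv
    rw [if_pos m2]
  have ex : ∀ (x y : ℕ → ℝ),
      (fun c : Fin d => mixv E x y (3 * c)) = fun c : Fin d => x (3 * c) :=
    fun x y => funext fun c => vx x y c c.2
  have ey : ∀ (x y : ℕ → ℝ),
      (fun c : Fin d => mixv E x y (3 * c + 1)) = fun c : Fin d => y (3 * c + 1) :=
    fun x y => funext fun c => vy x y c
  have es : ∀ (x y : ℕ → ℝ), ∑ i : Fin d, (mixv E x y (3 * i + 1) - mixv E x y (3 * i)) ^ 2 =
      ∑ i : Fin d, (y (3 * i + 1) - x (3 * i)) ^ 2 := by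
    intro x y
    refine Finset.sum_congr rfl fun i _ => ?_
    rw [vx x y i i.2, vy]
  have hH : ∀ x y : ℕ → ℝ, (ipFm' d φ).Holds (mixv E x y) ↔
      ((fun c : Fin d => x (3 * c)) ∈ solSet d φ ∧ 0 < x 2 ∧
    ((fun c : Fin d => y (3 * c + 1)) ∈ solSet d φ →
      ∑ i : Fin d, (y (3 * i + 1) - x (3 * i)) ^ 2 < x 2 ^ 2 →
      (fun c : Fin d => y (3 * c + 1)) = fun c : Fin d => x (3 * c))) := by
    intro x y
    rw [holds_ipFm', ex, ey, es, v2]
  simp only [hH]
  constructor
  · rintro ⟨x, hx, ε, hε, h⟩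
    refine ⟨fun i => if i = 2 then ε else xt x (i / 3), fun y => ?_⟩
    have e1 : (fun c : Fin d => (fun i : ℕ => if i = 2 then ε else xt x (i / 3)) (3 * c)) = x := by
      funext c
      simp only
      rw [if_neg (by omega), show 3 * (c : ℕ) / 3 = c by omega]
      exact xt_fin x c
    have e1' : ∀ c : Fin d, (fun i : ℕ => if i = 2 then ε else xt x (i / 3)) (3 * c) = x c :=
      fun c => congrFun e1 c
    refine ⟨by rw [e1]; exact hx, by simpa using hε, fun hy hlt => ?_⟩
    rw [e1]
    refine h _ hy ?_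
    simp only [e1'] at hlt
    simpa using hlt
  · rintro ⟨x, h⟩
    refine ⟨fun c => x (3 * c), (h fun _ => 0).1, x 2, (h fun _ => 0).2.1, fun y hy hlt => ?_⟩
    have h1 := (h fun i => xt y (i / 3)).2.2
    have e1 : (fun c : Fin d => (fun i : ℕ => xt y (i / 3)) (3 * c + 1)) = y := by
      funext c
      simp only
      rw [show (3 * (c : ℕ) + 1) / 3 = c by omega]
      exact xt_fin y c
    have e1' : ∀ c : Fin d, (fun i : ℕ => xt y (i / 3)) (3 * c + 1) = y c :=
      fun c => congrFun e1 c
    simp only [e1'] at h1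
    exact h1 hy hlt

theorem poly_ipSent' : Poly ipSent' := by
  have hd : UPoly (fun a : List Unit × Fm => a.1.length) := UPoly.length (Poly.fst Poly.id)
  have hφ : Poly (fun a : List Unit × Fm => a.2) := Poly.snd Poly.id
  have hc : Poly (fun q : (List Unit × Fm) × ℕ => 3 * q.2) :=
    NPC.Poly.mul (NPC.Poly.const 3) (Poly.snd Poly.id)
  have hc1 : Poly (fun q : (List Unit × Fm) × ℕ => 3 * q.2 + 1) := NPC.Poly.succ hc
  have hx : Poly (fun q : (List Unit × Fm) × ℕ => Tm.var (3 * q.2)) := poly_tvar hc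
  have hy : Poly (fun q : (List Unit × Fm) × ℕ => Tm.var (3 * q.2 + 1)) := poly_tvar hc1
  have hdf : Poly (fun q : (List Unit × Fm) × ℕ => dfT q.2) := poly_tadd hy (poly_tneg hx)
  unfold ipSent' ipFm'
  refine Poly.pair (Poly.cons (NPC.Poly.const 2)
    (NPC.Poly.map (F := fun _ n => 3 * n) hd.range hc)) ?_
  refine poly_conj (Poly.cons (poly_rFm (s := fun (_ : List Unit × Fm) c => 3 * c)
    hd.toPoly hc hφ) (Poly.cons (poly_flt (NPC.Poly.const _) (NPC.Poly.const _))
    (Poly.cons (poly_for (poly_fnot (poly_fand (poly_rFm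
      (s := fun (_ : List Unit × Fm) c => 3 * c + 1) hd.toPoly hc1 hφ)
      (poly_flt (poly_sumT (NPC.Poly.map (F := fun _ c => Tm.mul (dfT c) (dfT c)) hd.range
        (poly_tmul hdf hdf))) (NPC.Poly.const _))))
      (poly_conj (NPC.Poly.map (F := fun _ c => Fm.eq (Tm.var (3 * c + 1)) (Tm.var (3 * c)))
        hd.range (poly_feq hy hx)))) (NPC.Poly.const []))))

theorem memFm : InEAR (lang IsoPointFm) := InEAR.of_poly (f := ipSent') poly_ipSent'
  isoPointFm_iff

/-! ### Hardness -/

/-- Translation of explicit polynomials into terms. -/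
def toFm (a : List Unit × QF) : List Unit × Fm := (a.1, subF a.1.length Tm.var a.2)

theorem solSet_toFm (d : ℕ) (φ : QF) : solSet d (subF d Tm.var φ) = gallery d φ := by
  ext x
  change (subF d Tm.var φ).Holds (xt x) ↔ _
  rw [holds_subF]
  have : (fun c : Fin d => (Tm.var (c : ℕ)).eval (xt x)) = x := by
    funext c
    exact xt_fin x c
  rw [this]

theorem poly_toFm : Poly toFm :=
  Poly.pair (Poly.fst Poly.id) (poly_subF (σ := fun (_ : List Unit × QF) c => Tm.var c)
    (UPoly.length (Poly.fst Poly.id)).toPoly (poly_tvar (Poly.snd Poly.id)) (Poly.snd Poly.id))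

theorem isoPointFm_toFm (a : List Unit × QF) : IsoPointFm (toFm a) ↔ IsoPoint a := by
  unfold IsoPointFm IsoPoint toFm
  simp only
  rw [solSet_toFm]

/-- The version for arbitrary terms. -/
theorem both (h : EARComplete (lang IsoPoint)) (hp : Poly instI)
    (hr : ∀ p, EAR p ↔ IsoPoint (instI p)) :
    EARComplete (lang IsoPoint) ∧ EARComplete (lang IsoPointFm) := by
  refine ⟨h, memFm, ?_⟩
  exact EARHard.of_poly (F := fun p => toFm (instI p)) (poly_toFm.comp hp) fun p =>
    (hr p).trans (isoPointFm_toFm _).symm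

end Pool.Agent.NPC.Q230IP
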