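import Pool.Agent.Q230.IP.FmV
import Pool.Agent.Q102.IP.Pll

/-!
# Project IP: the version for formulas of the language `(0, 1, +, ·, <, =)`
-/

namespace Pool.Agent.NPC.Q230IP

open Pool.Agent.NPC Pool.Agent.NPC.ER Pool.Agent.NPC.H612 Pool.Agent.Q230.IP Pool.Agent.Q47.IP

/-- The allowed symbols: all symbols except `-` and `≤`, and only the variables `0, …, d-1`. -/
def okTok (d : ℕ) : Tok → Bool
  | .var i => decide (i < d)
  | .neg => false
  | .le => false
  | _ => true

/-- `φ` is a quantifier-free formula of the language `(0, 1, +, ·, <, =)` in the variables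
`0, …, d-1`. -/
def InLang (d : ℕ) (φ : Fm) : Prop := ∀ t ∈ φ.toks, okTok d t = true

/-- The problem for formulas of the language `(0, 1, +, ·, <, =)`. -/
def IsoPointL (a : List Unit × Fm) : Prop := InLang a.1.length a.2 ∧ IsoPointFm a

theorem inLang_iff (d : ℕ) (φ : Fm) : InLang d φ ↔ (φ.toks.any fun t => !okTok d t) = false := by
  unfold InLang
  rw [List.any_eq_false]
  simp

section

variable {α : Type} [TEnc α]

theorem poly_okTok {d : α → ℕ} {t : α → Tok} (hd : Poly d) (ht : Poly t) :
    Poly fun a => okTok (d a) (t a) := by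
  have hc : Poly (fun a => (t a).code) := poly_tok_code ht
  refine Poly.congr (f := fun a => bif decide ((t a).code.1 = 0) then
    decide ((t a).code.2 < d a) else (!decide ((t a).code.1 = 4) && !decide ((t a).code.1 = 8)))
    ?_ fun a => ?_
  · exact Poly.cond (Poly.decide_eq (Poly.fst hc) (Poly.const 0))
      (Poly.decide_lt (Poly.snd hc) hd) (Poly.and
      (Poly.not (Poly.decide_eq (Poly.fst hc) (Poly.const 4)))
      (Poly.not (Poly.decide_eq (Poly.fst hc) (Poly.const 8))))
  · cases h : t a <;> rfl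

theorem poly_inLang {d : α → ℕ} {φ : α → Fm} (hd : Poly d) (hφ : Poly φ) :
    Poly fun a => (φ a).toks.any fun t => !okTok (d a) t :=
  Poly.any (p := fun a t => !okTok (d a) t) (poly_toks hφ)
    (Poly.not (poly_okTok (hd.comp (Poly.fst Poly.id)) (Poly.snd Poly.id)))

end

/-- The sentence of the problem. -/
def ipSentL (a : List Unit × Fm) : List ℕ × Fm :=
  bif a.2.toks.any fun t => !okTok a.1.length t then ([], Fm.ff) else ipSent' a

theorem isoPointL_iff (a : List Unit × Fm) : IsoPointL a ↔ EAR (ipSentL a) := by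
  unfold IsoPointL ipSentL
  rw [inLang_iff]
  cases h : a.2.toks.any fun t => !okTok a.1.length t
  · simp only [true_and, cond_false]
    exact isoPointFm_iff a
  · simp only [reduceCtorEq, false_and, cond_true, false_iff]
    rintro ⟨x, hx⟩
    exact lt_irrefl _ (hx x)

theorem poly_ipSentL : Poly ipSentL :=
  Poly.cond (poly_inLang (UPoly.length (Poly.fst Poly.id)).toPoly (Poly.snd Poly.id))
    (Poly.const _) poly_ipSent'

theorem memL : InEAR (lang IsoPointL) := InEAR.of_poly (f := ipSentL) poly_ipSentL isoPointL_iff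

/-! ### Hardness -/

/-- All symbols of a word are allowed. -/
def Ok (d : ℕ) (l : List Tok) : Prop := ∀ t ∈ l, okTok d t = true

theorem Ok.append {d : ℕ} {l l' : List Tok} (h : Ok d l) (h' : Ok d l') : Ok d (l ++ l') := by
  intro t ht
  rcases List.mem_append.1 ht with ht | ht
  · exact h t ht
  · exact h' t ht

theorem Ok.one {d : ℕ} {t : Tok} (h : okTok d t = true) : Ok d [t] := by
  intro s hs
  rw [List.mem_singleton] at hs
  rw [hs]
  exact h

theorem ok_natT (d : ℕ) (l : List Bool) : Ok d (natT l).toks := by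
  induction l with
  | nil => exact Ok.one rfl
  | cons b l ih =>
    change Ok d (((natT l).toks ++ twoT.toks ++ [Tok.mul]) ++
      Tm.toks (if b then Tm.one else Tm.zero) ++ [Tok.add])
    refine Ok.append (Ok.append (Ok.append (Ok.append ih ?_) (Ok.one rfl)) ?_) (Ok.one rfl)
    · exact Ok.append (Ok.append (Ok.one rfl) (Ok.one rfl)) (Ok.one rfl)
    · cases b <;> exact Ok.one rfl

theorem ok_intT (d : ℕ) {c : ℤ} (hc : 0 ≤ c) : Ok d (intT c).toks := by
  unfold intT
  rw [if_neg (not_lt.2 hc)]
  exact ok_natT d _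

theorem ok_sumT {d : ℕ} {l : List Tm} (h : ∀ t ∈ l, Ok d t.toks) : Ok d (sumT l).toks := by
  induction l with
  | nil => exact Ok.one rfl
  | cons a l ih =>
    change Ok d (a.toks ++ (sumT l).toks ++ [Tok.add])
    exact Ok.append (Ok.append (h a (by simp)) (ih fun t ht => h t (by simp [ht]))) (Ok.one rfl)

theorem ok_prodT {d : ℕ} {l : List Tm} (h : ∀ t ∈ l, Ok d t.toks) : Ok d (prodT l).toks := by
  induction l with
  | nil => exact Ok.one rfl
  | cons a l ih =>
    change Ok d (a.toks ++ (prodT l).toks ++ [Tok.mul])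
    exact Ok.append (Ok.append (h a (by simp)) (ih fun t ht => h t (by simp [ht]))) (Ok.one rfl)

theorem ok_pT {d : ℕ} {p : PolyData} (h : ∀ t ∈ p, 0 ≤ t.1) : Ok d (pT d Tm.var p).toks := by
  unfold pT
  refine ok_sumT fun t ht => ?_
  obtain ⟨s, hs, rfl⟩ := List.mem_map.1 ht
  change Ok d ((intT s.1).toks ++ _ ++ [Tok.mul])
  refine Ok.append (Ok.append (ok_intT d (h s hs)) (ok_prodT fun u hu => ?_)) (Ok.one rfl)
  obtain ⟨i, _, rfl⟩ := List.mem_map.1 hu
  split_ifs with hi
  · refine Ok.one ?_
    simp [okTok, hi]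
  · exact Ok.one rfl

/-- The terms with nonnegative coefficients. -/
def posP (p : PolyData) : PolyData := p.filter fun t => !decide (t.1 < 0)

/-- The opposite of the sum of the terms with negative coefficients. -/
def negP (p : PolyData) : PolyData := negL (p.filter fun t => decide (t.1 < 0))

theorem wval_posP_negP (x : ℕ → ℝ) (p : PolyData) :
    wval x p = wval x (posP p) - wval x (negP p) := by
  induction p with
  | nil => simp [posP, negP, negL, wval]
  | cons a p ih =>
    have e1 : wval x (a :: p) = (a.1 : ℝ) * (a.2.map x).prod + wval x p := by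
      simp [wval]
    rw [e1, ih]
    by_cases h : a.1 < 0
    · have h1 : posP (a :: p) = posP p := by simp [posP, List.filter_cons, h]
      have h2 : negP (a :: p) = (-a.1, a.2) :: negP p := by
        simp [negP, negL, List.filter_cons, h]
      have h3 : wval x (negP (a :: p)) = -((a.1 : ℝ) * (a.2.map x).prod) + wval x (negP p) := by
        rw [h2]
        simp [wval]
      rw [h1, h3]
      ring
    · have h1 : posP (a :: p) = a :: posP p := by simp [posP, List.filter_cons, h]
      have h2 : negP (a :: p) = negP p := by simp [negP, negL, List.filter_cons, h]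
      have h3 : wval x (posP (a :: p)) = (a.1 : ℝ) * (a.2.map x).prod + wval x (posP p) := by
        rw [h1]
        simp [wval]
      rw [h2, h3]
      ring

theorem nonneg_posP (p : PolyData) : ∀ t ∈ posP p, 0 ≤ t.1 := by
  intro t ht
  have := (List.mem_filter.1 ht).2
  simpa using this

theorem nonneg_negP (p : PolyData) : ∀ t ∈ negP p, 0 ≤ t.1 := by
  intro t ht
  obtain ⟨s, hs, rfl⟩ := List.mem_map.1 ht
  have := (List.mem_filter.1 hs).2
  simp only [decide_eq_true_eq] at this
  simp only [Left.nonneg_neg_iff]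
  exact this.le

/-- Translation of explicit polynomials into the language `(0, 1, +, ·, <, =)`. -/
def strF (d : ℕ) (φ : QF) : Fm :=
  φ.tr (fun p => Fm.eq (pT d Tm.var (posP p)) (pT d Tm.var (negP p)))
    (fun p => Fm.lt (pT d Tm.var (negP p)) (pT d Tm.var (posP p)))
    (fun p => Fm.or (Fm.lt (pT d Tm.var (negP p)) (pT d Tm.var (posP p)))
      (Fm.eq (pT d Tm.var (posP p)) (pT d Tm.var (negP p))))

theorem ok_strF (d : ℕ) (φ : QF) : InLang d (strF d φ) := by
  change Ok d (strF d φ).toks
  have hp : ∀ p : PolyData, Ok d (pT d Tm.var (posP p)).toks := fun p => ok_pT (nonneg_posP p)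
  have hn : ∀ p : PolyData, Ok d (pT d Tm.var (negP p)).toks := fun p => ok_pT (nonneg_negP p)
  induction φ with
  | eqZ p => exact Ok.append (Ok.append (hp p) (hn p)) (Ok.one rfl)
  | gtZ p => exact Ok.append (Ok.append (hn p) (hp p)) (Ok.one rfl)
  | geZ p =>
    exact Ok.append (Ok.append (Ok.append (Ok.append (hn p) (hp p)) (Ok.one rfl))
      (Ok.append (Ok.append (hp p) (hn p)) (Ok.one rfl))) (Ok.one rfl)
  | not φ ih => exact Ok.append ih (Ok.one rfl)
  | and φ ψ ih1 ih2 => exact Ok.append (Ok.append ih1 ih2) (Ok.one rfl)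
  | or φ ψ ih1 ih2 => exact Ok.append (Ok.append ih1 ih2) (Ok.one rfl)

theorem solSet_strF (d : ℕ) (φ : QF) : solSet d (strF d φ) = gallery d φ := by
  ext x
  change (strF d φ).Holds (xt x) ↔ φ.Val (wval (xt x))
  have hx : (fun c : Fin d => (Tm.var (c : ℕ)).eval (xt x)) = x := by
    funext c
    exact xt_fin x c
  have e : ∀ p : PolyData, (pT d Tm.var p).eval (xt x) = wval (xt x) p := fun p => by
    rw [eval_pT, hx]
  refine QF.holds_tr φ (fun p _ => ?_) (fun p _ => ?_) (fun p _ => ?_)
  · rw [Fm.Holds, e, e, wval_posP_negP (xt x) p, sub_eq_zero]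
  · rw [Fm.Holds, e, e, wval_posP_negP (xt x) p, sub_pos]
  · rw [Fm.Holds, Fm.Holds, Fm.Holds, e, e, wval_posP_negP (xt x) p, sub_nonneg, le_iff_lt_or_eq,
      eq_comm (a := wval (xt x) (posP p))]

section

variable {α : Type} [TEnc α]

theorem poly_posP {p : α → PolyData} (hp : Poly p) : Poly fun a => posP (p a) :=
  Poly.filter (p := fun _ (t : ℤ × List ℕ) => !decide (t.1 < 0)) hp
    (Poly.not (Q102IP.int_sign (Poly.fst (Poly.snd Poly.id))))

theorem poly_negP {p : α → PolyData} (hp : Poly p) : Poly fun a => negP (p a) :=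
  Q102IP.p_negL (Poly.filter (p := fun _ (t : ℤ × List ℕ) => decide (t.1 < 0)) hp
    (Q102IP.int_sign (Poly.fst (Poly.snd Poly.id))))

theorem poly_strF {d : α → ℕ} {φ : α → QF} (hd : Poly d) (hφ : Poly φ) :
    Poly fun a => strF (d a) (φ a) := by
  have hv : Poly (fun q : (α × PolyData) × ℕ => Tm.var q.2) := poly_tvar (Poly.snd Poly.id)
  have h1 : Poly (fun q : α × PolyData => pT (d q.1) Tm.var (posP q.2)) :=
    poly_pT (σ := fun (_ : α × PolyData) c => Tm.var c) (hd.comp (Poly.fst Poly.id)) hv
      (poly_posP (Poly.snd Poly.id))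
  have h2 : Poly (fun q : α × PolyData => pT (d q.1) Tm.var (negP q.2)) :=
    poly_pT (σ := fun (_ : α × PolyData) c => Tm.var c) (hd.comp (Poly.fst Poly.id)) hv
      (poly_negP (Poly.snd Poly.id))
  unfold strF
  exact poly_tr (e := fun a p => Fm.eq (pT (d a) Tm.var (posP p)) (pT (d a) Tm.var (negP p)))
    (g := fun a p => Fm.lt (pT (d a) Tm.var (negP p)) (pT (d a) Tm.var (posP p)))
    (h := fun a p => Fm.or (Fm.lt (pT (d a) Tm.var (negP p)) (pT (d a) Tm.var (posP p)))
      (Fm.eq (pT (d a) Tm.var (posP p)) (pT (d a) Tm.var (negP p)))) hφ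
    (poly_feq h1 h2) (poly_flt h2 h1) (poly_for (poly_flt h2 h1) (poly_feq h1 h2))

end

/-- The reduction. -/
def toL (a : List Unit × QF) : List Unit × Fm := (a.1, strF a.1.length a.2)

theorem poly_toL : Poly toL :=
  Poly.pair (Poly.fst Poly.id) (poly_strF (UPoly.length (Poly.fst Poly.id)).toPoly
    (Poly.snd Poly.id))

theorem isoPointL_toL (a : List Unit × QF) : IsoPointL (toL a) ↔ IsoPoint a := by
  unfold IsoPointL IsoPointFm IsoPoint toL
  simp only
  rw [solSet_strF]
  exact ⟨fun h => h.2, fun h => ⟨ok_strF _ _, h⟩⟩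

/-- The versions for the language `(0, 1, +, ·, <, =)` and for explicit polynomials. -/
theorem both' (h : EARComplete (lang IsoPoint)) (hp : Poly instI)
    (hr : ∀ p, EAR p ↔ IsoPoint (instI p)) :
    EARComplete (lang IsoPointL) ∧ EARComplete (lang IsoPoint) := by
  refine ⟨⟨memL, ?_⟩, h⟩
  exact EARHard.of_poly (F := fun p => toL (instI p)) (poly_toL.comp hp) fun p =>
    (hr p).trans (isoPointL_toL _).symm

end Pool.Agent.NPC.Q230IP
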