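import Pool.Agent.Q230.IP.Defs
import Pool.Agent.H612.GalHard

/-!
# Project IP: the instance and the formula

Polynomials are lists of terms `(c, [i₁, …, iᵣ])`.  The names of the variables of the formula are
natural numbers:
* `8 j` : the term `z j` of the chain `z 0 = 2`, `z (j+1) = z j ^ 2`;
* `8 j + 1` : the parameter with position `j`;
* `8 l + 2` : `x l`;
* `8 (i n + l) + 3` : coordinate `l` of the node `i`;
* `8 ((i T + t)(2n+7) + j) + 4` : the power `(uu t (v i))^j`;
* `8 i + 5` : `lam i`;
* `6` : the scale `s`; `8 (1 + l) + 6` : `s` times coordinate `l` of the test point;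
  `8 (1 + n + t (2n+7) + j) + 6` : `s` times the power `(uu t w)^j` at the test point `w`;
* `7` : the value `V`.
-/

namespace Pool.Agent.Q230.IP

open Pool.Agent.NPC Pool.Agent.NPC.ER Pool.Agent.NPC.H612

/-! ### The instance -/

/-- Auxiliary size. -/
def C0 (n : ℕ) : ℕ := (n + 1) ^ 4 + (n + 3) ^ 2

/-- The exponent in the lower bound of positive polynomials. -/
def NE (n : ℕ) : ℕ := 5 ^ n * (7 + 4 * n + (17 + 16 * n) * C0 n)

/-- The length of the chain of squares. -/
def QQ (n : ℕ) : ℕ := 7 + 7 * n + (17 + 16 * n) * C0 n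

/-- The polynomial of a constraint in the coordinates. -/
def cw0 (V : List ℕ) : Con → PolyData
  | .one i => [(1, [V.idxOf i]), (-1, [])]
  | .add i j k => [(1, [V.idxOf i]), (1, [V.idxOf j]), (-1, [V.idxOf k])]
  | .mul i j k => [(1, [V.idxOf i, V.idxOf j]), (-1, [V.idxOf k])]

/-- All constraints: those of the system, `v_{m} = 1 + ∑_{l<m} v_l²` and
`v_{m+j+1} = v_{m+j}²` for `j < q`. -/
def gsys (V : List ℕ) (S : List Con) (m q : ℕ) : List PolyData :=
  S.map (cw0 V) ++
    (([(1, [m]), (-1, [])] ++ (List.range m).map fun l => ((-1 : ℤ), [l, l])) ::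
      (List.range q).map fun j => [((1 : ℤ), [m + j + 1]), (-1, [m + j, m + j])])

/-- The existential coordinates. -/
def EL (E V : List ℕ) : List ℕ := (List.range V.length).filter fun j => isE E (V.getD j 0)

/-- The polynomial of a list of terms, in `n` variables. -/
noncomputable def toMv (n : ℕ) (g : PolyData) : MvPolynomial (Fin n) ℤ :=
  (g.map fun a => MvPolynomial.C a.1 *
    (a.2.map fun i => if h : i < n then MvPolynomial.X ⟨i, h⟩ else 0).prod).sum

/-- The data given by the number of coordinates, the existential coordinates, the distinguished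
coordinate and the constraints. -/
noncomputable def mkDat (n : ℕ) (el : List ℕ) (o : Fin n) (gs : List PolyData) : Dat n where
  E := fun l => decide ((l : ℕ) ∈ el)
  o := o
  P := (gs.map fun g => toMv n g ^ 2).sum

/-- The number of coordinates for a system with `m` variables. -/
def nn (m : ℕ) : ℕ := m + QQ m + 1

/-- The data of a sentence `(E, φ)`, with `S = sysOf (¬φ)`. -/
noncomputable def datS (E : List ℕ) (S : List Con) : Dat (nn (varsOf S).length) :=
  mkDat (nn (varsOf S).length) (EL E (varsOf S))
    ⟨(varsOf S).length + QQ (varsOf S).length, by unfold nn; omega⟩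
    (gsys (varsOf S) S (varsOf S).length (QQ (varsOf S).length))

/-! ### Numbers -/

/-- `DB ≤ 2 ^ dl`. -/
def dl (n : ℕ) : ℕ :=
  1 + ((LL n (TT n) + 1) * ((n + 2) ^ 2 * (2 * n + 9) + 1) + 1) * LL n (TT n)

/-- The threshold is the term `k0` of the chain. -/
def k0 (n : ℕ) : ℕ := (n + 1) * TT n + dl n + 1

/-- The distance of the indices of two successive parameters in the chain. -/
def gg (n : ℕ) : ℕ := dl n + LL n (TT n) + 1

/-- Auxiliary size. -/
def c1 (n w : ℕ) : ℕ := 10 + 3 * LL n (TT n) + (n + TT n * n) * (2 * n + 8) + w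

/-- The index of the first parameter in the chain; the norm of the polynomial is at most `2^w`. -/
def p0 (n w : ℕ) : ℕ :=
  2 * dl n * (LL n (TT n) + 1) +
    ((n + 2) ^ 2 + c1 n w) * (n + 2) ^ 2 * (LL n (TT n) + 1) + dl n + k0 n + 2 + dl n + 3

/-- The length of the chain. -/
def La (n w : ℕ) : ℕ := p0 n w + gg n * LL n (TT n) + k0 n + 1

/-- The terms of the chain. -/
noncomputable def zz (j : ℕ) : ℝ := 2 ^ 2 ^ j

/-- The hierarchical sequence. -/
noncomputable def ss (n w : ℕ) (i : ℕ) : ℝ := zz (p0 n w + gg n * i)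

/-- The bound of the norm for an instance is `2 ^ ww`. -/
def ww (S : List Con) : ℕ :=
  9 * S.length + ((varsOf S).length + 2) ^ 2 + 4 * QQ (varsOf S).length

/-! ### Lists of terms -/

/-- Product. -/
def mulL (p q : PolyData) : PolyData := p.flatMap fun a => q.map fun b => (a.1 * b.1, a.2 ++ b.2)

/-- Opposite. -/
def negL (p : PolyData) : PolyData := p.map fun a => (-a.1, a.2)

/-- Powers of the scale `s` (name `6`) for the test point, nothing for a node. -/
def sL (h : Bool) (k : ℕ) : List ℕ := if h then List.replicate k 6 else []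

/-- Substitution of the coordinates (base `cv`) in a polynomial of degree at most 2, and
homogenization. -/
def homL (h : Bool) (cv : ℕ) (g : PolyData) : PolyData :=
  g.map fun a => (a.1, a.2.map (fun i => cv + 8 * i) ++ sL h (2 - a.2.length))

/-- The derivative with respect to the variable `l` of a polynomial of degree at most 2. -/
def pdL (l : ℕ) (g : PolyData) : PolyData :=
  g.flatMap fun a =>
    (if a.2.length = 1 ∧ a.2.getD 0 0 = l then [(a.1, [])] else []) ++
    ((if a.2.length = 2 ∧ a.2.getD 0 0 = l then [(a.1, [a.2.getD 1 0])] else []) ++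
     (if a.2.length = 2 ∧ a.2.getD 1 0 = l then [(a.1, [a.2.getD 0 0])] else []))

/-- `Φ` at the node with base `cv`; homogeneous of degree 4 in the case of the test point. -/
def phiL (el : List ℕ) (gs : List PolyData) (h : Bool) (cv : ℕ) : PolyData :=
  (el.flatMap fun l => [((1 : ℤ), [cv + 8 * l, cv + 8 * l] ++ sL h 2),
    (-2, [cv + 8 * l, 8 * l + 2] ++ sL h 3), (1, [8 * l + 2, 8 * l + 2] ++ sL h 4)]) ++
  gs.flatMap fun g => mulL (homL h cv g) (homL h cv g)

/-- The name of the power `j` of `uu t`, with base `cu`. -/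
def nu (n cu t j : ℕ) : ℕ := cu + 8 * (t * (2 * n + 7) + j)

/-- The objective; homogeneous of degree 6 in the case of the test point. -/
def FL (n T : ℕ) (el : List ℕ) (gs : List PolyData) (o : ℕ) (h : Bool) (cv cu : ℕ) : PolyData :=
  mulL [((1 : ℤ), [9] ++ sL h 2), (1, [9, cv + 8 * o, cv + 8 * o])] (phiL el gs h cv) ++
  (((List.range T).map fun t => ((1 : ℤ), [17, nu n cu t (2 * n + 6)] ++ sL h 5)) ++
  (((List.range n).map fun l => ((-1 : ℤ), [1, 8 * l + 2, 8 * l + 2, 8 * l + 2, 8 * l + 2] ++ sL h 6)) ++
  (((List.range n).map fun l => ((1 : ℤ), [8 * (3 + l) + 1, 8 * l + 2] ++ sL h 6)) ++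
  (((List.range T).flatMap fun t => (List.range (2 * n + 2)).map fun j =>
    ((1 : ℤ), [8 * (3 + n + (t * (2 * n + 2) + j)) + 1, nu n cu t j] ++ sL h 5)) ++
  ((List.range T).flatMap fun t => (List.range n).flatMap fun l => (List.range (n + 1)).map fun j =>
    ((1 : ℤ), [8 * (3 + n + T * (2 * n + 2) + ((t * n + l) * (n + 1) + j)) + 1, nu n cu t j,
      cv + 8 * l] ++ sL h 4))))))

/-- The derivative of `Φ` with respect to `v l` at a node. -/
def phiD (el : List ℕ) (gs : List PolyData) (cv l : ℕ) : PolyData :=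
  (if l ∈ el then [((2 : ℤ), [cv + 8 * l]), (-2, [8 * l + 2])] else []) ++
  gs.flatMap fun g => mulL [(2, [])] (mulL (homL false cv g) (homL false cv (pdL l g)))

/-- The derivative of the objective with respect to `v l` at a node. -/
def dvL (n T : ℕ) (el : List ℕ) (gs : List PolyData) (o : ℕ) (cv cu l : ℕ) : PolyData :=
  (if l = o then mulL [((2 : ℤ), [9, cv + 8 * o])] (phiL el gs false cv) else []) ++
  (mulL [((1 : ℤ), [9]), (1, [9, cv + 8 * o, cv + 8 * o])] (phiD el gs cv l) ++
  (((List.range T).map fun t => ((((2 * n + 6) * t ^ min l n : ℕ) : ℤ), [17, nu n cu t (2 * n + 5)])) ++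
  (((List.range T).flatMap fun t => (List.range (2 * n + 2)).map fun j =>
    (((j * t ^ min l n : ℕ) : ℤ), [8 * (3 + n + (t * (2 * n + 2) + j)) + 1, nu n cu t (j - 1)])) ++
  (((List.range T).flatMap fun t => (List.range n).flatMap fun l' =>
    (List.range (n + 1)).map fun j =>
    (((j * t ^ min l n : ℕ) : ℤ), [8 * (3 + n + T * (2 * n + 2) + ((t * n + l') * (n + 1) + j)) + 1,
      nu n cu t (j - 1), cv + 8 * l'])) ++
  ((List.range T).flatMap fun t => (List.range (n + 1)).map fun j =>
    ((1 : ℤ), [8 * (3 + n + T * (2 * n + 2) + ((t * n + l) * (n + 1) + j)) + 1,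
      nu n cu t j]))))))

/-- The derivative of the objective with respect to `x l` at a node. -/
def dxL (el : List ℕ) (o cv l : ℕ) : PolyData :=
  (if l ∈ el then mulL [((1 : ℤ), [9]), (1, [9, cv + 8 * o, cv + 8 * o])]
    [(-2, [cv + 8 * l]), (2, [8 * l + 2])] else []) ++
  [(-4, [1, 8 * l + 2, 8 * l + 2, 8 * l + 2]), (1, [8 * (3 + l) + 1])]

/-! ### Names and formulas -/

/-- All names. -/
def names (n T La : ℕ) : List ℕ :=
  ((List.range La).map fun j => 8 * j) ++
  (((List.range (LL n T)).map fun j => 8 * j + 1) ++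
  (((List.range n).map fun j => 8 * j + 2) ++
  (((List.range ((n + 1) * n)).map fun j => 8 * j + 3) ++
  (((List.range ((n + 1) * T * (2 * n + 7))).map fun j => 8 * j + 4) ++
  (((List.range (n + 1)).map fun j => 8 * j + 5) ++
  (((List.range (1 + n + T * (2 * n + 7))).map fun j => 8 * j + 6) ++ [7]))))))

/-- Renaming by the positions in the list of names. -/
def ren (W : List ℕ) (p : PolyData) : PolyData := p.map fun a => (a.1, a.2.map fun i => W.idxOf i)

/-- The equation `p = 0`. -/
def eqW (W : List ℕ) (p : PolyData) : QF := QF.eqZ (ren W p)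

/-- The base of the coordinates of the node `i`. -/
def bV (n i : ℕ) : ℕ := 8 * (i * n) + 3

/-- The base of the powers at the node `i`. -/
def bU (n T i : ℕ) : ℕ := 8 * (i * T * (2 * n + 7)) + 4

/-- The equations of the chain and of the parameters. -/
def chainQ (W : List ℕ) (n T La p g : ℕ) : List QF :=
  (eqW W [(1, [0]), (-2, [])]) ::
  (((List.range (La - 1)).map fun j => eqW W [(1, [8 * (j + 1)]), (-1, [8 * j, 8 * j])]) ++
  ((List.range (LL n T)).map fun j =>
    if j = 1 then eqW W [(1, [8 * j + 1]), (-1, [8 * (p + g * j)])]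
    else eqW W [(1, [8 * j + 1, 8 * (p + g * j)]), (-1, [])]))

/-- The equations of the powers of the forms `uu t`. -/
def powQ (W : List ℕ) (n T : ℕ) (h : Bool) (cv cu : ℕ) : List QF :=
  (List.range T).flatMap fun t =>
    (eqW W [((1 : ℤ), [nu n cu t 0]), (-1, sL h 1)]) ::
    ((List.range (2 * n + 6)).map fun j =>
      eqW W (((1 : ℤ), nu n cu t (j + 1) :: sL h 1) ::
        (List.range n).map fun l => (-((t ^ min l n : ℕ) : ℤ), [nu n cu t j, cv + 8 * l])))

/-- The Karush-Kuhn-Tucker system for `(r, t)`. -/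
def kktQ (W : List ℕ) (n T : ℕ) (el : List ℕ) (gs : List PolyData) (o r t : ℕ) : List QF :=
  ((List.range (r + 1)).map fun i =>
    eqW W (FL n T el gs o false (bV n i) (bU n T i) ++ [(-1, [7])])) ++
  (((List.range (r + 1)).flatMap fun i => (List.range n).map fun l =>
    eqW W (dvL n T el gs o (bV n i) (bU n T i) l)) ++
  ((eqW W (((List.range (r + 1)).map fun i => ((1 : ℤ), [8 * i + 5])) ++ [(-1, [])])) ::
  (((List.range n).map fun l => eqW W ((List.range (r + 1)).flatMap fun i =>
    mulL [(1, [8 * i + 5])] (dxL el o (bV n i) l))) ++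
  (((List.range (r + 1)).flatMap fun i => (List.range i).map fun i' =>
    QF.not (eqW W [(1, [nu n (bU n T i) t 1]), (-1, [nu n (bU n T i') t 1])])) ++
  ((List.range (n - r)).flatMap fun k =>
    (eqW W [(1, [8 * (r + 1 + k) + 5])]) ::
      (List.range n).map fun l => eqW W [(1, [bV n (r + 1 + k) + 8 * l])])))))

/-- Disjunction of a list. -/
def qor (l : List QF) : QF := QF.not (qall (l.map QF.not))

/-- The main part. -/
def mainQ (W : List ℕ) (n T La p g : ℕ) (el : List ℕ) (gs : List PolyData) (o : ℕ) : QF :=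
  QF.and (qall (chainQ W n T La p g ++ (List.range (n + 1)).flatMap fun i =>
      powQ W n T false (bV n i) (bU n T i)))
    (qor ((List.range (n + 1)).flatMap fun r => (List.range T).map fun t =>
      qall (kktQ W n T el gs o r t)))

/-- The base of the coordinates of the test point. -/
def bVt : ℕ := 8 * 1 + 6

/-- The base of the powers at the test point. -/
def bUt (n : ℕ) : ℕ := 8 * (1 + n) + 6

/-- The test part: all test coordinates vanish. -/
def zeroQ (W : List ℕ) (n T : ℕ) : QF :=
  qall ((List.range (1 + n + T * (2 * n + 7))).map fun j => eqW W [(1, [8 * j + 6])])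

/-- The test part: the test point violates the inequality. -/
def violQ (W : List ℕ) (n T k : ℕ) (el : List ℕ) (gs : List PolyData) (o : ℕ) : QF :=
  qall (QF.gtZ (ren W [(1, [6])]) ::
    (QF.gtZ (ren W (((1 : ℤ), 8 * k :: sL true 6) :: negL (FL n T el gs o true bVt (bUt n)))) ::
      powQ W n T true bVt (bUt n)))

/-- The whole formula. -/
def isoQ (W : List ℕ) (n T La p g k : ℕ) (el : List ℕ) (gs : List PolyData) (o : ℕ) : QF :=
  QF.and (mainQ W n T La p g el gs o) (QF.or (zeroQ W n T) (violQ W n T k el gs o))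

/-! ### The problem and the reduction -/

/-- `S ⊆ ℝ^d` has an isolated point. -/
def HasIso {d : ℕ} (S : Set (Fin d → ℝ)) : Prop :=
  ∃ x ∈ S, ∃ ε > 0, ∀ y ∈ S, ∑ i, (y i - x i) ^ 2 < ε ^ 2 → y = x

/-- The problem: does a semialgebraic set have an isolated point?  The dimension is written in
unary. -/
def IsoPoint (a : List Unit × QF) : Prop := HasIso (gallery a.1.length a.2)

/-- The formula of the instance. -/
def instQ (E : List ℕ) (S : List Con) : QF :=
  let m := (varsOf S).length
  let n := nn m
  let w := ww S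
  isoQ (names n (TT n) (La n w)) n (TT n) (La n w) (p0 n w) (gg n) (k0 n) (EL E (varsOf S))
    (gsys (varsOf S) S m (QQ m)) (m + QQ m)

/-- The reduction. -/
def instI (p : List ℕ × Fm) : List Unit × QF :=
  let S := sysOf (Fm.not p.2)
  let n := nn (varsOf S).length
  (List.replicate (names n (TT n) (La n (ww S))).length (), instQ p.1 S)

end Pool.Agent.Q230.IP
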