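import Pool.Agent.Q230.IP.St

/-!
# Project IP: every maximizer solves a system
-/

namespace Pool.Agent.Q230.IP

theorem n_le_TT (n : ℕ) : n ≤ TT n := by
  unfold TT
  calc n ≤ n + 1 := by omega
    _ = (n + 1) ^ 1 := by ring
    _ ≤ (n + 1) ^ 3 := Nat.pow_le_pow_right (by omega) (by norm_num)

/-- An admissible parameter vector lies in a box. -/
theorem exists_box {n T : ℕ} (p : Par n T → ℝ) (hp : Adm p) :
    ∃ lo hi : ℝ, 0 < lo ∧ InBox lo hi p := by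
  refine ⟨min (p (Sum.inl 0)) (p (Sum.inl 2)), ∑ i, |p i|, lt_min hp.1 hp.2.2,
    min_le_left _ _, hp.2.1, min_le_right _ _, fun i => ?_⟩
  exact Finset.single_le_sum (f := fun i => |p i|) (fun _ _ => abs_nonneg _) (Finset.mem_univ i)

theorem kkt (h1 : S_dan) (h2 : S_sep) (h3 : S_FFD) (h4 : S_FFC) : S_kkt := by
  intro n A hn hP p hp x V hV
  obtain ⟨c1, c2, c3, c4⟩ := h3 n (TT n) A
  obtain ⟨lo, hi, hlo, hbox⟩ := exists_box p hp
  obtain ⟨d1, d2⟩ := h4 n (TT n) A hn (n_le_TT n) hP lo hi hlo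
  have hc : Continuous (fun z : (Fin n → ℝ) × (Fin n → ℝ) => A.FF p z.1 z.2) :=
    c1.comp (continuous_const.prodMk continuous_id)
  obtain ⟨r, hr, v, lam, hinj, hval, hgv, hsum, hgx⟩ := h1 n (A.FF p) (A.FFX p) (A.FFV p) x V hc
    (c2 p) (c3 p) (c4 p) (fun B M => by
      obtain ⟨R, hR⟩ := d1 B M
      exact ⟨R, fun x v hx hv => hR p hbox x v hx hv⟩) hV
  obtain ⟨t, ht⟩ := h2 n r v hr hinj
  exact ⟨r, hr, t, v, lam, hval, hgv, hsum, hgx, ht⟩

end Pool.Agent.Q230.IP
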