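import Pool.Agent.Q230.IP.St2
import Pool.Agent.H612.Gap

/-!
# Project IP: lower bounds at infinity of positive polynomials of degree 4
-/

namespace Pool.Agent.Q230.IP

open Pool.Agent.H612 Filter Topology Finset

/-- The norm `2 ^ degree` on real polynomials. -/
noncomputable def RB : RNorm (Polynomial ℝ) where
  ν := fun f => by classical exact if f = 0 then 0 else 2 ^ f.natDegree
  zero := by simp
  one := by simp
  neg := fun f => by
    classical
    simp
  add := fun f g => by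
    classical
    by_cases hf : f = 0
    · simp [hf]
    by_cases hg : g = 0
    · simp [hg]
    by_cases hfg : f + g = 0
    · simp [hfg]
    rw [if_neg hf, if_neg hg, if_neg hfg]
    have h := Polynomial.natDegree_add_le f g
    rcases le_total f.natDegree g.natDegree with h1 | h1
    · rw [max_eq_right h1] at h
      exact (Nat.pow_le_pow_right (by norm_num) h).trans (Nat.le_add_left _ _)
    · rw [max_eq_left h1] at h
      exact (Nat.pow_le_pow_right (by norm_num) h).trans (Nat.le_add_right _ _)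
  mul := fun f g => by
    classical
    by_cases hf : f = 0
    · simp [hf]
    by_cases hg : g = 0
    · simp [hg]
    rw [if_neg hf, if_neg hg, if_neg (mul_ne_zero hf hg), ← pow_add]
    exact Nat.pow_le_pow_right (by norm_num) Polynomial.natDegree_mul_le

theorem RB_C (a : ℝ) : RB.ν (Polynomial.C a) ≤ 1 := by
  classical
  show (if Polynomial.C a = 0 then 0 else 2 ^ (Polynomial.C a).natDegree) ≤ 1
  split_ifs with h
  · exact Nat.zero_le _
  · simp

theorem RB_X : RB.ν (Polynomial.X : Polynomial ℝ) = 2 := by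
  classical
  show (if (Polynomial.X : Polynomial ℝ) = 0 then 0 else 2 ^ (Polynomial.X : Polynomial ℝ).natDegree) = 2
  rw [if_neg Polynomial.X_ne_zero, Polynomial.natDegree_X]
  norm_num

theorem natDegree_le_of_RB {f : Polynomial ℝ} {k : ℕ} (h : RB.ν f ≤ 2 ^ k) : f.natDegree ≤ k := by
  classical
  by_cases hf : f = 0
  · simp [hf]
  · have h1 : RB.ν f = 2 ^ f.natDegree := by
      show (if f = 0 then 0 else 2 ^ f.natDegree) = _
      rw [if_neg hf]
    rw [h1] at h
    exact (Nat.pow_le_pow_iff_right (by norm_num)).1 h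

section crit

variable {K : Type} [CommRing K] (nr : RNorm K) {N : ℕ}

/-- At a minimiser the critical equations hold and the value is given by `6 U - ∑ z ∂U`. -/
theorem min_crit' (U : MvPolynomial (Fin N) K) (pe : K) (φ : K →+* ℝ) (e : ℝ) (hφe : φ pe = e)
    (he : 0 < e) (z : Fin N → ℝ)
    (hz : ∀ y, U.eval₂ φ z + S6 z / (6 * e) ≤ U.eval₂ φ y + S6 y / (6 * e)) :
    IsCrit (fun i => -(MvPolynomial.C pe * MvPolynomial.pderiv i U)) φ z ∧
    (MvPolynomial.C 6 * U - ∑ i, MvPolynomial.X i * MvPolynomial.pderiv i U).eval₂ φ z =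
      6 * (U.eval₂ φ z + S6 z / (6 * e)) := by
  classical
  have key : ∀ i, z i ^ 5 = -(e * (MvPolynomial.pderiv i U).eval₂ φ z) := by
    intro i
    have hd1 := hasDerivAt_eval₂ φ z i U
    have hd2 : HasDerivAt (fun t : ℝ => S6 (Function.update z i t)) (6 * z i ^ 5) (z i) := by
      have h1 : ∀ t : ℝ, S6 (Function.update z i t) = t ^ 6 + ∑ j ∈ univ.erase i, z j ^ 6 := by
        intro t
        unfold S6
        rw [← Finset.add_sum_erase univ _ (mem_univ i), Function.update_self]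
        congr 1
        apply Finset.sum_congr rfl
        intro j hj
        rw [Function.update_of_ne (Finset.ne_of_mem_erase hj)]
      have h2 : (fun t : ℝ => S6 (Function.update z i t)) =
          fun t : ℝ => t ^ 6 + ∑ j ∈ univ.erase i, z j ^ 6 := funext h1
      rw [h2]
      have h3 := (hasDerivAt_pow 6 (z i)).add_const (∑ j ∈ univ.erase i, z j ^ 6)
      simpa using h3
    have hd := hd1.add (hd2.div_const (6 * e))
    have hmin : IsLocalMin ((fun t : ℝ => U.eval₂ φ (Function.update z i t))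
        + fun t : ℝ => S6 (Function.update z i t) / (6 * e)) (z i) := by
      apply Filter.Eventually.of_forall
      intro t
      simp only [Pi.add_apply, Function.update_eq_self]
      exact hz _
    have h0 := hmin.hasDerivAt_eq_zero hd
    have he' : e ≠ 0 := ne_of_gt he
    field_simp at h0
    linarith
  refine ⟨?_, ?_⟩
  · intro i
    rw [key i]
    simp only [MvPolynomial.eval₂_neg, MvPolynomial.eval₂_mul, MvPolynomial.eval₂_C, hφe]
  · have h1 : (MvPolynomial.eval₂ φ z
        (∑ i, MvPolynomial.X i * MvPolynomial.pderiv i U)) = -(S6 z / e) := by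
      rw [MvPolynomial.eval₂_sum]
      unfold S6
      rw [Finset.sum_div, ← Finset.sum_neg_distrib]
      apply Finset.sum_congr rfl
      intro i _
      rw [MvPolynomial.eval₂_mul, MvPolynomial.eval₂_X]
      have h2 : z i ^ 6 = z i * z i ^ 5 := by ring
      rw [h2, key i]
      field_simp
    rw [MvPolynomial.eval₂_sub, h1, MvPolynomial.eval₂_mul, MvPolynomial.eval₂_C]
    have h3 : φ 6 = 6 := map_ofNat _ 6
    rw [h3]
    field_simp
    ring

/-- The relation for the minimal value. -/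
theorem relation' (U : MvPolynomial (Fin N) K) (pe : K) (hpe : nr.ν pe ≤ 1) (C : ℕ) (hC1 : 1 ≤ C)
    (hU : DegLE U 4) (hC : nr.mν U ≤ C) :
    ∃ χ : Polynomial K, χ.Monic ∧
      nr.poly.ν χ ≤ (1 + (6 + 4 * N) * C * (4 * C) ^ (4 + 4 * N)) ^ (5 ^ N) ∧
      ∀ (φ : K →+* ℝ) (z : Fin N → ℝ), 0 < φ pe →
        (∀ y, U.eval₂ φ z + S6 z / (6 * φ pe) ≤ U.eval₂ φ y + S6 y / (6 * φ pe)) →
        χ.eval₂ φ (6 * (U.eval₂ φ z + S6 z / (6 * φ pe))) = 0 := by
  have hV : ∀ i, nr.mν (-(MvPolynomial.C pe * MvPolynomial.pderiv i U)) ≤ 4 * C := by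
    intro i
    refine (nr.mν_neg _).trans ((nr.mν_mul _ _).trans ?_)
    rw [nr.mν_C]
    have h3 := nr.mν_pderiv U 4 hU i
    calc nr.ν pe * nr.mν (MvPolynomial.pderiv i U) ≤ 1 * (4 * C) :=
          Nat.mul_le_mul hpe (h3.trans (Nat.mul_le_mul_left _ hC))
      _ = 4 * C := one_mul _
  have hVd : ∀ i, DegLE (-(MvPolynomial.C pe * MvPolynomial.pderiv i U)) 4 := fun i =>
    ((hU.pderiv i).C_mul _).neg.mono (by norm_num)
  have hWd : DegLE (MvPolynomial.C 6 * U - ∑ i, MvPolynomial.X i * MvPolynomial.pderiv i U) 4 := by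
    apply DegLE.sub (hU.C_mul _)
    apply DegLE.sum
    intro i _
    have := (degLE_X (R := K) i).mul (hU.pderiv i)
    exact this.mono (by norm_num)
  have hWn : nr.mν (MvPolynomial.C 6 * U - ∑ i, MvPolynomial.X i * MvPolynomial.pderiv i U) ≤
      (6 + 4 * N) * C := by
    refine (nr.mν_sub _ _).trans ?_
    have h5 : nr.mν (MvPolynomial.C 6 * U) ≤ 6 * C := by
      refine (nr.mν_mul _ _).trans ?_
      rw [nr.mν_C]
      have h6 : nr.ν 6 ≤ 6 := by
        have := nr.natCast 6
        simpa using this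
      exact Nat.mul_le_mul h6 hC
    have h7 : nr.mν (∑ i, MvPolynomial.X i * MvPolynomial.pderiv i U) ≤ 4 * N * C := by
      refine (nr.mν_sum _ _).trans ?_
      have h8 : ∀ i ∈ (univ : Finset (Fin N)),
          nr.mν (MvPolynomial.X i * MvPolynomial.pderiv i U) ≤ 4 * C := by
        intro i _
        refine (nr.mν_mul _ _).trans ?_
        have h3 := nr.mν_pderiv U 4 hU i
        calc nr.mν (MvPolynomial.X i : MvPolynomial (Fin N) K) *
              nr.mν (MvPolynomial.pderiv i U) ≤ 1 * (4 * C) :=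
              Nat.mul_le_mul (nr.mν_X i) (h3.trans (Nat.mul_le_mul_left _ hC))
          _ = 4 * C := one_mul _
      refine (Finset.sum_le_sum h8).trans ?_
      simp only [Finset.sum_const, Finset.card_univ, Fintype.card_fin, smul_eq_mul]
      apply le_of_eq
      ring
    calc _ ≤ 6 * C + 4 * N * C := Nat.add_le_add h5 h7
      _ = (6 + 4 * N) * C := by ring
  obtain ⟨χ, hmonic, hχν, hχ⟩ := value_root nr (fun i => -(MvPolynomial.C pe * MvPolynomial.pderiv i U))
    (4 * C) (by omega) hVd hV _ 4 hWd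
  refine ⟨χ, hmonic, ?_, ?_⟩
  · refine hχν.trans ?_
    apply Nat.pow_le_pow_left
    apply Nat.add_le_add_left
    exact Nat.mul_le_mul_right _ hWn
  · intro φ z hpe' hz
    obtain ⟨c1, c2⟩ := min_crit' U pe φ (φ pe) rfl hpe' z hz
    have h6 := hχ φ z c1
    rwa [c2] at h6

end crit

/-- The number of monomials of degree at most 4. -/
theorem card_support_le {N : ℕ} {R : Type} [CommSemiring R] (p : MvPolynomial (Fin N) R)
    (h : p.totalDegree ≤ 4) : p.support.card ≤ (N + 1) ^ 4 := by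
  classical
  let F : (Fin 4 → Option (Fin N)) → (Fin N →₀ ℕ) := fun f =>
    ∑ k, (f k).elim 0 (fun i => Finsupp.single i 1)
  have hsub : p.support ⊆ Finset.univ.image F := by
    intro d hd
    have h1 : (d.sum fun _ e => e) ≤ 4 := (MvPolynomial.le_totalDegree hd).trans h
    have h2 : d.toMultiset.card ≤ 4 := by
      rw [Finsupp.card_toMultiset]
      exact h1
    obtain ⟨l, hl⟩ := Quot.exists_rep d.toMultiset
    have hl' : (l : Multiset (Fin N)) = d.toMultiset := hl
    have h3 : l.length ≤ 4 := by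
      rw [← Multiset.coe_card, hl']
      exact h2
    have h4 : d = (l.map fun i => Finsupp.single i 1).sum := by
      have h5 : Multiset.toFinsupp (l : Multiset (Fin N)) = d := by
        rw [hl']
        exact Finsupp.toMultiset_toFinsupp d
      rw [← h5]
      clear h5 hl hl' h3 h2 h1 hd
      induction l with
      | nil => simp
      | cons a l ih =>
        rw [List.map_cons, List.sum_cons, ← ih, ← Multiset.cons_coe, ← Multiset.singleton_add,
          map_add, Multiset.toFinsupp_singleton]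
    rw [Finset.mem_image]
    refine ⟨fun k => l[(k : ℕ)]?, Finset.mem_univ _, ?_⟩
    rw [h4]
    show ∑ k : Fin 4, _ = _
    clear h4 h1 h2 hl hl' hd
    match l, h3 with
    | [], _ => simp
    | [a], _ => simp [Fin.sum_univ_four]
    | [a, b], _ => simp [Fin.sum_univ_four]
    | [a, b, c], _ => simp [Fin.sum_univ_four, add_assoc]
    | [a, b, c, e], _ => simp [Fin.sum_univ_four, add_assoc]
    | a :: b :: c :: e :: g :: t, h => simp at h; omega
  refine (Finset.card_le_card hsub).trans (Finset.card_image_le.trans ?_)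
  simp

/-! ### The objective -/

section obj

variable {K : Type} [CommRing K] (nr : RNorm K) (ι : ℝ →+* K) (kB ka : K)

/-- `1 + ∑ z² - B`. -/
noncomputable def hG (N : ℕ) : MvPolynomial (Fin N) K :=
  1 + (∑ i : Fin N, MvPolynomial.X i ^ 2) - MvPolynomial.C kB

/-- The objective. -/
noncomputable def oU {N : ℕ} (p : MvPolynomial (Fin N) ℝ) : MvPolynomial (Fin N) K :=
  MvPolynomial.map ι p + MvPolynomial.C ka * (hG kB N * hG kB N)

theorem eval_oU {N : ℕ} (p : MvPolynomial (Fin N) ℝ) (φ : K →+* ℝ) (B a : ℝ)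
    (h1 : ∀ x, φ (ι x) = x) (h2 : φ kB = B) (h3 : φ ka = a) (z : Fin N → ℝ) :
    (oU ι kB ka p).eval₂ φ z =
      MvPolynomial.eval z p + a * (1 + ∑ i, z i ^ 2 - B) ^ 2 := by
  have e1 : (MvPolynomial.map ι p).eval₂ φ z = MvPolynomial.eval z p := by
    rw [MvPolynomial.eval₂_map]
    have : φ.comp ι = RingHom.id ℝ := by
      ext x
      exact h1 x
    rw [this]
    rfl
  have e2 : (hG kB N).eval₂ φ z = 1 + ∑ i, z i ^ 2 - B := by
    unfold hG
    rw [MvPolynomial.eval₂_sub, MvPolynomial.eval₂_add, MvPolynomial.eval₂_one,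
      MvPolynomial.eval₂_sum, MvPolynomial.eval₂_C, h2]
    simp [MvPolynomial.eval₂_pow]
  unfold oU
  rw [MvPolynomial.eval₂_add, MvPolynomial.eval₂_mul, MvPolynomial.eval₂_mul, e1, e2,
    MvPolynomial.eval₂_C, h3]
  ring

theorem deg_hG (N : ℕ) : DegLE (hG kB N) 2 := by
  unfold hG
  refine DegLE.sub (DegLE.add ?_ ?_) (degLE_C _ _)
  · have : (1 : MvPolynomial (Fin N) K) = MvPolynomial.C 1 := by simp
    rw [this]
    exact degLE_C _ _
  · apply DegLE.sum
    intro i _
    rw [sq]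
    exact (degLE_X i).mul (degLE_X i)

theorem deg_oU {N : ℕ} (p : MvPolynomial (Fin N) ℝ) (hp : p.totalDegree ≤ 4) :
    DegLE (oU ι kB ka p) 4 := by
  unfold oU
  exact ((degLE_of_totalDegree hp).map _).add (((deg_hG kB N).mul (deg_hG kB N)).C_mul _)

theorem nrm_hG (hB : nr.ν kB ≤ 2) (N : ℕ) : nr.mν (hG kB N) ≤ N + 3 := by
  unfold hG
  refine (nr.mν_sub _ _).trans ?_
  have h1 : nr.mν (MvPolynomial.C kB : MvPolynomial (Fin N) K) ≤ 2 := by
    rw [RNorm.mν_C]
    exact hB
  have h2 : nr.mν (1 + ∑ i : Fin N, MvPolynomial.X i ^ 2 : MvPolynomial (Fin N) K) ≤ 1 + N := by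
    refine (nr.mν_add _ _).trans (Nat.add_le_add nr.mν_one ?_)
    refine (nr.mν_sum _ _).trans ?_
    have : ∀ i ∈ (univ : Finset (Fin N)), nr.mν (MvPolynomial.X i ^ 2 :
        MvPolynomial (Fin N) K) ≤ 1 := by
      intro i _
      rw [sq]
      exact (nr.mν_mul _ _).trans (Nat.mul_le_mul (nr.mν_X i) (nr.mν_X i))
    refine (Finset.sum_le_sum this).trans ?_
    simp
  omega

theorem nrm_oU {N : ℕ} (p : MvPolynomial (Fin N) ℝ) (hp : p.totalDegree ≤ 4)
    (hι : ∀ x, nr.ν (ι x) ≤ 1) (hB : nr.ν kB ≤ 2) (ha : nr.ν ka ≤ 1) :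
    nr.mν (oU ι kB ka p) ≤ C0 N := by
  unfold oU C0
  refine (nr.mν_add _ _).trans (Nat.add_le_add ?_ ?_)
  · rw [nr.mν_eq_of_subset (MvPolynomial.support_map_subset ι p)]
    have : ∀ d ∈ p.support, nr.ν ((MvPolynomial.map ι p).coeff d) ≤ 1 := by
      intro d _
      rw [MvPolynomial.coeff_map]
      exact hι _
    refine (Finset.sum_le_sum this).trans ?_
    rw [Finset.sum_const, smul_eq_mul, mul_one]
    exact card_support_le p hp
  · refine (nr.mν_mul _ _).trans ?_
    rw [RNorm.mν_C]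
    have h2 := nr.mν_mul (hG kB N) (hG kB N)
    have h3 := Nat.mul_le_mul (nrm_hG nr kB hB N) (nrm_hG nr kB hB N)
    calc nr.ν ka * nr.mν (hG kB N * hG kB N)
        ≤ 1 * ((N + 3) * (N + 3)) := Nat.mul_le_mul ha (h2.trans h3)
      _ = (N + 3) ^ 2 := by ring

end obj

theorem bound_le (N : ℕ) :
    (1 + (6 + 4 * N) * C0 N * (4 * C0 N) ^ (4 + 4 * N)) ^ (5 ^ N) ≤ 2 ^ NE N := by
  have h2 : ∀ x : ℕ, x ≤ 2 ^ x := fun x => Nat.lt_two_pow_self.le
  have hC : 1 ≤ C0 N := by
    unfold C0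
    have : 1 ≤ (N + 1) ^ 4 := Nat.one_le_pow _ _ (by omega)
    omega
  have hx : 1 ≤ (6 + 4 * N) * C0 N * (4 * C0 N) ^ (4 + 4 * N) := by
    have : 1 ≤ (4 * C0 N) ^ (4 + 4 * N) := Nat.one_le_pow _ _ (by omega)
    exact Nat.mul_pos (Nat.mul_pos (by omega) hC) this
  have h3 : 1 + (6 + 4 * N) * C0 N * (4 * C0 N) ^ (4 + 4 * N) ≤
      2 ^ (7 + 4 * N + (17 + 16 * N) * C0 N) := by
    calc 1 + (6 + 4 * N) * C0 N * (4 * C0 N) ^ (4 + 4 * N)
        ≤ 2 * ((6 + 4 * N) * C0 N * (4 * C0 N) ^ (4 + 4 * N)) := by omega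
      _ ≤ 2 * (2 ^ (6 + 4 * N) * 2 ^ C0 N * (2 ^ (4 * C0 N)) ^ (4 + 4 * N)) :=
          Nat.mul_le_mul_left _ (Nat.mul_le_mul (Nat.mul_le_mul (h2 _) (h2 _))
            (Nat.pow_le_pow_left (h2 _) _))
      _ = 2 ^ (7 + 4 * N + (17 + 16 * N) * C0 N) := by
          rw [← pow_mul]
          have : 7 + 4 * N + (17 + 16 * N) * C0 N =
              1 + ((6 + 4 * N) + C0 N + 4 * C0 N * (4 + 4 * N)) := by ring
          rw [this, pow_add, pow_add, pow_add]
          ring
  calc _ ≤ (2 ^ (7 + 4 * N + (17 + 16 * N) * C0 N)) ^ (5 ^ N) := Nat.pow_le_pow_left h3 _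
    _ = 2 ^ NE N := by
        rw [← pow_mul]
        unfold NE
        congr 1
        ring

/-- The ring of the coefficients. -/
abbrev K3 : Type := Polynomial (Polynomial (Polynomial ℝ))

/-- The inclusion of the constants. -/
noncomputable def iota3 : ℝ →+* K3 := (Polynomial.C.comp Polynomial.C).comp Polynomial.C

/-- The relation for the minima on the spheres. -/
theorem sphere_relation {N : ℕ} (p : MvPolynomial (Fin N) ℝ) (hp : p.totalDegree ≤ 4) :
    ∃ χ : Polynomial (Polynomial ℝ), χ ≠ 0 ∧ (∀ j, (χ.coeff j).natDegree ≤ NE N) ∧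
      ∀ (B g : ℝ), {z : Fin N → ℝ | 1 + ∑ i, z i ^ 2 = B}.Nonempty →
        IsGLB ((fun z => MvPolynomial.eval z p) '' {z : Fin N → ℝ | 1 + ∑ i, z i ^ 2 = B}) g →
        χ.eval₂ (Polynomial.evalRingHom B) (6 * g) = 0 := by
  classical
  have hC1 : 1 ≤ C0 N := by
    unfold C0
    have : 1 ≤ (N + 1) ^ 4 := Nat.one_le_pow _ _ (by omega)
    omega
  have hpe : RB.poly.poly.ν (Polynomial.C Polynomial.X) ≤ 1 := by
    rw [RNorm.poly_C]
    exact RNorm.poly_X _
  have hpa : RB.poly.poly.ν Polynomial.X ≤ 1 := RNorm.poly_X _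
  have hpB : RB.poly.poly.ν (Polynomial.C (Polynomial.C Polynomial.X)) ≤ 2 := by
    rw [RNorm.poly_C, RNorm.poly_C, RB_X]
  have hpι : ∀ x : ℝ, RB.poly.poly.ν (iota3 x) ≤ 1 := by
    intro x
    unfold iota3
    simp only [RingHom.comp_apply]
    rw [RNorm.poly_C, RNorm.poly_C]
    exact RB_C _
  obtain ⟨χ, hmonic, hχν, hχ⟩ := relation' RB.poly.poly
    (oU iota3 (Polynomial.C (Polynomial.C Polynomial.X)) Polynomial.X p)
    (Polynomial.C Polynomial.X) hpe
    (C0 N) hC1 (deg_oU _ _ _ p hp) (nrm_oU _ _ _ _ p hp hpι hpB hpa)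
  obtain ⟨χ1, hχ1, hν1, hlim1⟩ := limit_step RB.poly χ hmonic.ne_zero
  obtain ⟨χ2, hχ2, hν2, hlim2⟩ := limit_step RB χ1 hχ1
  refine ⟨χ2, hχ2, ?_, ?_⟩
  · intro j
    apply natDegree_le_of_RB
    refine (RB.ν_coeff_le χ2 j).trans (hν2.trans (hν1.trans (hχν.trans (bound_le N))))
  · intro B g hZne hg
    have hpc : Continuous (fun z : Fin N → ℝ => MvPolynomial.eval z p) := by
      exact eval₂_cont (RingHom.id ℝ) p
    obtain ⟨c0, hc0, hb0⟩ := eval₂_quartic (RingHom.id ℝ) p (degLE_of_totalDegree hp)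
    have hco : ∀ e > 0, Tendsto (fun z : Fin N → ℝ => MvPolynomial.eval z p + S6 z / (6 * e))
        (cocompact _) atTop := fun e he => coercive _ c0 hb0 hc0 e he
    have hZ : {z : Fin N → ℝ | 1 + ∑ i, z i ^ 2 = B} =
        {z : Fin N → ℝ | (1 + ∑ i, z i ^ 2 - B) ^ 2 = 0} := by
      ext z
      simp only [Set.mem_ofPred_eq]
      rw [sq_eq_zero_iff, sub_eq_zero]
    have hGc : Continuous (fun z : Fin N → ℝ => (1 + ∑ i, z i ^ 2 - B) ^ 2) := by fun_prop
    have hme : ∀ e : ℝ, ∃ m : ℝ, 0 < e →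
        IsGLB ((fun z : Fin N → ℝ => MvPolynomial.eval z p + S6 z / (6 * e)) ''
          {z : Fin N → ℝ | 1 + ∑ i, z i ^ 2 = B}) m := by
      intro e
      by_cases he : 0 < e
      · have hcF : Continuous
            (fun z : Fin N → ℝ => MvPolynomial.eval z p + S6 z / (6 * e)) :=
          hpc.add (S6_cont.div_const _)
        obtain ⟨x, hx⟩ := hcF.exists_forall_le (hco e he)
        obtain ⟨m, hm⟩ := Real.exists_isGLB (hZne.image
          (fun z : Fin N → ℝ => MvPolynomial.eval z p + S6 z / (6 * e)))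
          ⟨_, by rintro _ ⟨z, _, rfl⟩; exact hx z⟩
        exact ⟨m, fun _ => hm⟩
      · exact ⟨0, fun h => absurd h he⟩
    choose me hme using hme
    have hreg := tendsto_reg (fun z : Fin N → ℝ => MvPolynomial.eval z p) S6 S6_nonneg
      {z : Fin N → ℝ | 1 + ∑ i, z i ^ 2 = B} g hg me hZne hme
    apply hlim2 (Polynomial.evalRingHom B) (fun e => 6 * me e) (6 * g) (hreg.const_mul 6)
    filter_upwards [eventually_gt_atTop (0:ℝ)] with e he
    have hcF : ∀ a : ℝ, Continuous
        (fun z : Fin N → ℝ => (MvPolynomial.eval z p + S6 z / (6 * e)) +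
          a * (1 + ∑ i, z i ^ 2 - B) ^ 2) := by
      intro a
      exact (hpc.add (S6_cont.div_const _)).add (continuous_const.mul hGc)
    have hcoa : ∀ a > 0, Tendsto
        (fun z : Fin N → ℝ => (MvPolynomial.eval z p + S6 z / (6 * e)) +
          a * (1 + ∑ i, z i ^ 2 - B) ^ 2) (cocompact _) atTop := by
      intro a ha
      apply tendsto_atTop_mono _ (hco e he)
      intro z
      have := mul_nonneg ha.le (sq_nonneg (1 + ∑ i, z i ^ 2 - B))
      linarith
    have hmin : ∀ a : ℝ, ∃ x : Fin N → ℝ, 0 < a →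
        ∀ y, (MvPolynomial.eval x p + S6 x / (6 * e)) + a * (1 + ∑ i, x i ^ 2 - B) ^ 2 ≤
          (MvPolynomial.eval y p + S6 y / (6 * e)) + a * (1 + ∑ i, y i ^ 2 - B) ^ 2 := by
      intro a
      by_cases ha : 0 < a
      · obtain ⟨x, hx⟩ := (hcF a).exists_forall_le (hcoa a ha)
        exact ⟨x, fun _ => hx⟩
      · exact ⟨0, fun h => absurd h ha⟩
    choose xa hxa using hmin
    have hpen := tendsto_penalty (fun z : Fin N → ℝ => MvPolynomial.eval z p + S6 z / (6 * e))
      (fun z => (1 + ∑ i, z i ^ 2 - B) ^ 2) (hpc.add (S6_cont.div_const _)) hGc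
      (fun z => sq_nonneg _) (hco e he) (me e) (by rw [← hZ]; exact hme e he)
      (fun a => (MvPolynomial.eval (xa a) p + S6 (xa a) / (6 * e)) +
        a * (1 + ∑ i, xa a i ^ 2 - B) ^ 2)
      (by
        intro a ha
        constructor
        · rintro _ ⟨z, rfl⟩
          exact hxa a ha z
        · intro b hb
          exact hb ⟨xa a, rfl⟩)
    apply hlim1 (Polynomial.eval₂RingHom (Polynomial.evalRingHom B) e)
      (fun a => 6 * ((MvPolynomial.eval (xa a) p + S6 (xa a) / (6 * e)) +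
        a * (1 + ∑ i, xa a i ^ 2 - B) ^ 2)) (6 * me e) (hpen.const_mul 6)
    filter_upwards [eventually_gt_atTop (0:ℝ)] with a ha
    set φ : K3 →+* ℝ :=
      Polynomial.eval₂RingHom (Polynomial.eval₂RingHom (Polynomial.evalRingHom B) e) a with hφ
    have f1 : φ (Polynomial.C Polynomial.X) = e := by simp [hφ]
    have f2 : φ Polynomial.X = a := by simp [hφ]
    have f3 : φ (Polynomial.C (Polynomial.C Polynomial.X)) = B := by simp [hφ]
    have f4 : ∀ x, φ (iota3 x) = x := by
      intro x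
      simp [hφ, iota3]
    have f5 := eval_oU (K := K3) iota3 (Polynomial.C (Polynomial.C Polynomial.X))
      Polynomial.X p φ B a f4 f3 f2
    have h6 := hχ φ (xa a) (by rw [f1]; exact he) (by
      intro y
      rw [f5, f5, f1]
      have := hxa a ha y
      linarith)
    rw [f5, f1] at h6
    have h7 : 6 * ((MvPolynomial.eval (xa a) p + S6 (xa a) / (6 * e)) +
        a * (1 + ∑ i, xa a i ^ 2 - B) ^ 2) = 6 * (MvPolynomial.eval (xa a) p +
          a * (1 + ∑ i, xa a i ^ 2 - B) ^ 2 + S6 (xa a) / (6 * e)) := by ring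
    rw [h7]
    exact h6

end Pool.Agent.Q230.IP
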