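import Pool.Agent.H612.Norm

/-!
# Functions given by integer polynomials of bounded degree and norm
-/

namespace Pool.Agent.Q230.IP

open MvPolynomial Pool.Agent.H612

/-- The sum of the absolute values of the coefficients of an integer polynomial. -/
noncomputable def nrm {σ : Type} (p : MvPolynomial σ ℤ) : ℕ := RNorm.int.mν p

/-- `f` is the evaluation of an integer polynomial of total degree at most `d` whose coefficients
have sum of absolute values at most `C`. -/
def PolyFn {σ : Type} (d C : ℕ) (f : (σ → ℝ) → ℝ) : Prop :=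
  ∃ p : MvPolynomial σ ℤ, p.totalDegree ≤ d ∧ nrm p ≤ C ∧ ∀ z, aeval z p = f z

variable {σ : Type} {d d' C C' : ℕ} {f g : (σ → ℝ) → ℝ}

theorem PolyFn.mono (h : PolyFn d C f) (hd : d ≤ d') (hC : C ≤ C') : PolyFn d' C' f := by
  obtain ⟨p, h1, h2, h3⟩ := h
  exact ⟨p, h1.trans hd, h2.trans hC, h3⟩

theorem PolyFn.congr (h : PolyFn d C f) (hfg : ∀ z, f z = g z) : PolyFn d C g := by
  obtain ⟨p, h1, h2, h3⟩ := h
  exact ⟨p, h1, h2, fun z => (h3 z).trans (hfg z)⟩

theorem PolyFn.const (a : ℤ) : PolyFn 0 a.natAbs (fun _ : σ → ℝ => (a : ℝ)) := by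
  refine ⟨MvPolynomial.C a, (totalDegree_C a).le, ?_, fun z => by
    rw [algHom_C]
    simp⟩
  unfold nrm
  rw [RNorm.mν_C]
  exact le_refl _

theorem PolyFn.natCast (a : ℕ) : PolyFn 0 a (fun _ : σ → ℝ => (a : ℝ)) := by
  have := PolyFn.const (σ := σ) (a : ℤ)
  simpa using this

theorem PolyFn.zero : PolyFn 0 0 (fun _ : σ → ℝ => (0 : ℝ)) := by
  simpa using PolyFn.natCast (σ := σ) 0

theorem PolyFn.one : PolyFn 0 1 (fun _ : σ → ℝ => (1 : ℝ)) := by
  simpa using PolyFn.natCast (σ := σ) 1

theorem PolyFn.coord (i : σ) : PolyFn 1 1 (fun z : σ → ℝ => z i) := by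
  refine ⟨X i, ?_, RNorm.mν_X _ _, fun z => by simp⟩
  simp

theorem PolyFn.add (hf : PolyFn d C f) (hg : PolyFn d' C' g) :
    PolyFn (max d d') (C + C') (fun z => f z + g z) := by
  obtain ⟨p, h1, h2, h3⟩ := hf
  obtain ⟨q, k1, k2, k3⟩ := hg
  refine ⟨p + q, (totalDegree_add _ _).trans (max_le_max h1 k1),
    (RNorm.mν_add _ _ _).trans (Nat.add_le_add h2 k2), fun z => ?_⟩
  simp only [map_add, h3, k3]

theorem PolyFn.neg (hf : PolyFn d C f) : PolyFn d C (fun z => - f z) := by
  obtain ⟨p, h1, h2, h3⟩ := hf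
  refine ⟨-p, (totalDegree_neg p).le.trans h1, (RNorm.mν_neg _ _).trans h2, fun z => ?_⟩
  simp only [map_neg, h3]

theorem PolyFn.sub (hf : PolyFn d C f) (hg : PolyFn d' C' g) :
    PolyFn (max d d') (C + C') (fun z => f z - g z) := by
  simpa only [sub_eq_add_neg] using hf.add hg.neg

theorem PolyFn.mul (hf : PolyFn d C f) (hg : PolyFn d' C' g) :
    PolyFn (d + d') (C * C') (fun z => f z * g z) := by
  obtain ⟨p, h1, h2, h3⟩ := hf
  obtain ⟨q, k1, k2, k3⟩ := hg
  refine ⟨p * q, (totalDegree_mul _ _).trans (Nat.add_le_add h1 k1),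
    (RNorm.mν_mul _ _ _).trans (Nat.mul_le_mul h2 k2), fun z => ?_⟩
  simp only [map_mul, h3, k3]

theorem PolyFn.pow (hf : PolyFn d C f) (k : ℕ) : PolyFn (k * d) (C ^ k) (fun z => f z ^ k) := by
  induction k with
  | zero => simpa using PolyFn.one (σ := σ)
  | succ k ih =>
    have := ih.mul hf
    refine (this.mono (le_of_eq (by ring)) (le_of_eq (by ring))).congr fun z => ?_
    rw [pow_succ]

theorem PolyFn.sum {ι : Type} (s : Finset ι) (F : ι → (σ → ℝ) → ℝ) (c : ι → ℕ)
    (h : ∀ i ∈ s, PolyFn d (c i) (F i)) :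
    PolyFn d (∑ i ∈ s, c i) (fun z => ∑ i ∈ s, F i z) := by
  classical
  induction s using Finset.induction_on with
  | empty => simpa using PolyFn.zero.mono (Nat.zero_le d) (le_refl 0)
  | insert a s ha ih =>
    have h1 := h a (Finset.mem_insert_self _ _)
    have h2 := ih fun i hi => h i (Finset.mem_insert_of_mem hi)
    rw [Finset.sum_insert ha]
    refine ((h1.add h2).mono (by simp) (le_refl _)).congr fun z => ?_
    rw [Finset.sum_insert ha]

/-- A sum of functions with a common bound. -/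
theorem PolyFn.sum_const {ι : Type} (s : Finset ι) (F : ι → (σ → ℝ) → ℝ)
    (h : ∀ i ∈ s, PolyFn d C (F i)) :
    PolyFn d (s.card * C) (fun z => ∑ i ∈ s, F i z) := by
  have := PolyFn.sum s F (fun _ => C) h
  simpa [Finset.sum_const] using this

theorem PolyFn.prod {ι : Type} (s : Finset ι) (F : ι → (σ → ℝ) → ℝ) (k c : ι → ℕ)
    (h : ∀ i ∈ s, PolyFn (k i) (c i) (F i)) :
    PolyFn (∑ i ∈ s, k i) (∏ i ∈ s, c i) (fun z => ∏ i ∈ s, F i z) := by
  classical
  induction s using Finset.induction_on with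
  | empty => simpa using PolyFn.one (σ := σ)
  | insert a s ha ih =>
    have h1 := h a (Finset.mem_insert_self _ _)
    have h2 := ih fun i hi => h i (Finset.mem_insert_of_mem hi)
    rw [Finset.sum_insert ha, Finset.prod_insert ha]
    refine (h1.mul h2).congr fun z => ?_
    rw [Finset.prod_insert ha]

theorem PolyFn.ite {P : Prop} [Decidable P] (hf : P → PolyFn d C f) (hg : ¬ P → PolyFn d C g) :
    PolyFn d C (fun z => if P then f z else g z) := by
  by_cases h : P
  · simpa only [if_pos h] using hf h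
  · simpa only [if_neg h] using hg h

/-- Change of variables by functions given by polynomials of degree at most `1`: here just a
renaming of the variables. -/
theorem PolyFn.rename {τ : Type} (e : σ → τ) (hf : PolyFn d C f) :
    PolyFn d C (fun z : τ → ℝ => f (fun i => z (e i))) := by
  classical
  obtain ⟨p, h1, h2, h3⟩ := hf
  refine ⟨MvPolynomial.rename e p, (totalDegree_rename_le e p).trans h1, ?_, fun z => ?_⟩
  · refine le_trans ?_ h2
    unfold nrm
    conv_lhs => rw [MvPolynomial.as_sum p, map_sum]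
    refine (RNorm.mν_sum _ _ _).trans ?_
    unfold RNorm.mν
    refine Finset.sum_le_sum fun a _ => ?_
    rw [MvPolynomial.rename_monomial]
    exact le_of_eq (RNorm.mν_monomial _ _ _)
  · rw [MvPolynomial.aeval_rename]
    exact h3 _

end Pool.Agent.Q230.IP
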