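import Pool.Agent.Q230.IP.Defs

/-!
# Project IP: statements of the lemmas, with proofs on paper

Project IP: deciding whether a semialgebraic set has an isolated point is complete for the class
of the sentences `∃ x ∀ y` over the reals.
-/

namespace Pool.Agent.Q230.IP

open MvPolynomial

/-! ### Algebra: the relation between the parameters and one unknown -/

/-- JOB ALG1.  Siegel's lemma for rational functions with the common denominator `g`.
PROOF. `L = card σ`, `card I = L + 1`.  For an exponent vector `a : I → Fin D` the function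
`h_a = (∏ i, f i ^ a i) * g ^ ((L+1)*D - ∑ i, a i)` is given by an integer polynomial `H a` of total
degree at most `(L+1)*D*d` and with norm (sum of the absolute values of the coefficients) at most
`C ^ ((L+1)*D)` (closure lemmas of PolyFn; `∑ a i ≤ (L+1)*D`; `1 ≤ C`).  All exponents of all
monomials of all `H a` lie in the box `σ → Fin ((L+1)*D*d+1)`, which has
`((L+1)*D*d+1)^L ≤ (D*((L+1)*d+1))^L = D^L*((L+1)*d+1)^L` elements, and `2*((L+1)*d+1)^L ≤ D`, so the
number of the unknowns `D^(L+1)` is at least twice the number of the equations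
`∑ a, q a * coeff m (H a) = 0` (`m` in the box).  Siegel's lemma
(`Int.Matrix.exists_ne_zero_int_vec_norm_le'` in Mathlib, exponent at most 1) gives `q ≠ 0` with
`|q a| ≤ D^(L+1) * C^((L+1)*D)`.  Then `∑ a, q a • H a = 0`, hence `∑ a, q a * h_a z = 0` for all
`z`; if `g z ≠ 0`, divide by `g z ^ ((L+1)*D)`. -/
def S_siegel : Prop := ∀ (σ I : Type) [Fintype σ] [Fintype I] (d C D : ℕ),
  Fintype.card I = Fintype.card σ + 1 → 1 ≤ C →
  2 * ((Fintype.card σ + 1) * d + 1) ^ Fintype.card σ ≤ D →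
  ∀ (f : I → (σ → ℝ) → ℝ) (g : (σ → ℝ) → ℝ), (∀ i, PolyFn d C (f i)) → PolyFn d C g →
  ∃ q : (I → Fin D) → ℤ, q ≠ 0 ∧
    (∀ a, (q a).natAbs ≤ D ^ (Fintype.card σ + 1) * C ^ ((Fintype.card σ + 1) * D)) ∧
    ∀ z, g z ≠ 0 → bev q (fun i => f i z / g z) = 0

/-- JOB ALG2 (from ALG1).  Elimination of the unknowns `Y` from a square system which is linear in
the parameters `B`.
PROOF. Let `m = card B`.  Choose a bijection `E ≃ B`, so that `M z` becomes a square matrix.  Its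
determinant `g z` is given by a polynomial of degree at most `m*d` and norm at most
`m! * C^m ≤ (m*C)^m` (Leibniz formula, closure lemmas of PolyFn), and so are the Cramer determinants
`c_j z` (column `j` replaced by `r z`).  If `M z` is injective then `g z ≠ 0` and `M z b = r z`
gives `b j = c_j z / g z`.  Apply ALG1 with `σ = R ⊕ Y`, `I = Option (R ⊕ B)`, denominators `g`,
numerators `z (inr τ) * g z` for `none`, `z (inl c) * g z` for `some (inl c)`, `c_j z` for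
`some (inr j)`; their degree is at most `m*d+1` and their norm at most `(m*C)^m`. -/
def S_alg : Prop := ∀ (R Y B E : Type) [Fintype R] [Fintype Y] [Fintype B] [Fintype E]
  (d C D : ℕ), Fintype.card Y = Fintype.card B → Fintype.card E = Fintype.card B →
  1 ≤ d → 1 ≤ C →
  2 * ((Fintype.card R + Fintype.card Y + 1) * (Fintype.card B * d + 1) + 1) ^
    (Fintype.card R + Fintype.card Y) ≤ D →
  ∀ (M : (R ⊕ Y → ℝ) → E → B → ℝ) (r : (R ⊕ Y → ℝ) → E → ℝ),
  (∀ i j, PolyFn d C (fun z => M z i j)) → (∀ i, PolyFn d C (fun z => r z i)) →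
  ∀ τ : Y, ∃ q : (Option (R ⊕ B) → Fin D) → ℤ, q ≠ 0 ∧
    (∀ a, (q a).natAbs ≤ D ^ (Fintype.card R + Fintype.card Y + 1) *
      ((Fintype.card B * C) ^ Fintype.card B) ^ ((Fintype.card R + Fintype.card Y + 1) * D)) ∧
    ∀ (z : R ⊕ Y → ℝ) (b : B → ℝ), (∀ i, ∑ j, M z i j * b j = r z i) →
      (∀ b' : B → ℝ, (∀ i, ∑ j, M z i j * b' j = 0) → b' = 0) →
      bev q (fun i => i.elim (z (Sum.inr τ)) (Sum.elim (fun c => z (Sum.inl c)) b)) = 0

/-- JOB HIER.  A nonzero integer polynomial does not vanish at hierarchical points.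
PROOF. Compare two different exponent vectors `a ≠ a'`: let `i` be the index with `a i ≠ a' i` and
with the largest position `pos i`.  The ratio (or its inverse) of the two monomials is at least
`s (pos i)` divided by `s (pos i - 1) ^ ((D-1) * card P)` (all other differing indices have smaller
positions, and `s` is increasing and at least 1), hence at least `s (pos i - 1) ≥ s 0` (or `s 0` if
`pos i = 0`), because `s (pos i) ≥ s (pos i - 1) ^ e` and `e ≥ D * card P + 1`.  So among the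
monomials with nonzero coefficient there is a largest one, it is larger than each other one by the
factor `s 0 > D ^ card P * H`, its coefficient has absolute value at least 1, and the other ones
together are smaller. -/
def S_hier : Prop := ∀ (P : Type) [Fintype P] (D H e : ℕ) (q : (P → Fin D) → ℤ) (ps : P → ℕ)
  (s : ℕ → ℝ) (sg : P → Prop) [DecidablePred sg], q ≠ 0 → (∀ a, (q a).natAbs ≤ H) →
  Function.Injective ps → D * Fintype.card P + 1 ≤ e → 1 ≤ s 0 →
  (D : ℝ) ^ Fintype.card P * H < s 0 → (∀ i, s i ^ e ≤ s (i + 1)) →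
  bev q (fun i => if sg i then s (ps i) else (s (ps i))⁻¹) ≠ 0

/-- JOB INT.  Hermite interpolation.
PROOF. Put `u i = uu t (v i)` (distinct), `K i = ∑ j, a j * j * u i^(j-1) + ∑ l', ∑ j, b l' j * j *
u i^(j-1) * v i l'`.  The derivative equation for `l = 0` is `K i + ∑ j, b 0 j * u i^j = 0`
(`t^0 = 1`), and `b 0 = 0`, so `K i = 0`.  For `l ≠ 0` it becomes `∑ j, b l j * u i^j = 0` for the
`r+1` distinct `u i`, so `b l = 0` (Vandermonde, or a polynomial of degree at most `r` with `r+1`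
roots).  Then the polynomial `∑ a j X^j` of degree at most `2r+1` and its derivative vanish at the
`r+1` points `u i`, so it is divisible by `∏ (X - u i)^2` and is zero. -/
def S_interp : Prop := ∀ (n r t : ℕ) (hn : 0 < n) (v : Fin (r + 1) → Fin n → ℝ),
  (∀ i j, i ≠ j → uu t (v i) ≠ uu t (v j)) →
  ∀ (a : Fin (2 * r + 2) → ℝ) (b : Fin n → Fin (r + 1) → ℝ), b ⟨0, hn⟩ = 0 →
  (∀ i, ∑ j, a j * uu t (v i) ^ (j : ℕ) +
    ∑ l, ∑ j, b l j * (uu t (v i) ^ (j : ℕ) * v i l) = 0) →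
  (∀ i (l : Fin n), ∑ j, a j * ((j : ℕ) * (t : ℝ) ^ (l : ℕ) * uu t (v i) ^ ((j : ℕ) - 1)) +
    ∑ l', ∑ j, b l' j * ((j : ℕ) * (t : ℝ) ^ (l : ℕ) * uu t (v i) ^ ((j : ℕ) - 1) * v i l' +
      if l' = l then uu t (v i) ^ (j : ℕ) else 0) = 0) →
  a = 0 ∧ b = 0

/-- JOB REL (from ALG2, INT).  The relation between the parameters and one unknown of a
Karush-Kuhn-Tucker system.
PROOF. The system is linear in the parameters.  Solve it for the parameters
`B = Fin n ⊕ (Fin (2r+2) ⊕ (Fin (n-1) × Fin (r+1)))`, that is `p (inr (inl l))`,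
`p (inr (inr (inl (t, j))))` for `j < 2r+2` and `p (inr (inr (inr (t, (l, j)))))` for `l ≥ 1`,
`j ≤ r` (the fixed `t`); `R` is the set of all other parameters, `Y = YI n r`,
`E = Fin n ⊕ ((Fin (r+1) × Fin n) ⊕ Fin (r+1))` (the equations gx, gv, val).
`card Y = card B = card E = n + (r+1)*(n+1)` and `card R + card B = LL n T`.
The rows: for gx (`l`): `p (inr (inl l)) = - ∑ i, lam i * F0X l x (v i)` where
`lam 0 = 1 - ∑_{i≥1} lam i` is expressed by the unknowns; for gv and val the coefficients of the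
parameters are `basV l (v i)` and `bas x (v i)`, and the right hand sides are `-F0V`, `V - F0`
minus the contribution of the parameters in `R`.  All entries are integer polynomials in
`z : R ⊕ Y → ℝ` of degree at most `2n+9` and norm at most `CB n T C`
(generous; with `U = n * T^n ≥ 1`: `uu t v` has norm at most `U`, `F0` at most
`8n+2C + T*U^(2n+6) + n`, `F0V` at most `8n+10C+8 + T*(2n+6)*U^(2n+6)`, `F0X` at most 12, the
perturbations at most `LL * (2n+3) * U^(2n+2)`; the norm of `pderiv l P` is at most `4 * nrm P`,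
see `RNorm.mν_pderiv` in `Pool.Agent.H612.Deg`).  Injectivity: a vector `b'` in the kernel has zero
part in `Fin n` by the rows gx, and then INT gives `b' = 0`.  ALG2 with `d = 2n+9` and
`C = CB n T C` gives `q` on `Option (R ⊕ B)`; transport it along the bijection `R ⊕ B ≃ Par n T`.
Bounds: `card B ≤ (n+2)^2`, monotonicity. -/
def S_rel : Prop := ∀ (n T : ℕ) (A : Dat n) (C D : ℕ), 1 ≤ n → 1 ≤ C → A.P.totalDegree ≤ 4 →
  nrm A.P ≤ C → DB n T ≤ D → ∀ r ≤ n, ∀ (t : Fin T) (τ : YI n r),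
  ∃ q : (Option (Par n T) → Fin D) → ℤ, q ≠ 0 ∧ (∀ a, (q a).natAbs ≤ HB n T C D) ∧
    ∀ p x v lam V, Kkt A p r t x v lam V →
      bev q (fun i => i.elim (yv x v lam V τ) p) = 0

/-- JOB SEP.  Some form `uu t`, `t < (n+1)^3`, separates at most `n+1` distinct points.
PROOF. For `i ≠ j` the polynomial `∑ l, (v i l - v j l) X^l` is nonzero of degree less than `n`, so it
vanishes for at most `n-1` values of `t`; there are at most `n*(n+1)/2` pairs. -/
def S_sep : Prop := ∀ (n r : ℕ) (v : Fin (r + 1) → Fin n → ℝ), r ≤ n → Function.Injective v →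
  ∃ t : Fin (TT n), ∀ i j, i ≠ j → uu t (v i) ≠ uu t (v j)

/-! ### Analysis -/

/-- JOB DAN.  Necessary conditions for a maximizer of `min_v f x v` (Danskin, Caratheodory).
PROOF. Let `Y = {v | f x v = V}`.  It is compact (coercivity) and nonempty (take `y = x` in IsMM),
and every `v ∈ Y` minimizes `f x`, so `fv l x v = 0`.  Claim: `0` is in the convex hull of
`G = {(fx l x v)_l | v ∈ Y}`.  `G` is compact, so its convex hull is compact; otherwise there are
`d` and `η > 0` with `∑ d l * fx l x v ≥ η` for all `v ∈ Y`.  For `k = 1, 2, …` let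
`y_k = x + (1/k) d` and `v_k` with `f y_k v_k ≤ V` (IsMM).  The `v_k` are bounded (coercivity), pass
to a convergent subsequence, with limit `w`; `f x w ≤ V`, so `w ∈ Y`.  `f x v_k ≥ V`, so the
derivative of `h ↦ f (x + h d) v_k` is nonpositive at some `h_k ∈ (0, 1/k)` (mean value theorem), and
in the limit `∑ d l * fx l x w ≤ 0`, a contradiction.  By Caratheodory's theorem
(`convexHull_eq_union`) `0` is an affine (even convex) combination of at most `n+1` affinely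
independent points of `G`; take one `v i ∈ Y` for each of them. -/
def S_dan : Prop := ∀ (n : ℕ) (f : (Fin n → ℝ) → (Fin n → ℝ) → ℝ)
  (fx fv : Fin n → (Fin n → ℝ) → (Fin n → ℝ) → ℝ) (x : Fin n → ℝ) (V : ℝ),
  Continuous (fun z : (Fin n → ℝ) × (Fin n → ℝ) => f z.1 z.2) →
  (∀ l, Continuous (fun z : (Fin n → ℝ) × (Fin n → ℝ) => fx l z.1 z.2)) →
  (∀ x v d, HasDerivAt (fun h : ℝ => f (x + h • d) v) (∑ l, d l * fx l x v) 0) →
  (∀ x v l, HasDerivAt (fun h : ℝ => f x (Function.update v l h)) (fv l x v) (v l)) →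
  (∀ B M : ℝ, ∃ R : ℝ, ∀ x v, ‖x‖ ≤ B → R ≤ ‖v‖ → M ≤ f x v) → IsMM f x V →
  ∃ (r : ℕ) (_ : r ≤ n) (v : Fin (r + 1) → Fin n → ℝ) (lam : Fin (r + 1) → ℝ),
    Function.Injective v ∧ (∀ i, f x (v i) = V) ∧ (∀ i l, fv l x (v i) = 0) ∧
    ∑ i, lam i = 1 ∧ ∀ l, ∑ i, lam i * fx l x (v i) = 0

/-- JOB MM1.  Existence of the max-min value.
PROOF. `h x = min_v f x v` is attained by coercivity and continuous (on a ball of `x` the minimum may
be taken over a fixed ball of `v`), and tends to minus infinity by the last hypothesis, so it has a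
maximum. -/
def S_mmex : Prop := ∀ (n : ℕ) (f : (Fin n → ℝ) → (Fin n → ℝ) → ℝ),
  Continuous (fun z : (Fin n → ℝ) × (Fin n → ℝ) => f z.1 z.2) →
  (∀ B M : ℝ, ∃ R : ℝ, ∀ x v, ‖x‖ ≤ B → R ≤ ‖v‖ → M ≤ f x v) →
  (∀ M : ℝ, ∃ R : ℝ, ∀ x : Fin n → ℝ, R ≤ ‖x‖ → f x 0 ≤ M) → ∃ x V, IsMM f x V

/-- JOB MM2.  Continuity of the max-min value in the parameter.
PROOF. Let `p_k → p` with `W p_k → w` in `[-∞,∞]` (subsequences).  Lower bound: let `x` be a maximizer
for `p`; if `f p_k x v_k ≤ W p_k` with `v_k` from IsMM at `y = x`, then `v_k` is bounded if `W p_k` is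
bounded above, and a limit point `v` gives `W p ≤ f p x v ≤ w`.  Upper bound: let `x_k` be maximizers
for `p_k`; `W p_k ≤ f p_k x_k 0` and the last condition show that `x_k` is bounded as soon as `W p_k`
is bounded below (which follows from the lower bound); let `x_k → x`, and `v` with `f p x v ≤ W p`;
then `W p_k ≤ f p_k x_k v → f p x v ≤ W p`. -/
def S_mmcont : Prop := ∀ (Q : Type) [PseudoMetricSpace Q] (n : ℕ)
  (f : Q → (Fin n → ℝ) → (Fin n → ℝ) → ℝ) (W : Q → ℝ),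
  Continuous (fun z : Q × ((Fin n → ℝ) × (Fin n → ℝ)) => f z.1 z.2.1 z.2.2) →
  (∀ p, ∃ N ∈ nhds p, (∀ B M : ℝ, ∃ R : ℝ, ∀ p' ∈ N, ∀ x v, ‖x‖ ≤ B → R ≤ ‖v‖ → M ≤ f p' x v) ∧
    ∀ M : ℝ, ∃ R : ℝ, ∀ p' ∈ N, ∀ x : Fin n → ℝ, R ≤ ‖x‖ → f p' x 0 ≤ M) →
  (∀ p, ∃ x, IsMM (f p) x (W p)) → Continuous W

/-- JOB FFD.  Derivatives and continuity of the objective.
PROOF. Direct computation. -/
def S_FFD : Prop := ∀ (n T : ℕ) (A : Dat n),
  Continuous (fun z : (Par n T → ℝ) × ((Fin n → ℝ) × (Fin n → ℝ)) => A.FF z.1 z.2.1 z.2.2) ∧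
  (∀ (p : Par n T → ℝ) l,
    Continuous (fun z : (Fin n → ℝ) × (Fin n → ℝ) => A.FFX p l z.1 z.2)) ∧
  (∀ (p : Par n T → ℝ) x v d,
    HasDerivAt (fun h : ℝ => A.FF p (x + h • d) v) (∑ l, d l * A.FFX p l x v) 0) ∧
  (∀ (p : Par n T → ℝ) x v l,
    HasDerivAt (fun h : ℝ => A.FF p x (Function.update v l h)) (A.FFV p l x v) (v l))

/-- The parameters with `ρ`, `γ` at least `lo` and `α` nonnegative, all bounded by `hi`. -/
def InBox {n T : ℕ} (lo hi : ℝ) (p : Par n T → ℝ) : Prop :=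
  lo ≤ p (Sum.inl 0) ∧ 0 ≤ p (Sum.inl 1) ∧ lo ≤ p (Sum.inl 2) ∧ ∀ i, |p i| ≤ hi

/-- JOB FFC.  Coercivity of the objective, uniformly for parameters in a box.
PROOF. (1) `F ≥ γ ∑_t uu t v^(2n+6) - ρ ∑ x_l^4 - ∑ |b_i| |bas x v i|` since `P ≥ 0`, `α ≥ 0`.  The forms
`uu t`, `t < n`, are linearly independent (Vandermonde), so `∑_{t<T} (uu t v)^(2n+6) ≥ c ‖v‖^(2n+6)`,
while `|bas x v i| ≤ C (1 + ‖x‖) (1 + ‖v‖)^(2n+2)`.  (2) `F(x, 0) = α (∑_E x_l^2 + P(0)) - ρ ∑ x_l^4 +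
∑ b_i bas x 0 i` and `bas x 0 i` is at most `1 + ‖x‖` in absolute value. -/
def S_FFC : Prop := ∀ (n T : ℕ) (A : Dat n), 1 ≤ n → n ≤ T → (∀ v : Fin n → ℝ, 0 ≤ aeval v A.P) →
  ∀ lo hi : ℝ, 0 < lo →
  (∀ B M : ℝ, ∃ R : ℝ, ∀ p : Par n T → ℝ, InBox lo hi p → ∀ x v, ‖x‖ ≤ B → R ≤ ‖v‖ →
    M ≤ A.FF p x v) ∧
  ∀ M : ℝ, ∃ R : ℝ, ∀ p : Par n T → ℝ, InBox lo hi p → ∀ x : Fin n → ℝ, R ≤ ‖x‖ → A.FF p x 0 ≤ M

/-- The admissible parameters. -/
def Adm {n T : ℕ} (p : Par n T → ℝ) : Prop :=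
  0 < p (Sum.inl 0) ∧ 0 ≤ p (Sum.inl 1) ∧ 0 < p (Sum.inl 2)

/-- JOB VV (from MM1, MM2, FFD, FFC).  The max-min value as a continuous function of the
parameters.
PROOF. `W p` is the value given by MM1 for admissible `p` (unique by the definition of IsMM).
Continuity: MM2 on the subtype of the admissible parameters; a neighbourhood of `p` is contained
in a box. -/
def S_VV : Prop := ∀ (n T : ℕ) (A : Dat n), 1 ≤ n → n ≤ T → (∀ v : Fin n → ℝ, 0 ≤ aeval v A.P) →
  ∃ W : (Par n T → ℝ) → ℝ, ContinuousOn W {p | Adm p} ∧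
    (∀ p, Adm p → ∃ x, IsMM (A.FF p) x (W p)) ∧
    ∀ p, Adm p → ∀ x V, IsMM (A.FF p) x V → V = W p

/-- JOB KKT (from DAN, SEP, FFD, FFC).  Every maximizer gives a solution of some
Karush-Kuhn-Tucker system.
PROOF. DAN for `A.FF p`, then SEP. -/
def S_kkt : Prop := ∀ (n : ℕ) (A : Dat n), 1 ≤ n → (∀ v : Fin n → ℝ, 0 ≤ aeval v A.P) →
  ∀ p : Par n (TT n) → ℝ, Adm p → ∀ x V, IsMM (A.FF p) x V →
  ∃ (r : ℕ) (_ : r ≤ n) (t : Fin (TT n)) (v : Fin (r + 1) → Fin n → ℝ) (lam : Fin (r + 1) → ℝ),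
    Kkt A p r t x v lam V

/-- JOB LIMT (from VV).  The limit of the values, positive case.
PROOF. Put `ρ0 = 1`, `α0 = (θ + 2 + ∑ x0_l^4) / κ` (and at least 0).  With zero perturbation
`F(x0, v) ≥ α κ - ρ ∑ x0_l^4 > θ + 1` for all `v`, so every max-min value is at least `θ + 1`
(IsMM).  Then use the continuity of `W` at this parameter vector (the perturbation parameters are
zero there). -/
def S_limT : Prop := ∀ (n T : ℕ) (A : Dat n), 1 ≤ n → n ≤ T →
  (∀ v : Fin n → ℝ, 0 ≤ aeval v A.P) → ∀ (x0 : Fin n → ℝ) (κ : ℝ), 0 < κ →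
  (∀ v : Fin n → ℝ, κ ≤ (1 + v A.o ^ 2) * A.Phi x0 v) → ∀ θ : ℝ, ∃ ρ0 > 0, ∀ ρ, 0 < ρ → ρ ≤ ρ0 →
  ∃ α0 ≥ 0, ∀ α ≥ α0, ∀ γ > 0, ∃ ε > 0, ∀ p : Par n T → ℝ, p (Sum.inl 0) = ρ →
    p (Sum.inl 1) = α → p (Sum.inl 2) = γ → (∀ i, |p (Sum.inr i)| ≤ ε) →
    ∀ x V, IsMM (A.FF p) x V → θ < V

/-- JOB LIMF (from VV).  The limit of the values, negative case.
PROOF. Fix `ρ, α`.  For zero perturbation and `γ ≤ 1`,
`F(x, 0) = α (∑_E x_l^2 + P(0)) - ρ ∑ x_l^4 < 1/2` for `‖x‖ ≥ R(ρ, α)` (note `uu t 0 = 0`).  For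
every `y` with `‖y‖ ≤ R` choose `v_y` with `Φ(y, v_y) = 0`; then `α (1 + v_o^2) Φ(x, v_y) < 1/4`
for `x` in a neighbourhood of `y`.  Finitely many neighbourhoods cover the ball; choose `γ0 ≤ 1` with
`γ0 ∑_t (uu t v_y)^(2n+6) ≤ 1/4` for the finitely many `v_y`.  So for zero perturbation every value
is less than `1/2 + small`, say at most `1/2`, and the continuity of `W` gives `ε`. -/
def S_limF : Prop := ∀ (n T : ℕ) (A : Dat n), 1 ≤ n → n ≤ T →
  (∀ v : Fin n → ℝ, 0 ≤ aeval v A.P) → (∀ x : Fin n → ℝ, ∃ v, A.Phi x v = 0) →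
  ∀ ρ > 0, ∀ α ≥ 0, ∃ γ0 > 0, ∀ γ, 0 < γ → γ ≤ γ0 → ∃ ε > 0, ∀ p : Par n T → ℝ,
    p (Sum.inl 0) = ρ → p (Sum.inl 1) = α → p (Sum.inl 2) = γ → (∀ i, |p (Sum.inr i)| ≤ ε) →
    ∀ x V, IsMM (A.FF p) x V → V < 1

/-! ### Hierarchical parameters -/

/-- Hierarchical sequences. -/
def Hier (H : ℝ) (e : ℕ) (s : ℕ → ℝ) : Prop := 1 ≤ s 0 ∧ H < s 0 ∧ ∀ i, s i ^ e ≤ s (i + 1)

/-- JOB POS.  The positions of the parameters are distinct and smaller than `LL n T`, and
`card (Par n T) = LL n T`.  PROOF. Arithmetic. -/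
def S_pos : Prop := ∀ n T : ℕ, Function.Injective (pos n T) ∧ (∀ i, pos n T i < LL n T) ∧
  Fintype.card (Par n T) = LL n T

/-- JOB CONN.  A continuous function which avoids `θ` at all hierarchical parameter vectors is
always on the same side of `θ`.
PROOF. For hierarchical `s`, `s'` the sequences `s_τ i = s i ^ (1-τ) * s' i ^ τ` (real powers),
`τ ∈ [0,1]`, are hierarchical, the map `τ ↦ pv s_τ` is continuous into the admissible parameters;
intermediate value theorem. -/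
def S_conn : Prop := ∀ (n T e : ℕ) (H θ : ℝ) (W : (Par n T → ℝ) → ℝ),
  ContinuousOn W {p | Adm p} → (∀ s, Hier H e s → W (pv s) ≠ θ) →
  ∀ s s', Hier H e s → Hier H e s' → (W (pv s) < θ ↔ W (pv s') < θ)

/-- The first bound of a hierarchical sequence. -/
def AB (n C D K : ℕ) : ℕ :=
  D ^ (LL n (TT n) + 1) * HB n (TT n) C D * (2 * K + 2) ^ D + 1

/-- JOB THR (from REL, HIER, POS).  Thresholds which are never values.
PROOF. For every `r ≤ n`, `t` let `q` be the relation from REL for the unknown `V`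
(`τ = inr (inr (inr ()))`).  For a natural number `θ` let
`q_θ a = ∑ i : Fin D, q (none ↦ i, some j ↦ a j) * θ^i`.  Since `q ≠ 0`, some polynomial
`∑ i, q(i, a) X^i` is nonzero and has fewer than `D` roots, so `q_θ ≠ 0` for all but fewer than `D`
natural numbers `θ`.  There are at most `(n+1) * TT n` pairs `(r, t)`, so the interval `[1, K]`
contains a `θ0`, and `[K+1, 2K+1]` a `θ1`, such that `q_θ ≠ 0` for all pairs.  The coefficients of
`q_θ` are at most `D * HB * (2K+1)^D`.  By HIER (with `P = Par n T`, `ps = pos n T`,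
`sg i = (i = inl 1)`) `bev q_θ (pv s) ≠ 0` for every hierarchical `s`, while `V = θ` would give
`bev q_θ (pv s) = 0`. -/
def S_thr : Prop := ∀ (n : ℕ) (A : Dat n) (C D K e : ℕ), 1 ≤ n → 1 ≤ C → A.P.totalDegree ≤ 4 →
  nrm A.P ≤ C → DB n (TT n) ≤ D → (n + 1) * TT n * D + 1 ≤ K → D * LL n (TT n) + 1 ≤ e →
  ∃ θ0 θ1 : ℕ, 1 ≤ θ0 ∧ θ0 ≤ K ∧ K + 1 ≤ θ1 ∧ θ1 ≤ 2 * K + 1 ∧
    ∀ s, Hier (AB n C D K) e s → ∀ (r : ℕ) (_ : r ≤ n) (t : Fin (TT n)) x
      (v : Fin (r + 1) → Fin n → ℝ) lam V, Kkt (T := TT n) A (pv s) r t x v lam V →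
        V ≠ θ0 ∧ V ≠ θ1

/-- JOB FIN (from REL, HIER, POS).  Finitely many solutions.
PROOF. For each name `τ` of an unknown let `q` be the relation.  Some coefficient polynomial
`a ↦ q(i, a)` is nonzero, so by HIER it does not vanish at `pv s`: the polynomial
`∑ i, bev (q(i, ·)) (pv s) X^i` is nonzero, and its finitely many roots are the only possible values
of the unknown.  All unknowns are determined by the values `yv` (`lam 0 = 1 - ∑ lam i.succ`). -/
def S_fin : Prop := ∀ (n : ℕ) (A : Dat n) (C D K e : ℕ), 1 ≤ n → 1 ≤ C → A.P.totalDegree ≤ 4 →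
  nrm A.P ≤ C → DB n (TT n) ≤ D → D * LL n (TT n) + 1 ≤ e →
  ∀ s, Hier (AB n C D K) e s → ∀ (r : ℕ) (_ : r ≤ n) (t : Fin (TT n)),
    {y : (Fin n → ℝ) × ((Fin (r + 1) → Fin n → ℝ) × ((Fin (r + 1) → ℝ) × ℝ)) |
      Kkt (T := TT n) A (pv s) r t y.1 y.2.1 y.2.2.1 y.2.2.2}.Finite

/-- JOB SEM (from VV, KKT, LIMT, LIMF, CONN, THR, FIN).  The sentence and the systems.
PROOF. Let `s` be hierarchical.  By THR and KKT the function `W` of VV avoids `θ0` and `θ1` at all
hierarchical parameter vectors, so by CONN it is on the same side for all of them.  Positive case: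
by LIMT with `θ = θ1` there is a hierarchical `s'` with `θ1 < W (pv s')` (choose `s' 0` large,
then `s' 1`, then `s' 2`, then all other terms larger than `1/ε`), so `W (pv s) > θ1 ≥ K`; take the
maximizer and KKT.  Negative case: similarly `W (pv s') < 1 ≤ θ0`, so `W (pv s) < θ0 ≤ K` and for
every `x` there is `v` with `F(x, v) ≤ W (pv s) < K`. -/
def S_sem : Prop := ∀ (n : ℕ) (A : Dat n) (C D K e : ℕ), 1 ≤ n → 1 ≤ C → A.P.totalDegree ≤ 4 →
  nrm A.P ≤ C → (∀ v : Fin n → ℝ, 0 ≤ aeval v A.P) → DB n (TT n) ≤ D →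
  (n + 1) * TT n * D + 1 ≤ K → D * LL n (TT n) + 1 ≤ e →
  ∀ s, Hier (AB n C D K) e s →
    ((∃ x0 : Fin n → ℝ, ∃ κ > 0, ∀ v : Fin n → ℝ, κ ≤ (1 + v A.o ^ 2) * A.Phi x0 v) →
      ∃ (r : ℕ) (_ : r ≤ n) (t : Fin (TT n)) (x : Fin n → ℝ) (v : Fin (r + 1) → Fin n → ℝ)
        (lam : Fin (r + 1) → ℝ) (V : ℝ), Kkt (T := TT n) A (pv s) r t x v lam V ∧
        ∀ w, (K : ℝ) ≤ A.FF (T := TT n) (pv s) x w) ∧
    ((∀ x : Fin n → ℝ, ∃ v, A.Phi x v = 0) → ∀ x, ∃ w, A.FF (T := TT n) (pv s) x w < K)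

end Pool.Agent.Q230.IP
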