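import Pool.Agent.Q230.IP.St
import Pool.Agent.Q230.IP.Fml

/-!
# Project IP: statements of the lemmas about the instance and the formula
-/

namespace Pool.Agent.Q230.IP

open Pool.Agent.NPC Pool.Agent.NPC.ER Pool.Agent.NPC.H612

/-! ### The instance -/

/-- JOB LOJ.  A lower bound at infinity for positive polynomials of degree at most 4.
PROOF. `n = 0` is trivial.  Let `w(v) = 1 + ∑ v_i^2` and, for `B ≥ 1`, `δ(B) = min {p(v) : w(v) = B} > 0`.
Claim: there is `χ ≠ 0` in `(ℝ[B])[T]`, all coefficients of degree at most `NE n` in `B`, with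
`χ(6 δ(B); B) = 0` for all `B ≥ 1`.  Use `value_root` of `Pool.Agent.H612.Crit` with
`K = ((ℝ[B])[e])[a]` (`Polynomial (Polynomial (Polynomial ℝ))`), the norm on `ℝ[B]` being
`ν f = 2 ^ natDegree f` for `f ≠ 0` and `ν 0 = 0` (an RNorm), extended by `RNorm.poly` twice.
Objective `U = p + a (w - B)^2` (over `K`), `V_i = -e ∂_i U`, `W = 6 U - ∑ z_i ∂_i U`, as in
`Pool.Agent.H612.Gap` (`min_crit`, `exists_relation`, `effective`): for `e, a > 0` a minimizer `z`
of `U + (∑ z_i^6)/(6e)` satisfies `z_i^5 = V_i(z)` and `W(z) = 6 * minimum`.  The polynomial `p` has at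
most `(n+1)^4` monomials, each of norm at most 1, and `a (w - B)^2` has norm at most `(n+3)^2`
(`w - B` has norm at most `n + 1 + 2`), so `U` has norm at most `C0 n`, `V_i` at most `4 C0`, `W` at
most `(6+4n) C0`, and the monic polynomial `χ₀` has norm at most
`(1 + (6+4n) C0 (4 C0)^(4+4n))^(5^n) ≤ 2^(NE n)` (use `x ≤ 2^x` for each factor).  Let `a → ∞` (`tendsto_penalty`,
`limit_step` of `Pool.Agent.H612.Limit`), then `e → ∞` (`tendsto_reg`, `limit_step`).  The norms of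
the coefficients in `ℝ[B]` are at most `2^(NE n)`, so their degrees are at most `NE n`.
Conclusion: divide `χ` by the largest power of `T`; its constant term `c(B)` is then a nonzero
polynomial in `B` with `|c(B)| ≤ δ * C' * B^(NE n)` when `6δ ≤ 1`, `δ = δ(B)`.  As `|c(B)|` is bounded
below by a positive constant for large `B`, we get `δ(B) ≥ κ' B^(-NE n)` for large `B`; for bounded
`B` use compactness. -/
def S_loj : Prop := ∀ (n : ℕ) (p : MvPolynomial (Fin n) ℝ), p.totalDegree ≤ 4 →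
  (∀ v, 0 < MvPolynomial.eval v p) →
  ∃ κ > 0, ∀ v : Fin n → ℝ, κ ≤ (1 + ∑ i, v i ^ 2) ^ NE n * MvPolynomial.eval v p

/-- JOB CHN.  The chain of squares amplifies the lower bound.
PROOF. Let `κ0` be as in the hypothesis and `w = 1 + ∑ v_l^2`.  Put `a_0 = 1/2`,
`a_{j+1} = a_j^2/2 > 0`, and let `η > 0` with `η ≤ 1/4` and `sqrt η ≤ a_j^2/2` for all `j ≤ q`.
If `(1 + y_q^2) (p + R) < η` where `R = (y_0 - w)^2 + ∑_{j<q} (y_{j+1} - y_j^2)^2 ≥ 0` then
`R < η`, so `y_0 ≥ w - 1/2 ≥ a_0 w` and by induction `y_{j+1} ≥ y_j^2 - sqrt η ≥ a_{j+1} w^(2^(j+1))`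
(`w ≥ 1`).  Hence `(1 + y_q^2) p ≥ a_q^2 w^(2^(q+1)) p ≥ a_q^2 κ0` because `N ≤ 2^(q+1)`.  So
`κ = min η (a_q^2 κ0)` works. -/
def S_chn : Prop := ∀ (m q N : ℕ) (p : (Fin m → ℝ) → ℝ), N ≤ 2 ^ (q + 1) → (∀ v, 0 ≤ p v) →
  (∃ κ0 > 0, ∀ v : Fin m → ℝ, κ0 ≤ (1 + ∑ i, v i ^ 2) ^ N * p v) →
  ∃ κ > 0, ∀ (v : Fin m → ℝ) (y : ℕ → ℝ), κ ≤ (1 + y q ^ 2) *
    (p v + ((y 0 - (1 + ∑ i, v i ^ 2)) ^ 2 + ∑ j ∈ Finset.range q, (y (j + 1) - y j ^ 2) ^ 2))

/-- JOB INST (from LOJ, CHN).  The sentence in terms of the function `Φ` of the instance.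
PROOF. Let `V = varsOf S`, `m = V.length`, `q = QQ m`, `n = nn m = m + q + 1`, `A = datS E S`.
`aeval v (toMv n g) = wval (xt v) g`, so `aeval v A.P = ∑ g ∈ gsys, (wval (xt v) g)^2 ≥ 0`.
By `ear_iff_sys` and `ear_iff_pts` (Pool.Agent.H612.GalHard) the sentence is true iff there is
`u : Fin m → ℝ` such that no `v : Fin m → ℝ` with `v_j = u_j` for all existential `j`
(`exC E V j`, that is `j ∈ EL E V`) is a solution of the system.
(a) If it is true, with `u`: the polynomial `p(v) = ∑_{j ∈ EL} (v_j - u_j)^2 + ∑_{c ∈ S} (wval (xt v)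
(cw0 V c))^2` in `m` variables with real coefficients has degree at most 4 and is positive, LOJ gives
the hypothesis of CHN with `N = NE m ≤ 2^(QQ m + 1)` (`5^m ≤ 2^(3m)` and `x ≤ 2^x`), and CHN
gives the claim for any `x0` which extends `u`; `A.Phi x0 v` is exactly the bracket of CHN with
`y j = v_{m+j}`.  (b) If it is false, then for every `x` there is a solution `v` on the first `m`
coordinates with `v_j = x_j` for the existential ones, and the other coordinates are determined by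
the chain.  (c) degree at most 2 for each constraint; norms: 3 for `cw0`, `m+2`, 2. -/
def S_inst : Prop := ∀ (E : List ℕ) (φ : Fm),
  let S := sysOf (Fm.not φ)
  let A := datS E S
  (EAR (E, φ) → ∃ x0 : Fin (nn (varsOf S).length) → ℝ, ∃ κ > 0,
    ∀ v : Fin (nn (varsOf S).length) → ℝ, κ ≤ (1 + v A.o ^ 2) * A.Phi x0 v) ∧
  (¬ EAR (E, φ) → ∀ x : Fin (nn (varsOf S).length) → ℝ, ∃ v, A.Phi x v = 0) ∧
  (∀ v : Fin (nn (varsOf S).length) → ℝ, 0 ≤ MvPolynomial.aeval v A.P) ∧
  A.P.totalDegree ≤ 4 ∧ nrm A.P ≤ 2 ^ ww S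

/-- JOB NUM.  The numerical inequalities.
PROOF. All steps use `x ≤ 2^x`.  Write `T = TT n`, `L = LL n T`, `δ = dl n`, `m = (n+2)^2`.
`DB = 2 * X^L ≤ 2 * (2^X)^L = 2^δ` with `X = (L+1)*(m*(2n+9)+1)+1`.
`(n+1)*T*D + 1 ≤ 2^((n+1)*T) * 2^δ + 1 ≤ 2^(k0 n) ≤ 2^2^(k0 n)`.  `D*L+1 ≤ 2^(δ+L)+1 ≤ 2^(gg n)`.
`CB ≤ 2^10 * 2^(3L) * (2^(n+T*n))^(2n+8) * 2^w = 2^(c1 n w)`, `HB ≤ 2^(δ(L+1)) * 2^((m+c1)*m*(L+1)*2^δ)`,
`(2K+2)^D ≤ (4K)^D = 2^((2+2^k0)*2^δ)`, so `AB ≤ 2^τ + 1` with
`τ = 2δ(L+1) + (m+c1)m(L+1)2^δ + (2+2^k0)2^δ`, and `τ + 2 ≤ 2^(p0 n w)`.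
`(ss i)^(2^gg) = ss (i+1)` exactly. -/
def S_num : Prop := ∀ (n w C : ℕ), 1 ≤ n → 1 ≤ C → C ≤ 2 ^ w →
  DB n (TT n) ≤ 2 ^ dl n ∧ (n + 1) * TT n * 2 ^ dl n + 1 ≤ 2 ^ 2 ^ k0 n ∧
  2 ^ dl n * LL n (TT n) + 1 ≤ 2 ^ gg n ∧
  Hier (AB n C (2 ^ dl n) (2 ^ 2 ^ k0 n)) (2 ^ gg n) (ss n w)

/-! ### Evaluation of the lists of terms -/

/-- Conditions on the list of the existential coordinates and the constraints. -/
def Good (n : ℕ) (el : List ℕ) (gs : List PolyData) : Prop :=
  el.Nodup ∧ (∀ l ∈ el, l < n) ∧ ∀ g ∈ gs, ∀ a ∈ g, a.2.length ≤ 2 ∧ ∀ i ∈ a.2, i < n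

/-- The values of the parameters and of `x` in the assignment `ν`. -/
def IsPX {n T : ℕ} (ν : ℕ → ℝ) (p : Par n T → ℝ) (x : Fin n → ℝ) : Prop :=
  (∀ i, ν (8 * pos n T i + 1) = p i) ∧ ∀ l : Fin n, ν (8 * (l : ℕ) + 2) = x l

/-- The values at a node in the assignment `ν`, with scale `s`. -/
def IsNd (n T : ℕ) (ν : ℕ → ℝ) (cv cu : ℕ) (s : ℝ) (v : Fin n → ℝ) : Prop :=
  (∀ l : Fin n, ν (cv + 8 * (l : ℕ)) = s * v l) ∧
  ∀ t < T, ∀ j < 2 * n + 7, ν (nu n cu t j) = s * uu t v ^ j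

/-- JOB EVF.  The value of the list `FL`.
PROOF. Direct computation; `wval` of concatenations, of `flatMap`, of `mulL` (product).  The sum over
`el` is the sum over all `l : Fin n` with `l ∈ el` because `el` has no duplicates.
`aeval v (toMv n g) = wval (xt v) g`. -/
def S_evF : Prop := ∀ (n T : ℕ) (el : List ℕ) (gs : List PolyData) (o : Fin n) (h : Bool)
  (cv cu : ℕ) (ν : ℕ → ℝ) (s : ℝ) (p : Par n T → ℝ) (x v : Fin n → ℝ), Good n el gs →
  IsPX ν p x → IsNd n T ν cv cu s v → (h = true → ν 6 = s) → (h = false → s = 1) →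
  wval ν (FL n T el gs o h cv cu) = s ^ 6 * (mkDat n el o gs).FF p x v

/-- JOB EVV.  The value of the list `dvL`.
PROOF. Direct computation.  `pderiv l (toMv n g) = toMv n (pdL l g)` for lists with terms of degree
at most 2, `pderiv` of a square is `2 g ∂g`. -/
def S_evV : Prop := ∀ (n T : ℕ) (el : List ℕ) (gs : List PolyData) (o : Fin n)
  (cv cu : ℕ) (ν : ℕ → ℝ) (p : Par n T → ℝ) (x v : Fin n → ℝ), Good n el gs →
  IsPX ν p x → IsNd n T ν cv cu 1 v → ∀ l : Fin n,
  wval ν (dvL n T el gs o cv cu l) = (mkDat n el o gs).FFV p l x v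

/-- JOB EVX.  The value of the list `dxL`.
PROOF. Direct computation. -/
def S_evX : Prop := ∀ (n T : ℕ) (el : List ℕ) (gs : List PolyData) (o : Fin n)
  (cv cu : ℕ) (ν : ℕ → ℝ) (p : Par n T → ℝ) (x v : Fin n → ℝ), Good n el gs →
  IsPX ν p x → IsNd n T ν cv cu 1 v → ∀ l : Fin n,
  wval ν (dxL el o cv l) = (mkDat n el o gs).FFX p l x v

/-- The assignment given by a point. -/
noncomputable def env (W : List ℕ) (f : Fin W.length → ℝ) (i : ℕ) : ℝ := xt f (W.idxOf i)

/-- JOB CHQ (from POS).  The equations of the chain and of the parameters.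
PROOF. `wval (xt f) (ren W p) = wval (env W f) p`.  Induction for the chain.  Every `j < LL n T` is
the position of exactly one parameter (injectivity and cardinality), and position 1 is
`inl 1` only. -/
def S_chq : Prop := ∀ (W : List ℕ) (f : Fin W.length → ℝ) (n T La p g : ℕ), 1 ≤ La →
  (∀ j < LL n T, p + g * j < La) →
  ((∀ φ ∈ chainQ W n T La p g, QF.Val (wval (xt f)) φ) ↔
    (∀ j < La, env W f (8 * j) = zz j) ∧
    ∀ i : Par n T, env W f (8 * pos n T i + 1) = pv (fun k => zz (p + g * k)) i)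

/-- JOB PWQ.  The equations of the powers.
PROOF. `wval (xt f) (ren W p) = wval (env W f) p`, induction on `j`; `min l n = l` for `l < n`.  In the
case of the test point divide by the scale `s = env W f 6 > 0`. -/
def S_pwq : Prop := ∀ (W : List ℕ) (f : Fin W.length → ℝ) (n T : ℕ) (h : Bool) (cv cu : ℕ) (s : ℝ),
  0 < s → (h = true → env W f 6 = s) → (h = false → s = 1) →
  ((∀ φ ∈ powQ W n T h cv cu, QF.Val (wval (xt f)) φ) ↔
    IsNd n T (env W f) cv cu s (fun l => env W f (cv + 8 * (l : ℕ)) / s))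

/-- The coordinates of the node `i`. -/
def dv (n : ℕ) (ν : ℕ → ℝ) (i : ℕ) : Fin n → ℝ := fun l => ν (bV n i + 8 * (l : ℕ))

/-- The meaning of the main part. -/
def MainC (n T La p g : ℕ) (A : Dat n) (ν : ℕ → ℝ) : Prop :=
  (∀ j < La, ν (8 * j) = zz j) ∧
  (∀ i : Par n T, ν (8 * pos n T i + 1) = pv (fun k => zz (p + g * k)) i) ∧
  (∀ i ≤ n, ∀ t < T, ∀ j < 2 * n + 7, ν (nu n (bU n T i) t j) = uu t (dv n ν i) ^ j) ∧
  ∃ (r : ℕ) (_ : r ≤ n) (t : Fin T), Kkt A (pv fun k => zz (p + g * k)) r t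
    (fun l => ν (8 * (l : ℕ) + 2)) (fun i => dv n ν i) (fun i => ν (8 * (i : ℕ) + 5)) (ν 7) ∧
    ∀ i, r < i → i ≤ n → ν (8 * i + 5) = 0 ∧ ∀ l < n, ν (bV n i + 8 * l) = 0

/-- JOB MNQ (from EVF, EVV, EVX, CHQ, PWQ).  The meaning of the main part of the formula.
PROOF. `wval (xt f) (ren W p) = wval (env W f) p`, `val_qall`.  Note that `sep` in Kkt uses `uu t (v i)`,
the power with `j = 1`. -/
def S_mnq : Prop := ∀ (W : List ℕ) (f : Fin W.length → ℝ) (n T La p g : ℕ) (el : List ℕ)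
  (gs : List PolyData) (o : Fin n), 1 ≤ La → (∀ j < LL n T, p + g * j < La) → Good n el gs →
  ((mainQ W n T La p g el gs o).Val (wval (xt f)) ↔
    MainC n T La p g (mkDat n el o gs) (env W f))

/-- The test point. -/
noncomputable def tp (n : ℕ) (ν : ℕ → ℝ) : Fin n → ℝ := fun l => ν (bVt + 8 * (l : ℕ)) / ν 6

/-- The meaning of the violation. -/
def ViolC {n T : ℕ} (A : Dat n) (p : Par n T → ℝ) (K : ℝ) (ν : ℕ → ℝ) : Prop :=
  0 < ν 6 ∧ IsNd n T ν bVt (bUt n) (ν 6) (tp n ν) ∧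
    A.FF p (fun l => ν (8 * (l : ℕ) + 2)) (tp n ν) < K

/-- JOB VLQ (from EVF, PWQ).  The meaning of the violation part of the formula. -/
def S_vlq : Prop := ∀ (W : List ℕ) (f : Fin W.length → ℝ) (n T k : ℕ) (el : List ℕ)
  (gs : List PolyData) (o : Fin n) (p : Par n T → ℝ), Good n el gs →
  (∀ i, env W f (8 * pos n T i + 1) = p i) →
  ((violQ W n T k el gs o).Val (wval (xt f)) ↔
    ViolC (mkDat n el o gs) p (env W f (8 * k)) (env W f))

/-- JOB NMS.  The list of the names.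
PROOF. The residues modulo 8 of the parts are different, each part has no duplicates. -/
def S_nms : Prop := ∀ n T La : ℕ, (names n T La).Nodup ∧
  ∀ k, k ∈ names n T La ↔ (∃ j < La, k = 8 * j) ∨ (∃ j < LL n T, k = 8 * j + 1) ∨
    (∃ l < n, k = 8 * l + 2) ∨ (∃ i ≤ n, ∃ l < n, k = bV n i + 8 * l) ∨
    (∃ i ≤ n, ∃ t < T, ∃ j < 2 * n + 7, k = nu n (bU n T i) t j) ∨ (∃ i ≤ n, k = 8 * i + 5) ∨
    (k = 6 ∨ (∃ l < n, k = bVt + 8 * l) ∨ ∃ t < T, ∃ j < 2 * n + 7, k = nu n (bUt n) t j) ∨ k = 7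

/-- JOB GEO.  Isolated points of a set with a finite base and conical fibres.
PROOF. Let `S` be the set.  If `f ∈ S` satisfies `Vi f`, then the points `f_c` (test coordinates
multiplied by `c > 0`) are in `S`, tend to `f` for `c → 1` and differ from `f` for `c ≠ 1`.  So an
isolated point `f` has zero test coordinates; if `g` agrees with `f` outside the test coordinates and
`Vi g`, then `g_c ∈ S` tends to `f` for `c → 0`, `g_c ≠ f`; so there is no such `g`.  Conversely let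
`f` be as on the right.  For `y ∈ S` let `y'` be `y` with the test coordinates replaced by 0; it is in
the finite set; if `y` is close enough to `f` then `y'` is close to `f`, so `y' = f`, and then `y = f`
or `Vi y`, which is impossible. -/
def S_geo : Prop := ∀ (d : ℕ) (isT : Fin d → Prop) (Mn Vi : (Fin d → ℝ) → Prop),
  (∀ f g : Fin d → ℝ, (∀ i, ¬ isT i → f i = g i) → (Mn f ↔ Mn g)) →
  {f | Mn f ∧ ∀ i, isT i → f i = 0}.Finite →
  (∀ (f g : Fin d → ℝ) (c : ℝ), 0 < c → (∀ i, isT i → g i = c * f i) →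
    (∀ i, ¬ isT i → g i = f i) → Vi f → Vi g) →
  (∀ f, Vi f → ∃ i, isT i ∧ f i ≠ 0) →
  (HasIso {f | Mn f ∧ ((∀ i, isT i → f i = 0) ∨ Vi f)} ↔
    ∃ f, Mn f ∧ (∀ i, isT i → f i = 0) ∧ ¬ ∃ g, (∀ i, ¬ isT i → g i = f i) ∧ Vi g)

/-- JOB ISO (from MNQ, VLQ, NMS, GEO).  Isolated points of the set of the formula.
PROOF. Let `W = names n T La`, `isT i` means `W[i] % 8 = 6`.  Apply GEO with `Mn f = MainC (env W f)`
and `Vi f = ViolC (env W f)` (under `Mn f` the formula `violQ` means `ViolC` with `p = pv ..` and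
`K = zz k`).  `MainC` depends only on names which are not 6 modulo 8.  Finiteness: `f` is determined
by `env W f` on the names (no duplicates); the chain, the parameters and the powers are determined,
the other values come from the finite sets for the finitely many `(r, t)`, or are zero.
`ViolC` is invariant under scaling of all test coordinates, and `ν 6 ≠ 0`.
If `f` is a base point and `w` a test point with `F(x, w) < K`, then define `g` by `s = 1`, the
coordinates of `w` and the powers (an assignment on the names defines a point because there are no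
duplicates).  Conversely a solution `(r, t, x, v, lam, V)` with `K ≤ F(x, w)` for all `w` defines a base
point. -/
def S_iso : Prop := ∀ (n T La p g k : ℕ) (el : List ℕ) (gs : List PolyData) (o : Fin n),
  1 ≤ La → (∀ j < LL n T, p + g * j < La) → k < La → Good n el gs →
  (∀ (r : ℕ) (_ : r ≤ n) (t : Fin T),
    {y : (Fin n → ℝ) × ((Fin (r + 1) → Fin n → ℝ) × ((Fin (r + 1) → ℝ) × ℝ)) |
      Kkt (mkDat n el o gs) (pv fun k => zz (p + g * k)) r t y.1 y.2.1 y.2.2.1 y.2.2.2}.Finite) →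
  (HasIso (gallery (names n T La).length (isoQ (names n T La) n T La p g k el gs o)) ↔
    ∃ (r : ℕ) (_ : r ≤ n) (t : Fin T) (x : Fin n → ℝ) (v : Fin (r + 1) → Fin n → ℝ)
      (lam : Fin (r + 1) → ℝ) (V : ℝ),
      Kkt (mkDat n el o gs) (pv fun k => zz (p + g * k)) r t x v lam V ∧
      ∀ w, zz k ≤ (mkDat n el o gs).FF (T := T) (pv fun k => zz (p + g * k)) x w)

/-- JOB RED (from SEM, FIN, INST, NUM, ISO).  Correctness of the reduction.
PROOF. `EL E (varsOf S)` and `gsys` satisfy `Good (nn m)`.  ISO with `n = nn m`, `T = TT n`,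
`La = La n w`, `p = p0 n w`, `g = gg n`, `k = k0 n`, `w = ww S`; `pv fun k => zz (p + g * k)` is
`pv (ss n w)`; FIN with `C = 2^w`, `D = 2^dl n`, `K = 2^2^k0 n`, `e = 2^gg n` (NUM); SEM and INST for
both directions. -/
def S_red : Prop := ∀ p : List ℕ × Fm, EAR p ↔ IsoPoint (instI p)

/-! ### Polynomial time -/

/-- JOB PPW.  Powers with unary exponents are computable in polynomial time.
PROOF. `Poly.iterLen` on `List.replicate (k a) ()` with the step `s ↦ t a * s`; the size of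
`t ^ i` is at most `i * size t + 1`. -/
def S_ppw : Prop := ∀ (α : Type) [TEnc α] (t k : α → ℕ), Poly t → UPoly k →
  Poly (fun a => t a ^ k a)

/-- JOB PLL (from PPW).  The lists of terms are computable in polynomial time.
PROOF. Each list is built by `Poly.map`, `Poly.flatMap`-like lemmas (see `poly_varsOf`,
`Poly.flatten`), `Poly.append`, `Poly.cons`, `Poly.ite`, `UPoly.range`; for `t ^ min l n` use PPW and
`UPoly.of_le`; `mulL`, `negL`, `homL`, `pdL`, `phiL`, `phiD` first. -/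
def S_pll : Prop := ∀ (α : Type) [TEnc α] (n T : α → ℕ) (el : α → List ℕ)
  (gs : α → List PolyData) (o cv cu l : α → ℕ), UPoly n → UPoly T → Poly el → Poly gs → Poly o →
  Poly cv → Poly cu → Poly l →
  (∀ h, Poly fun a => FL (n a) (T a) (el a) (gs a) (o a) h (cv a) (cu a)) ∧
  (Poly fun a => dvL (n a) (T a) (el a) (gs a) (o a) (cv a) (cu a) (l a)) ∧
  (Poly fun a => dxL (el a) (o a) (cv a) (l a)) ∧
  (∀ p : α → PolyData, Poly p → Poly fun a => negL (p a)) ∧
  ∀ p q : α → PolyData, Poly p → Poly q → Poly fun a => mulL (p a) (q a)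

/-- JOB PNM.  The names and the renaming are computable in polynomial time. -/
def S_pnm : Prop := ∀ (α : Type) [TEnc α] (n T La : α → ℕ) (W : α → List ℕ) (p : α → PolyData),
  UPoly n → UPoly T → UPoly La → Poly W → Poly p →
  (Poly fun a => names (n a) (T a) (La a)) ∧ (Poly fun a => ren (W a) (p a)) ∧
  Poly fun a => eqW (W a) (p a)

/-- JOB PQF (from PPW, PLL, PNM).  The formula is computable in polynomial time.
PROOF. `chainQ`, `powQ`, `kktQ`, `mainQ`, `zeroQ`, `violQ`, `isoQ` in this order, with the lemmas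
`poly_qall`, `poly_qor`, `poly_qnot` of Pool.Agent.H612.GalHard (`QF.and` is similar). -/
def S_pqf : Prop := ∀ (α : Type) [TEnc α] (n T La p g k o : α → ℕ) (W el : α → List ℕ)
  (gs : α → List PolyData), UPoly n → UPoly T → UPoly La → Poly p → Poly g → Poly k → Poly o →
  Poly W → Poly el → Poly gs →
  Poly fun a => isoQ (W a) (n a) (T a) (La a) (p a) (g a) (k a) (el a) (gs a) (o a)

/-- JOB PIN (from PNM, PQF).  The reduction is computable in polynomial time.
PROOF. All numbers `nn`, `TT`, `LL`, `dl`, `k0`, `gg`, `c1`, `p0`, `La`, `ww`, `QQ` are built from lengths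
of lists by addition and multiplication (`UPoly.add`, `UPoly.mul`, powers with constant exponents;
`UPoly.eval`); `poly_sysOf`, `poly_varsOf`, `poly_isE`, `poly_idxOf`, `poly_con_code` as in
Pool.Agent.H612.GalHard (`poly_cw`, `poly_galInst`). -/
def S_pin : Prop := Poly instI

/-- JOB MEM.  The problem is in the class.
PROOF. As `artGallery_inEAR` in Pool.Agent.H612.Gal: the sentence
`∃ x ε ∀ y, 0 < ε ∧ φ(x) ∧ (φ(y) ∧ ∑ (y_i - x_i)^2 < ε^2 → y = x)`; substitute terms in `φ` by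
`subF`. -/
def S_mem : Prop := InEAR (lang IsoPoint)

/-- The main theorem. -/
def S_main : Prop := EARComplete (lang IsoPoint)

theorem main_of (h1 : S_mem) (h2 : S_pin) (h3 : S_red) : S_main :=
  ⟨h1, EARHard.of_poly h2 h3⟩

end Pool.Agent.Q230.IP
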